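import Mathlib

/-! Generalities: antipodes given as anti-homomorphisms, and the two concrete rings. -/

set_option autoImplicit false

open TensorProduct

namespace Pool.Agent.MP_ae7646_al

noncomputable section

section Antipode

variable {k B : Type} [CommRing k] [Ring B] [Bialgebra k B]

/-- the linear map underlying an anti-homomorphism -/
def antiLin (S : B →ₐ[k] Bᵐᵒᵖ) : B →ₗ[k] B :=
  (MulOpposite.opLinearEquiv k).symm.toLinearMap ∘ₗ S.toLinearMap

lemma antiLin_apply (S : B →ₐ[k] Bᵐᵒᵖ) (b : B) : antiLin S b = (S b).unop := rfl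

lemma antiLin_mul (S : B →ₐ[k] Bᵐᵒᵖ) (a b : B) :
    antiLin S (a * b) = antiLin S b * antiLin S a := by
  simp [antiLin_apply]

lemma antiLin_one (S : B →ₐ[k] Bᵐᵒᵖ) : antiLin S 1 = 1 := by
  simp [antiLin_apply]

lemma rT_mul_tmul (S : B →ₐ[k] Bᵐᵒᵖ) (t : B ⊗[k] B) (b1 b2 : B) :
    LinearMap.mul' k B ((antiLin S).rTensor B (t * (b1 ⊗ₜ[k] b2))) =
      antiLin S b1 * LinearMap.mul' k B ((antiLin S).rTensor B t) * b2 := by
  induction t using TensorProduct.induction_on with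
  | zero => simp
  | tmul a1 a2 => simp [antiLin_mul, mul_assoc]
  | add s t hs ht => simp only [add_mul, map_add, hs, ht, mul_add]

lemma lT_tmul_mul (S : B →ₐ[k] Bᵐᵒᵖ) (t : B ⊗[k] B) (b1 b2 : B) :
    LinearMap.mul' k B ((antiLin S).lTensor B ((b1 ⊗ₜ[k] b2) * t)) =
      b1 * LinearMap.mul' k B ((antiLin S).lTensor B t) * antiLin S b2 := by
  induction t using TensorProduct.induction_on with
  | zero => simp
  | tmul a1 a2 => simp [antiLin_mul, mul_assoc]
  | add s t hs ht => simp only [add_mul, map_add, hs, ht, mul_add]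

lemma rT_mul (S : B →ₐ[k] Bᵐᵒᵖ) (s t : B ⊗[k] B) (c : k)
    (hs : LinearMap.mul' k B ((antiLin S).rTensor B s) = algebraMap k B c) :
    LinearMap.mul' k B ((antiLin S).rTensor B (s * t)) =
      c • LinearMap.mul' k B ((antiLin S).rTensor B t) := by
  induction t using TensorProduct.induction_on with
  | zero => simp
  | tmul b1 b2 =>
    rw [rT_mul_tmul, hs]
    simp [Algebra.algebraMap_eq_smul_one]
  | add s t hs ht => simp only [map_add, hs, ht, mul_add, smul_add]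

lemma lT_mul (S : B →ₐ[k] Bᵐᵒᵖ) (s t : B ⊗[k] B) (c : k)
    (ht : LinearMap.mul' k B ((antiLin S).lTensor B t) = algebraMap k B c) :
    LinearMap.mul' k B ((antiLin S).lTensor B (s * t)) =
      c • LinearMap.mul' k B ((antiLin S).lTensor B s) := by
  induction s using TensorProduct.induction_on with
  | zero => simp
  | tmul b1 b2 =>
    rw [lT_tmul_mul, ht]
    simp [Algebra.algebraMap_eq_smul_one]
  | add s t hs ht => simp only [map_add, hs, ht, add_mul, smul_add]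

/-- elements on which both antipode identities hold -/
def Good (S : B →ₐ[k] Bᵐᵒᵖ) (b : B) : Prop :=
  LinearMap.mul' k B ((antiLin S).rTensor B (Coalgebra.comul b)) =
      algebraMap k B (Coalgebra.counit b) ∧
  LinearMap.mul' k B ((antiLin S).lTensor B (Coalgebra.comul b)) =
      algebraMap k B (Coalgebra.counit b)

lemma Good.mul {S : B →ₐ[k] Bᵐᵒᵖ} {a b : B} (ha : Good S a) (hb : Good S b) :
    Good S (a * b) := by
  constructor
  · rw [Bialgebra.comul_mul, rT_mul S _ _ _ ha.1, hb.1, Bialgebra.counit_mul, map_mul,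
      Algebra.smul_def]
  · rw [Bialgebra.comul_mul, lT_mul S _ _ _ hb.2, ha.2, Bialgebra.counit_mul, mul_comm, map_mul,
      Algebra.smul_def]

lemma Good.add {S : B →ₐ[k] Bᵐᵒᵖ} {a b : B} (ha : Good S a) (hb : Good S b) :
    Good S (a + b) := by
  constructor
  · simp only [map_add, ha.1, hb.1]
  · simp only [map_add, ha.2, hb.2]

lemma Good.smul {S : B →ₐ[k] Bᵐᵒᵖ} {a : B} (c : k) (ha : Good S a) :
    Good S (c • a) := by
  constructor
  · rw [map_smul, map_smul, map_smul, map_smul, ha.1, smul_eq_mul, map_mul, Algebra.smul_def]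
  · rw [map_smul, map_smul, map_smul, map_smul, ha.2, smul_eq_mul, map_mul, Algebra.smul_def]

lemma Good.zero (S : B →ₐ[k] Bᵐᵒᵖ) : Good S 0 := by
  constructor <;> simp

/-- Hopf algebra structure from an anti-homomorphism good on every element -/
abbrev hopfOfGood (S : B →ₐ[k] Bᵐᵒᵖ) (h : ∀ b, Good S b) : HopfAlgebra k B where
  antipode := antiLin S
  mul_antipode_rTensor_comul := by ext b; exact (h b).1
  mul_antipode_lTensor_comul := by ext b; exact (h b).2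

end Antipode

/-- data for the rings: an involution and three fixed elements -/
structure Par (k R : Type) [CommRing k] [CommRing R] [Algebra k R] where
  σ : R →ₐ[k] R
  a : R
  b : R
  c : R
  σσ : ∀ r, σ (σ r) = r
  σa : σ a = a
  σb : σ b = b
  σc : σ c = c

attribute [simp] Par.σσ Par.σa Par.σb Par.σc

variable {k R : Type} [CommRing k] [CommRing R] [Algebra k R]

/-- R + R x with x r = σ(r) x and x x = a -/
@[ext]
structure Q2 (P : Par k R) where
  c0 : R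
  c1 : R

namespace Q2

variable {P : Par k R}

instance : Zero (Q2 P) := ⟨⟨0, 0⟩⟩
instance : One (Q2 P) := ⟨⟨1, 0⟩⟩
instance : Add (Q2 P) := ⟨fun u v => ⟨u.c0 + v.c0, u.c1 + v.c1⟩⟩
instance : Neg (Q2 P) := ⟨fun u => ⟨-u.c0, -u.c1⟩⟩
instance : Sub (Q2 P) := ⟨fun u v => ⟨u.c0 - v.c0, u.c1 - v.c1⟩⟩
instance : Mul (Q2 P) := ⟨fun u v =>
  ⟨u.c0 * v.c0 + u.c1 * P.σ v.c1 * P.a, u.c0 * v.c1 + u.c1 * P.σ v.c0⟩⟩
instance {S : Type} [SMul S R] : SMul S (Q2 P) := ⟨fun s u => ⟨s • u.c0, s • u.c1⟩⟩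

@[simp] lemma zero_c0 : (0 : Q2 P).c0 = 0 := rfl
@[simp] lemma zero_c1 : (0 : Q2 P).c1 = 0 := rfl
@[simp] lemma one_c0 : (1 : Q2 P).c0 = 1 := rfl
@[simp] lemma one_c1 : (1 : Q2 P).c1 = 0 := rfl
@[simp] lemma add_c0 (u v : Q2 P) : (u + v).c0 = u.c0 + v.c0 := rfl
@[simp] lemma add_c1 (u v : Q2 P) : (u + v).c1 = u.c1 + v.c1 := rfl
@[simp] lemma neg_c0 (u : Q2 P) : (-u).c0 = -u.c0 := rfl
@[simp] lemma neg_c1 (u : Q2 P) : (-u).c1 = -u.c1 := rfl
@[simp] lemma sub_c0 (u v : Q2 P) : (u - v).c0 = u.c0 - v.c0 := rfl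
@[simp] lemma sub_c1 (u v : Q2 P) : (u - v).c1 = u.c1 - v.c1 := rfl
@[simp] lemma mul_c0 (u v : Q2 P) : (u * v).c0 = u.c0 * v.c0 + u.c1 * P.σ v.c1 * P.a := rfl
@[simp] lemma mul_c1 (u v : Q2 P) : (u * v).c1 = u.c0 * v.c1 + u.c1 * P.σ v.c0 := rfl
@[simp] lemma smul_c0 {S : Type} [SMul S R] (s : S) (u : Q2 P) : (s • u).c0 = s • u.c0 := rfl
@[simp] lemma smul_c1 {S : Type} [SMul S R] (s : S) (u : Q2 P) : (s • u).c1 = s • u.c1 := rfl

instance : AddCommGroup (Q2 P) where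
  add_assoc _ _ _ := by ext <;> simp [add_assoc]
  zero_add _ := by ext <;> simp
  add_zero _ := by ext <;> simp
  add_comm _ _ := by ext <;> simp [add_comm]
  neg_add_cancel _ := by ext <;> simp
  sub_eq_add_neg _ _ := by ext <;> simp [sub_eq_add_neg]
  nsmul := (· • ·)
  zsmul := (· • ·)
  nsmul_zero _ := by ext <;> simp
  nsmul_succ _ _ := by ext <;> simp [add_mul]
  zsmul_zero' _ := by ext <;> simp
  zsmul_succ' _ _ := by ext <;> simp [add_mul]
  zsmul_neg' _ _ := by ext <;> simp [add_mul, Int.negSucc_eq]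

instance : Ring (Q2 P) where
  mul_assoc _ _ _ := by ext <;> simp <;> ring
  one_mul _ := by ext <;> simp
  mul_one _ := by ext <;> simp
  left_distrib _ _ _ := by ext <;> simp <;> ring
  right_distrib _ _ _ := by ext <;> simp <;> ring
  zero_mul _ := by ext <;> simp
  mul_zero _ := by ext <;> simp
  neg_add_cancel _ := by ext <;> simp

instance : Module k (Q2 P) where
  one_smul _ := by ext <;> simp
  mul_smul _ _ _ := by ext <;> simp [mul_smul]
  smul_zero _ := by ext <;> simp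
  smul_add _ _ _ := by ext <;> simp
  add_smul _ _ _ := by ext <;> simp [add_smul]
  zero_smul _ := by ext <;> simp

instance : Algebra k (Q2 P) :=
  Algebra.ofModule (fun _ _ _ => by ext <;> simp) (fun _ _ _ => by ext <;> simp)

/-- inclusion of the coefficient ring -/
def ι (P : Par k R) : R →ₐ[k] Q2 P where
  toFun r := ⟨r, 0⟩
  map_one' := rfl
  map_mul' _ _ := by ext <;> simp
  map_zero' := rfl
  map_add' _ _ := by ext <;> simp
  commutes' r := by
    ext <;> simp [Algebra.algebraMap_eq_smul_one]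

@[simp] lemma ι_c0 (r : R) : (ι P r).c0 = r := rfl
@[simp] lemma ι_c1 (r : R) : (ι P r).c1 = 0 := rfl

/-- the generator -/
def X (P : Par k R) : Q2 P := ⟨0, 1⟩

@[simp] lemma X_c0 : (X P).c0 = 0 := rfl
@[simp] lemma X_c1 : (X P).c1 = 1 := rfl

lemma decomp (u : Q2 P) : u = ι P u.c0 + ι P u.c1 * X P := by ext <;> simp

lemma X_mul_ι (r : R) : X P * ι P r = ι P (P.σ r) * X P := by ext <;> simp
lemma X_mul_X : X P * X P = ι P P.a := by ext <;> simp

variable {B : Type} [Ring B] [Algebra k B]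

/-- universal property -/
def lift (f : R →ₐ[k] B) (x : B) (hx : ∀ r, x * f r = f (P.σ r) * x) (hxx : x * x = f P.a) :
    Q2 P →ₐ[k] B :=
  AlgHom.ofLinearMap
    { toFun := fun u => f u.c0 + f u.c1 * x
      map_add' := fun u v => by simp [add_mul]; abel
      map_smul' := fun c u => by simp }
    (by simp)
    (fun u v => by
      have hx' : ∀ r z, x * (f r * z) = f (P.σ r) * (x * z) := fun r z => by
        rw [← mul_assoc, hx, mul_assoc]
      simp only [LinearMap.coe_mk, AddHom.coe_mk, mul_c0, mul_c1, map_add, map_mul, add_mul,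
        mul_add, mul_assoc, hx, hx', hxx]
      abel)

lemma lift_apply (f : R →ₐ[k] B) (x : B) (hx hxx) (u : Q2 P) :
    lift f x hx hxx u = f u.c0 + f u.c1 * x := rfl

@[simp] lemma lift_ι (f : R →ₐ[k] B) (x : B) (hx hxx) (r : R) :
    lift f x hx hxx (ι P r) = f r := by simp [lift_apply]

@[simp] lemma lift_X (f : R →ₐ[k] B) (x : B) (hx hxx) :
    lift f x hx hxx (X P) = x := by simp [lift_apply]

lemma hom_ext {φ ψ : Q2 P →ₐ[k] B} (h0 : φ.comp (ι P) = ψ.comp (ι P)) (h1 : φ (X P) = ψ (X P)) :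
    φ = ψ := by
  ext u
  have h : ∀ r, φ (ι P r) = ψ (ι P r) := fun r => DFunLike.congr_fun h0 r
  rw [decomp u]
  simp only [map_add, map_mul, h, h1]

/-- coordinates -/
def coord (P : Par k R) : Q2 P ≃ₗ[k] R × R where
  toFun u := (u.c0, u.c1)
  invFun p := ⟨p.1, p.2⟩
  map_add' _ _ := rfl
  map_smul' _ _ := rfl
  left_inv _ := rfl
  right_inv _ := rfl

end Q2

/-- R + R x + R y + R x y with x r = σ(r) x, y r = σ(r) y, x x = a, y y = b, x y + y x = c -/
@[ext]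
structure Q4 (P : Par k R) where
  c0 : R
  c1 : R
  c2 : R
  c3 : R

namespace Q4

variable {P : Par k R}

instance : Zero (Q4 P) := ⟨⟨0, 0, 0, 0⟩⟩
instance : One (Q4 P) := ⟨⟨1, 0, 0, 0⟩⟩
instance : Add (Q4 P) := ⟨fun u v => ⟨u.c0 + v.c0, u.c1 + v.c1, u.c2 + v.c2, u.c3 + v.c3⟩⟩
instance : Neg (Q4 P) := ⟨fun u => ⟨-u.c0, -u.c1, -u.c2, -u.c3⟩⟩
instance : Sub (Q4 P) := ⟨fun u v => ⟨u.c0 - v.c0, u.c1 - v.c1, u.c2 - v.c2, u.c3 - v.c3⟩⟩
instance : Mul (Q4 P) := ⟨fun u v =>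
  ⟨u.c0 * v.c0 + u.c1 * P.σ v.c1 * P.a + u.c2 * P.σ v.c1 * P.c + u.c2 * P.σ v.c2 * P.b
      - u.c3 * v.c3 * P.a * P.b,
   u.c0 * v.c1 + u.c1 * P.σ v.c0 - u.c2 * P.σ v.c3 * P.b + u.c3 * v.c1 * P.c + u.c3 * v.c2 * P.b,
   u.c0 * v.c2 + u.c2 * P.σ v.c0 + u.c1 * P.σ v.c3 * P.a + u.c2 * P.σ v.c3 * P.c
      - u.c3 * v.c1 * P.a,
   u.c0 * v.c3 + u.c3 * v.c0 + u.c1 * P.σ v.c2 - u.c2 * P.σ v.c1 + u.c3 * v.c3 * P.c⟩⟩
instance {S : Type} [SMul S R] : SMul S (Q4 P) :=
  ⟨fun s u => ⟨s • u.c0, s • u.c1, s • u.c2, s • u.c3⟩⟩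

@[simp] lemma zero_c0 : (0 : Q4 P).c0 = 0 := rfl
@[simp] lemma zero_c1 : (0 : Q4 P).c1 = 0 := rfl
@[simp] lemma zero_c2 : (0 : Q4 P).c2 = 0 := rfl
@[simp] lemma zero_c3 : (0 : Q4 P).c3 = 0 := rfl
@[simp] lemma one_c0 : (1 : Q4 P).c0 = 1 := rfl
@[simp] lemma one_c1 : (1 : Q4 P).c1 = 0 := rfl
@[simp] lemma one_c2 : (1 : Q4 P).c2 = 0 := rfl
@[simp] lemma one_c3 : (1 : Q4 P).c3 = 0 := rfl
@[simp] lemma add_c0 (u v : Q4 P) : (u + v).c0 = u.c0 + v.c0 := rfl
@[simp] lemma add_c1 (u v : Q4 P) : (u + v).c1 = u.c1 + v.c1 := rfl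
@[simp] lemma add_c2 (u v : Q4 P) : (u + v).c2 = u.c2 + v.c2 := rfl
@[simp] lemma add_c3 (u v : Q4 P) : (u + v).c3 = u.c3 + v.c3 := rfl
@[simp] lemma neg_c0 (u : Q4 P) : (-u).c0 = -u.c0 := rfl
@[simp] lemma neg_c1 (u : Q4 P) : (-u).c1 = -u.c1 := rfl
@[simp] lemma neg_c2 (u : Q4 P) : (-u).c2 = -u.c2 := rfl
@[simp] lemma neg_c3 (u : Q4 P) : (-u).c3 = -u.c3 := rfl
@[simp] lemma sub_c0 (u v : Q4 P) : (u - v).c0 = u.c0 - v.c0 := rfl
@[simp] lemma sub_c1 (u v : Q4 P) : (u - v).c1 = u.c1 - v.c1 := rfl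
@[simp] lemma sub_c2 (u v : Q4 P) : (u - v).c2 = u.c2 - v.c2 := rfl
@[simp] lemma sub_c3 (u v : Q4 P) : (u - v).c3 = u.c3 - v.c3 := rfl
@[simp] lemma mul_c0 (u v : Q4 P) : (u * v).c0 =
    u.c0 * v.c0 + u.c1 * P.σ v.c1 * P.a + u.c2 * P.σ v.c1 * P.c + u.c2 * P.σ v.c2 * P.b
      - u.c3 * v.c3 * P.a * P.b := rfl
@[simp] lemma mul_c1 (u v : Q4 P) : (u * v).c1 =
    u.c0 * v.c1 + u.c1 * P.σ v.c0 - u.c2 * P.σ v.c3 * P.b + u.c3 * v.c1 * P.c
      + u.c3 * v.c2 * P.b := rfl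
@[simp] lemma mul_c2 (u v : Q4 P) : (u * v).c2 =
    u.c0 * v.c2 + u.c2 * P.σ v.c0 + u.c1 * P.σ v.c3 * P.a + u.c2 * P.σ v.c3 * P.c
      - u.c3 * v.c1 * P.a := rfl
@[simp] lemma mul_c3 (u v : Q4 P) : (u * v).c3 =
    u.c0 * v.c3 + u.c3 * v.c0 + u.c1 * P.σ v.c2 - u.c2 * P.σ v.c1 + u.c3 * v.c3 * P.c := rfl
@[simp] lemma smul_c0 {S : Type} [SMul S R] (s : S) (u : Q4 P) : (s • u).c0 = s • u.c0 := rfl
@[simp] lemma smul_c1 {S : Type} [SMul S R] (s : S) (u : Q4 P) : (s • u).c1 = s • u.c1 := rfl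
@[simp] lemma smul_c2 {S : Type} [SMul S R] (s : S) (u : Q4 P) : (s • u).c2 = s • u.c2 := rfl
@[simp] lemma smul_c3 {S : Type} [SMul S R] (s : S) (u : Q4 P) : (s • u).c3 = s • u.c3 := rfl

instance : AddCommGroup (Q4 P) where
  add_assoc _ _ _ := by ext <;> simp [add_assoc]
  zero_add _ := by ext <;> simp
  add_zero _ := by ext <;> simp
  add_comm _ _ := by ext <;> simp [add_comm]
  neg_add_cancel _ := by ext <;> simp
  sub_eq_add_neg _ _ := by ext <;> simp [sub_eq_add_neg]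
  nsmul := (· • ·)
  zsmul := (· • ·)
  nsmul_zero _ := by ext <;> simp
  nsmul_succ _ _ := by ext <;> simp [add_mul]
  zsmul_zero' _ := by ext <;> simp
  zsmul_succ' _ _ := by ext <;> simp [add_mul]
  zsmul_neg' _ _ := by ext <;> simp [add_mul, Int.negSucc_eq]

instance : Ring (Q4 P) where
  mul_assoc _ _ _ := by ext <;> simp <;> ring
  one_mul _ := by ext <;> simp
  mul_one _ := by ext <;> simp
  left_distrib _ _ _ := by ext <;> simp <;> ring
  right_distrib _ _ _ := by ext <;> simp <;> ring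
  zero_mul _ := by ext <;> simp
  mul_zero _ := by ext <;> simp
  neg_add_cancel _ := by ext <;> simp

instance : Module k (Q4 P) where
  one_smul _ := by ext <;> simp
  mul_smul _ _ _ := by ext <;> simp [mul_smul]
  smul_zero _ := by ext <;> simp
  smul_add _ _ _ := by ext <;> simp
  add_smul _ _ _ := by ext <;> simp [add_smul]
  zero_smul _ := by ext <;> simp

instance : Algebra k (Q4 P) :=
  Algebra.ofModule (fun _ _ _ => by ext <;> simp [smul_sub])
    (fun _ _ _ => by ext <;> simp [smul_sub])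

/-- inclusion of the coefficient ring -/
def ι (P : Par k R) : R →ₐ[k] Q4 P where
  toFun r := ⟨r, 0, 0, 0⟩
  map_one' := rfl
  map_mul' _ _ := by ext <;> simp
  map_zero' := rfl
  map_add' _ _ := by ext <;> simp
  commutes' r := by
    ext <;> simp [Algebra.algebraMap_eq_smul_one]

@[simp] lemma ι_c0 (r : R) : (ι P r).c0 = r := rfl
@[simp] lemma ι_c1 (r : R) : (ι P r).c1 = 0 := rfl
@[simp] lemma ι_c2 (r : R) : (ι P r).c2 = 0 := rfl
@[simp] lemma ι_c3 (r : R) : (ι P r).c3 = 0 := rfl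

/-- the first generator -/
def X (P : Par k R) : Q4 P := ⟨0, 1, 0, 0⟩
/-- the second generator -/
def Y (P : Par k R) : Q4 P := ⟨0, 0, 1, 0⟩

@[simp] lemma X_c0 : (X P).c0 = 0 := rfl
@[simp] lemma X_c1 : (X P).c1 = 1 := rfl
@[simp] lemma X_c2 : (X P).c2 = 0 := rfl
@[simp] lemma X_c3 : (X P).c3 = 0 := rfl
@[simp] lemma Y_c0 : (Y P).c0 = 0 := rfl
@[simp] lemma Y_c1 : (Y P).c1 = 0 := rfl
@[simp] lemma Y_c2 : (Y P).c2 = 1 := rfl
@[simp] lemma Y_c3 : (Y P).c3 = 0 := rfl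

lemma decomp (u : Q4 P) :
    u = ι P u.c0 + ι P u.c1 * X P + ι P u.c2 * Y P + ι P u.c3 * (X P * Y P) := by
  ext <;> simp

lemma X_mul_ι (r : R) : X P * ι P r = ι P (P.σ r) * X P := by ext <;> simp
lemma Y_mul_ι (r : R) : Y P * ι P r = ι P (P.σ r) * Y P := by ext <;> simp
lemma X_mul_X : X P * X P = ι P P.a := by ext <;> simp
lemma Y_mul_Y : Y P * Y P = ι P P.b := by ext <;> simp
lemma Y_mul_X : Y P * X P = ι P P.c - X P * Y P := by ext <;> simp

variable {B : Type} [Ring B] [Algebra k B]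

/-- universal property -/
def lift (f : R →ₐ[k] B) (x y : B) (hx : ∀ r, x * f r = f (P.σ r) * x)
    (hy : ∀ r, y * f r = f (P.σ r) * y) (hxx : x * x = f P.a) (hyy : y * y = f P.b)
    (hyx : y * x = f P.c - x * y) :
    Q4 P →ₐ[k] B :=
  AlgHom.ofLinearMap
    { toFun := fun u => f u.c0 + f u.c1 * x + f u.c2 * y + f u.c3 * (x * y)
      map_add' := fun u v => by simp [add_mul]; abel
      map_smul' := fun c u => by simp }
    (by simp)
    (fun u v => by
      have hx' : ∀ r z, x * (f r * z) = f (P.σ r) * (x * z) := fun r z => by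
        rw [← mul_assoc, hx, mul_assoc]
      have hy' : ∀ r z, y * (f r * z) = f (P.σ r) * (y * z) := fun r z => by
        rw [← mul_assoc, hy, mul_assoc]
      have hxx' : ∀ z, x * (x * z) = f P.a * z := fun z => by rw [← mul_assoc, hxx]
      have hyx' : ∀ z, y * (x * z) = f P.c * z - x * (y * z) := fun z => by
        rw [← mul_assoc, hyx, sub_mul, mul_assoc]
      simp only [LinearMap.coe_mk, AddHom.coe_mk, mul_c0, mul_c1, mul_c2, mul_c3, map_add,
        map_sub, map_mul, add_mul, mul_add, sub_mul, mul_sub, mul_assoc, hx, hx', hy, hy', hxx,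
        hxx', hyy, hyx, hyx', Par.σσ, Par.σb, Par.σc]
      have hab : f P.b * f P.a = f P.a * f P.b := by rw [← map_mul, mul_comm, map_mul]
      rw [hab]
      abel)

lemma lift_apply (f : R →ₐ[k] B) (x y : B) (hx hy hxx hyy hyx) (u : Q4 P) :
    lift f x y hx hy hxx hyy hyx u = f u.c0 + f u.c1 * x + f u.c2 * y + f u.c3 * (x * y) := rfl

@[simp] lemma lift_ι (f : R →ₐ[k] B) (x y : B) (hx hy hxx hyy hyx) (r : R) :
    lift f x y hx hy hxx hyy hyx (ι P r) = f r := by simp [lift_apply]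

@[simp] lemma lift_X (f : R →ₐ[k] B) (x y : B) (hx hy hxx hyy hyx) :
    lift f x y hx hy hxx hyy hyx (X P) = x := by simp [lift_apply]

@[simp] lemma lift_Y (f : R →ₐ[k] B) (x y : B) (hx hy hxx hyy hyx) :
    lift f x y hx hy hxx hyy hyx (Y P) = y := by simp [lift_apply]

lemma hom_ext {φ ψ : Q4 P →ₐ[k] B} (h0 : φ.comp (ι P) = ψ.comp (ι P)) (h1 : φ (X P) = ψ (X P))
    (h2 : φ (Y P) = ψ (Y P)) : φ = ψ := by
  ext u
  have h : ∀ r, φ (ι P r) = ψ (ι P r) := fun r => DFunLike.congr_fun h0 r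
  rw [decomp u]
  simp only [map_add, map_mul, h, h1, h2]

/-- coordinates -/
def coord (P : Par k R) : Q4 P ≃ₗ[k] R × R × R × R where
  toFun u := (u.c0, u.c1, u.c2, u.c3)
  invFun p := ⟨p.1, p.2.1, p.2.2.1, p.2.2.2⟩
  map_add' _ _ := rfl
  map_smul' _ _ := rfl
  left_inv _ := rfl
  right_inv _ := rfl

end Q4

end

end Pool.Agent.MP_ae7646_al
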