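import Pool.Agent.MP_ae7646_al.Iso

/-! The four-component Hopf algebra over C × C factorizes through two copies of the
two-component Hopf algebra over C. -/

set_option autoImplicit false

open TensorProduct

namespace Pool.Agent.MP_ae7646_al

noncomputable section

variable {k C : Type} [Field k] [CommGroup C]

/-- the data on the product group -/
def Dat.sq (D : Dat k C) (l : k) : Dat k (C × C) where
  χ := D.χ.coprod D.χ
  g := (D.g, 1)
  h := (1, D.g)
  l := l
  χχ u := by
    simp only [MonoidHom.coprod_apply]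
    calc D.χ u.1 * D.χ u.2 * (D.χ u.1 * D.χ u.2) = (D.χ u.1 * D.χ u.1) * (D.χ u.2 * D.χ u.2) := by
          ring
      _ = 1 := by rw [D.χχ, D.χχ, one_mul]
  χg := by simp [D.χg]
  χh := by simp [D.χg]

/-- first inclusion -/
def incl1 (D : Dat k C) (l : k) : Q2 D.par →ₐ[k] Q4 (D.sq l).par :=
  Q2.lift' D ((Q4.T (D.sq l)).comp (MonoidHom.inl C C)) (Q4.X (D.sq l).par)
    (fun u => by
      rw [MonoidHom.comp_apply, Q4.X_mul_T]
      simp [Dat.sq])
    (by rw [Q4.XX]; rfl)

/-- second inclusion -/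
def incl2 (D : Dat k C) (l : k) : Q2 D.par →ₐ[k] Q4 (D.sq l).par :=
  Q2.lift' D ((Q4.T (D.sq l)).comp (MonoidHom.inr C C)) (Q4.Y (D.sq l).par)
    (fun u => by
      rw [MonoidHom.comp_apply, Q4.Y_mul_T]
      simp [Dat.sq])
    (by rw [Q4.YY]; rfl)

lemma incl1_T (D : Dat k C) (l : k) (u : C) :
    incl1 D l (Q2.T D u) = Q4.T (D.sq l) (u, 1) := by
  rw [incl1, Q2.lift'_T]; rfl
lemma incl1_X (D : Dat k C) (l : k) : incl1 D l (Q2.X D.par) = Q4.X (D.sq l).par := by
  rw [incl1, Q2.lift'_X]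
lemma incl2_T (D : Dat k C) (l : k) (u : C) :
    incl2 D l (Q2.T D u) = Q4.T (D.sq l) (1, u) := by
  rw [incl2, Q2.lift'_T]; rfl
lemma incl2_X (D : Dat k C) (l : k) : incl2 D l (Q2.X D.par) = Q4.Y (D.sq l).par := by
  rw [incl2, Q2.lift'_X]

/-- first inclusion as a bialgebra map -/
def bi1 (D : Dat k C) (l : k) : Q2 D.par →ₐc[k] Q4 (D.sq l).par :=
  BialgHom.ofAlgHom (incl1 D l)
    (Q2.hom_ext'
      (fun u => by simp [incl1_T, Q2.counit_eq, Q4.counit_eq])
      (by simp [incl1_X, Q2.counit_eq, Q4.counit_eq]))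
    (Q2.hom_ext'
      (fun u => by simp [incl1_T, Q2.comul_eq, Q4.comul_eq])
      (by simp [incl1_X, incl1_T, Q2.comul_eq, Q4.comul_eq]; rfl))

/-- second inclusion as a bialgebra map -/
def bi2 (D : Dat k C) (l : k) : Q2 D.par →ₐc[k] Q4 (D.sq l).par :=
  BialgHom.ofAlgHom (incl2 D l)
    (Q2.hom_ext'
      (fun u => by simp [incl2_T, Q2.counit_eq, Q4.counit_eq])
      (by simp [incl2_X, Q2.counit_eq, Q4.counit_eq]))
    (Q2.hom_ext'
      (fun u => by simp [incl2_T, Q2.comul_eq, Q4.comul_eq])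
      (by simp [incl2_X, incl2_T, Q2.comul_eq, Q4.comul_eq]; rfl))

/-- the multiplication map -/
def mm (D : Dat k C) (l : k) : Q2 D.par ⊗[k] Q2 D.par →ₗ[k] Q4 (D.sq l).par :=
  TensorProduct.lift (((LinearMap.mul k (Q4 (D.sq l).par)).comp (bi1 D l).toLinearMap).compl₂
    (bi2 D l).toLinearMap)

lemma mm_tmul (D : Dat k C) (l : k) (a b : Q2 D.par) :
    mm D l (a ⊗ₜ b) = incl1 D l a * incl2 D l b := rfl

lemma mm_surj (D : Dat k C) (l : k) : Function.Surjective (mm D l) := by
  rw [← LinearMap.range_eq_top, eq_top_iff]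
  have key : ∀ z : Q4 (D.sq l).par,
      (∀ u v : C, Q4.T (D.sq l) (u, v) * z ∈ LinearMap.range (mm D l)) →
      ∀ r, Q4.ι (D.sq l).par r * z ∈ LinearMap.range (mm D l) := by
    intro z hz r
    induction r using MonoidAlgebra.induction_on with
    | of u => exact hz u.1 u.2
    | add a b ha hb => rw [map_add, add_mul]; exact add_mem ha hb
    | smul c a ha => rw [map_smul, Algebra.smul_mul_assoc]; exact Submodule.smul_mem _ _ ha
  have hT : ∀ u v : C, Q4.T (D.sq l) (u, 1) * Q4.T (D.sq l) (1, v) = Q4.T (D.sq l) (u, v) := by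
    intro u v
    rw [← map_mul]; simp
  have hχ : ∀ v : C, (D.sq l).χ (1, v) * (D.sq l).χ (1, v) = 1 := fun v => (D.sq l).χχ _
  intro z _
  rw [Q4.decomp z, ← mul_one (Q4.ι (D.sq l).par z.c0)]
  refine add_mem (add_mem (add_mem (key _ ?_ _) (key _ ?_ _)) (key _ ?_ _)) (key _ ?_ _)
  · intro u v
    exact ⟨Q2.T D u ⊗ₜ Q2.T D v, by rw [mm_tmul, incl1_T, incl2_T, hT, mul_one]⟩
  · intro u v
    refine ⟨(D.sq l).χ (1, v) • ((Q2.T D u * Q2.X D.par) ⊗ₜ Q2.T D v), ?_⟩
    rw [map_smul, mm_tmul, map_mul, incl1_T, incl2_T, incl1_X, mul_assoc, Q4.X_mul_T,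
      Algebra.mul_smul_comm, smul_smul, hχ, one_smul, ← mul_assoc, hT]
  · intro u v
    refine ⟨Q2.T D u ⊗ₜ (Q2.T D v * Q2.X D.par), ?_⟩
    rw [mm_tmul, map_mul, incl1_T, incl2_T, incl2_X, ← mul_assoc, hT]
  · intro u v
    refine ⟨(D.sq l).χ (1, v) • ((Q2.T D u * Q2.X D.par) ⊗ₜ (Q2.T D v * Q2.X D.par)), ?_⟩
    rw [map_smul, mm_tmul, map_mul, map_mul, incl1_T, incl2_T, incl1_X, incl2_X, mul_assoc,
      ← mul_assoc (Q4.X _), Q4.X_mul_T, Algebra.smul_mul_assoc,
      Algebra.mul_smul_comm, smul_smul, hχ, one_smul, mul_assoc, ← mul_assoc, hT]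

instance finMA {G : Type} [Fintype G] : Module.Finite k (MonoidAlgebra k G) :=
  Module.Finite.of_basis (MonoidAlgebra.basis G k)

lemma finrank_MA {G : Type} [Fintype G] :
    Module.finrank k (MonoidAlgebra k G) = Fintype.card G :=
  Module.finrank_eq_card_basis (MonoidAlgebra.basis G k)

instance finQ2 [Fintype C] (D : Dat k C) : FiniteDimensional k (Q2 D.par) :=
  Module.Finite.equiv (Q2.coord D.par).symm

instance finQ4 [Fintype C] (D : Dat k C) : FiniteDimensional k (Q4 D.par) :=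
  Module.Finite.equiv (Q4.coord D.par).symm

lemma finrank_Q2 [Fintype C] (D : Dat k C) :
    Module.finrank k (Q2 D.par) = 2 * Fintype.card C := by
  rw [(Q2.coord D.par).finrank_eq, Module.finrank_prod, finrank_MA]; ring

lemma finrank_Q4 [Fintype C] (D : Dat k C) :
    Module.finrank k (Q4 D.par) = 4 * Fintype.card C := by
  rw [(Q4.coord D.par).finrank_eq, Module.finrank_prod, Module.finrank_prod, Module.finrank_prod,
    finrank_MA]; ring

lemma mm_bij [Fintype C] (D : Dat k C) (l : k) : Function.Bijective (mm D l) := by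
  refine ⟨(LinearMap.injective_iff_surjective_of_finrank_eq_finrank ?_).2 (mm_surj D l),
    mm_surj D l⟩
  rw [Module.finrank_tensorProduct, finrank_Q2, finrank_Q4, Fintype.card_prod]; ring

lemma bi1_inj [Fintype C] (D : Dat k C) (l : k) : Function.Injective (bi1 D l) := by
  intro a b h
  have h' : incl1 D l a = incl1 D l b := h
  have : mm D l (a ⊗ₜ 1) = mm D l (b ⊗ₜ 1) := by rw [mm_tmul, mm_tmul, h']
  exact Algebra.TensorProduct.includeLeft_injective (S := k)
    (Bialgebra.algebraMap_injective (R := k) (Q2 D.par)) ((mm_bij D l).1 this)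

lemma bi2_inj [Fintype C] (D : Dat k C) (l : k) : Function.Injective (bi2 D l) := by
  intro a b h
  have h' : incl2 D l a = incl2 D l b := h
  have : mm D l (1 ⊗ₜ a) = mm D l (1 ⊗ₜ b) := by rw [mm_tmul, mm_tmul, h']
  exact Algebra.TensorProduct.includeRight_injective
    (Bialgebra.algebraMap_injective (R := k) (Q2 D.par)) ((mm_bij D l).1 this)

/-- the sign character of the cyclic group of order four -/
def sgn4 : Multiplicative (ZMod 4) →* ℤ where
  toFun u := (-1) ^ (Multiplicative.toAdd u).val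
  map_one' := by decide
  map_mul' := by decide

/-- the data for the cyclic group of order four -/
def D4 (k : Type) [Field k] : Dat k (Multiplicative (ZMod 4)) where
  χ := (Int.castRingHom k).toMonoidHom.comp sgn4
  g := Multiplicative.ofAdd 1
  h := Multiplicative.ofAdd 1
  l := 0
  χχ u := by
    have : sgn4 u * sgn4 u = 1 := by revert u; decide
    change ((sgn4 u : ℤ) : k) * ((sgn4 u : ℤ) : k) = 1
    rw [← Int.cast_mul, this, Int.cast_one]
  χg := by
    have : sgn4 (Multiplicative.ofAdd 1) = -1 := by decide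
    change ((sgn4 (Multiplicative.ofAdd 1) : ℤ) : k) = -1
    rw [this]; simp
  χh := by
    have : sgn4 (Multiplicative.ofAdd 1) = -1 := by decide
    change ((sgn4 (Multiplicative.ofAdd 1) : ℤ) : k) = -1
    rw [this]; simp

theorem sq_eq_of_equiv4 (h2 : (2 : k) ≠ 0) (l l' : k)
    (φ : Q4 ((D4 k).sq l).par ≃ₐc[k] Q4 ((D4 k).sq l').par) : l * l = l' * l' := by
  have h1 : ((Multiplicative.ofAdd 1, 1) : Multiplicative (ZMod 4) × Multiplicative (ZMod 4)) ≠
      (1, Multiplicative.ofAdd 1) := by decide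
  have h3 : ((Multiplicative.ofAdd 1, 1) : Multiplicative (ZMod 4) × Multiplicative (ZMod 4)) *
      (Multiplicative.ofAdd 1, 1) ≠ 1 := by decide
  have h4 : ((1, Multiplicative.ofAdd 1) : Multiplicative (ZMod 4) × Multiplicative (ZMod 4)) *
      (1, Multiplicative.ofAdd 1) ≠ 1 := by decide
  have h5 : ((Multiplicative.ofAdd 1, 1) : Multiplicative (ZMod 4) × Multiplicative (ZMod 4)) *
      (1, Multiplicative.ofAdd 1) ≠ 1 := by decide
  exact Q4.sq_eq_of_equiv h2 (D := (D4 k).sq l) (D' := (D4 k).sq l') h1 h1 h3 h4 h5 φ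

end

end Pool.Agent.MP_ae7646_al
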