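import Pool.Agent.MP_ae7646_al.Basic

/-! Hopf algebra structures on the two rings over a group algebra. -/

set_option autoImplicit false

open TensorProduct

namespace Pool.Agent.MP_ae7646_al

noncomputable section

variable {k G : Type} [CommRing k] [CommGroup G]

/-- a quadratic character, two group elements on which it is -1, and a scalar -/
structure Dat (k G : Type) [CommRing k] [CommGroup G] where
  χ : G →* k
  g : G
  h : G
  l : k
  χχ : ∀ u, χ u * χ u = 1
  χg : χ g = -1
  χh : χ h = -1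

/-- group elements in the group algebra -/
abbrev e (k : Type) {G : Type} [CommRing k] [CommGroup G] : G →* MonoidAlgebra k G :=
  MonoidAlgebra.of k G

/-- twisting by a character -/
def sig (χ : G →* k) : MonoidAlgebra k G →ₐ[k] MonoidAlgebra k G :=
  MonoidAlgebra.lift k (MonoidAlgebra k G) G
    { toFun := fun u => χ u • e k u
      map_one' := by simp only [map_one, one_smul]
      map_mul' := fun u v => by
        simp only [map_mul, mul_smul, Algebra.mul_smul_comm, Algebra.smul_mul_assoc]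
        rw [smul_comm] }

lemma sig_e (χ : G →* k) (u : G) : sig χ (e k u) = χ u • e k u := by
  simp only [sig, MonoidAlgebra.lift_of]; rfl

lemma Dat.χinv (D : Dat k G) (u : G) : D.χ u⁻¹ = D.χ u := by
  have h1 : D.χ u⁻¹ * D.χ u = 1 := by rw [← map_mul, inv_mul_cancel, map_one]
  calc D.χ u⁻¹ = D.χ u⁻¹ * (D.χ u * D.χ u) := by rw [D.χχ, mul_one]
    _ = D.χ u := by rw [← mul_assoc, h1, one_mul]

/-- the ring data attached to D -/
def Dat.par (D : Dat k G) : Par k (MonoidAlgebra k G) where
  σ := sig D.χ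
  a := 1 - e k D.g * e k D.g
  b := 1 - e k D.h * e k D.h
  c := D.l • (1 - e k D.g * e k D.h)
  σσ r := by
    have : (sig D.χ).comp (sig D.χ) = AlgHom.id k _ := by
      apply MonoidAlgebra.algHom_ext'
      · ext1 u
        change sig D.χ (sig D.χ (e k u)) = e k u
        rw [sig_e, map_smul, sig_e, smul_smul, D.χχ, one_smul]
      · ext
    exact DFunLike.congr_fun this r
  σa := by simp [sig_e, D.χg, -MonoidAlgebra.of_apply]
  σb := by simp [sig_e, D.χh, -MonoidAlgebra.of_apply]
  σc := by simp [sig_e, D.χg, D.χh, -MonoidAlgebra.of_apply]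

lemma Dat.par_σ_e (D : Dat k G) (u : G) : D.par.σ (e k u) = D.χ u • e k u := sig_e _ _
lemma Dat.par_a (D : Dat k G) : D.par.a = 1 - e k D.g * e k D.g := rfl
lemma Dat.par_b (D : Dat k G) : D.par.b = 1 - e k D.h * e k D.h := rfl
lemma Dat.par_c (D : Dat k G) : D.par.c = D.l • (1 - e k D.g * e k D.h) := rfl

variable {B : Type} [Ring B] [Algebra k B]

lemma comm_lift (D : Dat k G) (τ : G →* B) (x : B) (hx : ∀ u, x * τ u = D.χ u • (τ u * x))
    (r : MonoidAlgebra k G) :
    x * MonoidAlgebra.lift k B G τ r = MonoidAlgebra.lift k B G τ (D.par.σ r) * x := by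
  induction r using MonoidAlgebra.induction_on with
  | of u =>
    rw [D.par_σ_e, map_smul, MonoidAlgebra.lift_of, hx, Algebra.smul_mul_assoc]
  | add a b ha hb => simp only [map_add, mul_add, add_mul, ha, hb]
  | smul c a ha => simp only [map_smul, Algebra.mul_smul_comm, Algebra.smul_mul_assoc, ha]

namespace Q2

variable {D : Dat k G}

/-- group-like elements -/
def T (D : Dat k G) : G →* Q2 D.par := (ι D.par).toMonoidHom.comp (e k)

lemma T_apply (u : G) : T D u = ι D.par (e k u) := rfl

lemma X_mul_T (u : G) : X D.par * T D u = D.χ u • (T D u * X D.par) := by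
  rw [T_apply, X_mul_ι, D.par_σ_e, map_smul, Algebra.smul_mul_assoc]

lemma XX : X D.par * X D.par = 1 - T D D.g * T D D.g := by
  rw [X_mul_X, D.par_a, map_sub, map_one, map_mul, T_apply]

lemma T_comm (u v : G) : T D u * T D v = T D v * T D u := by
  rw [← map_mul, mul_comm, map_mul]

/-- universal property in terms of the group -/
def lift' (D : Dat k G) (τ : G →* B) (x : B) (hx : ∀ u, x * τ u = D.χ u • (τ u * x))
    (hxx : x * x = 1 - τ D.g * τ D.g) : Q2 D.par →ₐ[k] B :=
  lift (MonoidAlgebra.lift k B G τ) x (comm_lift D τ x hx)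
    (by rw [hxx, D.par_a, map_sub, map_one, map_mul, MonoidAlgebra.lift_of])

@[simp] lemma lift'_T (τ : G →* B) (x : B) (hx hxx) (u : G) :
    lift' D τ x hx hxx (T D u) = τ u := by
  rw [lift', T_apply, lift_ι, MonoidAlgebra.lift_of]

@[simp] lemma lift'_X (τ : G →* B) (x : B) (hx hxx) :
    lift' D τ x hx hxx (X D.par) = x := by
  rw [lift', lift_X]

lemma hom_ext' {φ ψ : Q2 D.par →ₐ[k] B} (h0 : ∀ u, φ (T D u) = ψ (T D u))
    (h1 : φ (X D.par) = ψ (X D.par)) : φ = ψ := by
  refine hom_ext ?_ h1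
  apply MonoidAlgebra.algHom_ext'
  · ext1 u
    exact h0 u
  · ext

lemma induct {p : Q2 D.par → Prop} (hT : ∀ u, p (T D u)) (hX : p (X D.par))
    (hadd : ∀ a b, p a → p b → p (a + b)) (hmul : ∀ a b, p a → p b → p (a * b))
    (hsmul : ∀ (c : k) a, p a → p (c • a)) (b : Q2 D.par) : p b := by
  have hι : ∀ r, p (ι D.par r) := fun r => by
    induction r using MonoidAlgebra.induction_on with
    | of u => exact hT u
    | add a b ha hb => rw [map_add]; exact hadd _ _ ha hb
    | smul c a ha => rw [map_smul]; exact hsmul _ _ ha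
  rw [decomp b]
  exact hadd _ _ (hι _) (hmul _ _ (hι _) hX)

/-- diagonal on the group -/
def TT (D : Dat k G) : G →* Q2 D.par ⊗[k] Q2 D.par where
  toFun u := T D u ⊗ₜ T D u
  map_one' := by simp [Algebra.TensorProduct.one_def]
  map_mul' u v := by simp

lemma TT_apply (u : G) : TT D u = T D u ⊗ₜ T D u := rfl

/-- comultiplication -/
def comul (D : Dat k G) : Q2 D.par →ₐ[k] Q2 D.par ⊗[k] Q2 D.par :=
  lift' D (TT D) (X D.par ⊗ₜ 1 + T D D.g ⊗ₜ X D.par)
    (fun u => by
      simp only [TT_apply, add_mul, mul_add, Algebra.TensorProduct.tmul_mul_tmul, X_mul_T,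
        one_mul, mul_one, smul_add, T_comm u D.g, tmul_smul, smul_tmul'])
    (by
      simp only [TT_apply, add_mul, mul_add, Algebra.TensorProduct.tmul_mul_tmul, X_mul_T,
        one_mul, mul_one, XX, D.χg, neg_smul, one_smul, neg_tmul, sub_tmul, tmul_sub,
        Algebra.TensorProduct.one_def]
      abel)

/-- counit -/
def counit (D : Dat k G) : Q2 D.par →ₐ[k] k :=
  lift' D 1 0 (by simp) (by simp)

@[simp] lemma comul_T (u : G) : comul D (T D u) = T D u ⊗ₜ T D u := by
  rw [comul, lift'_T, TT_apply]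
@[simp] lemma comul_X : comul D (X D.par) = X D.par ⊗ₜ 1 + T D D.g ⊗ₜ X D.par := by
  rw [comul, lift'_X]
@[simp] lemma counit_T (u : G) : counit D (T D u) = 1 := by
  rw [counit, lift'_T]; rfl
@[simp] lemma counit_X : counit D (X D.par) = 0 := by
  rw [counit, lift'_X]

instance instBialgebra (D : Dat k G) : Bialgebra k (Q2 D.par) :=
  Bialgebra.ofAlgHom (comul D) (counit D)
    (hom_ext' (fun u => by simp)
      (by simp [Algebra.TensorProduct.one_def, add_tmul, tmul_add, add_assoc]))
    (hom_ext' (fun u => by simp) (by simp))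
    (hom_ext' (fun u => by simp) (by simp))

lemma comul_eq (b : Q2 D.par) : Coalgebra.comul (R := k) b = comul D b := rfl
lemma counit_eq (b : Q2 D.par) : Coalgebra.counit (R := k) b = counit D b := rfl

/-- inverse on the group, into the opposite ring -/
def Tinv (D : Dat k G) : G →* (Q2 D.par)ᵐᵒᵖ where
  toFun u := MulOpposite.op (T D u⁻¹)
  map_one' := by simp
  map_mul' u v := by simp [← MulOpposite.op_mul, ← map_mul, mul_comm]

lemma Tinv_apply (u : G) : Tinv D u = MulOpposite.op (T D u⁻¹) := rfl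

lemma T_inv_mul (u : G) : T D u⁻¹ * T D u = 1 := by rw [← map_mul, inv_mul_cancel, map_one]
lemma T_mul_inv (u : G) : T D u * T D u⁻¹ = 1 := by rw [← map_mul, mul_inv_cancel, map_one]

/-- antipode -/
def anti (D : Dat k G) : Q2 D.par →ₐ[k] (Q2 D.par)ᵐᵒᵖ :=
  lift' D (Tinv D) (MulOpposite.op (-(T D D.g⁻¹ * X D.par)))
    (fun u => by
      rw [Tinv_apply, ← MulOpposite.op_mul, ← MulOpposite.op_mul, ← MulOpposite.op_smul]
      congr 1
      simp only [neg_mul, mul_neg, mul_assoc, X_mul_T, D.χinv, Algebra.mul_smul_comm, smul_neg,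
        smul_smul, D.χχ, one_smul]
      rw [← mul_assoc, T_comm, mul_assoc])
    (by
      rw [Tinv_apply, ← MulOpposite.op_mul, ← MulOpposite.op_mul, ← MulOpposite.op_one,
        ← MulOpposite.op_sub]
      congr 1
      have h1 : X D.par * (T D D.g⁻¹ * X D.par) = -(T D D.g⁻¹ * (1 - T D D.g * T D D.g)) := by
        rw [← mul_assoc, X_mul_T, D.χinv, D.χg, neg_smul, one_smul, neg_mul, mul_assoc, XX]
      rw [neg_mul_neg, mul_assoc, h1, mul_sub, ← mul_assoc, T_inv_mul, one_mul, mul_one, neg_sub,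
        mul_sub, T_inv_mul])

lemma anti_T (u : G) : antiLin (anti D) (T D u) = T D u⁻¹ := by
  rw [antiLin_apply, anti, lift'_T, Tinv_apply, MulOpposite.unop_op]
lemma anti_X : antiLin (anti D) (X D.par) = -(T D D.g⁻¹ * X D.par) := by
  rw [antiLin_apply, anti, lift'_X, MulOpposite.unop_op]

instance instHopfAlgebra (D : Dat k G) : HopfAlgebra k (Q2 D.par) :=
  hopfOfGood (anti D) (induct
    (fun u => by
      constructor <;> simp [comul_eq, counit_eq, anti_T, T_inv_mul, T_mul_inv])
    (by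
      constructor <;>
        simp [comul_eq, counit_eq, anti_T, anti_X, antiLin_one, ← mul_assoc, T_mul_inv])
    (fun _ _ => Good.add) (fun _ _ => Good.mul) (fun c _ => Good.smul c))

end Q2

namespace Q4

variable {D : Dat k G}

/-- group-like elements -/
def T (D : Dat k G) : G →* Q4 D.par := (ι D.par).toMonoidHom.comp (e k)

lemma T_apply (u : G) : T D u = ι D.par (e k u) := rfl

lemma X_mul_T (u : G) : X D.par * T D u = D.χ u • (T D u * X D.par) := by
  rw [T_apply, X_mul_ι, D.par_σ_e, map_smul, Algebra.smul_mul_assoc]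

lemma Y_mul_T (u : G) : Y D.par * T D u = D.χ u • (T D u * Y D.par) := by
  rw [T_apply, Y_mul_ι, D.par_σ_e, map_smul, Algebra.smul_mul_assoc]

lemma XX : X D.par * X D.par = 1 - T D D.g * T D D.g := by
  rw [X_mul_X, D.par_a, map_sub, map_one, map_mul, T_apply]

lemma YY : Y D.par * Y D.par = 1 - T D D.h * T D D.h := by
  rw [Y_mul_Y, D.par_b, map_sub, map_one, map_mul, T_apply]

lemma YX : Y D.par * X D.par = D.l • (1 - T D D.g * T D D.h) - X D.par * Y D.par := by
  rw [Y_mul_X, D.par_c, map_smul, map_sub, map_one, map_mul, T_apply, T_apply]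

lemma T_comm (u v : G) : T D u * T D v = T D v * T D u := by
  rw [← map_mul, mul_comm, map_mul]

/-- universal property in terms of the group -/
def lift' (D : Dat k G) (τ : G →* B) (x y : B) (hx : ∀ u, x * τ u = D.χ u • (τ u * x))
    (hy : ∀ u, y * τ u = D.χ u • (τ u * y))
    (hxx : x * x = 1 - τ D.g * τ D.g) (hyy : y * y = 1 - τ D.h * τ D.h)
    (hyx : y * x = D.l • (1 - τ D.g * τ D.h) - x * y) : Q4 D.par →ₐ[k] B :=
  lift (MonoidAlgebra.lift k B G τ) x y (comm_lift D τ x hx) (comm_lift D τ y hy)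
    (by rw [hxx, D.par_a, map_sub, map_one, map_mul, MonoidAlgebra.lift_of])
    (by rw [hyy, D.par_b, map_sub, map_one, map_mul, MonoidAlgebra.lift_of])
    (by rw [hyx, D.par_c, map_smul, map_sub, map_one, map_mul, MonoidAlgebra.lift_of,
      MonoidAlgebra.lift_of])

@[simp] lemma lift'_T (τ : G →* B) (x y : B) (hx hy hxx hyy hyx) (u : G) :
    lift' D τ x y hx hy hxx hyy hyx (T D u) = τ u := by
  rw [lift', T_apply, lift_ι, MonoidAlgebra.lift_of]

@[simp] lemma lift'_X (τ : G →* B) (x y : B) (hx hy hxx hyy hyx) :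
    lift' D τ x y hx hy hxx hyy hyx (X D.par) = x := by
  rw [lift', lift_X]

@[simp] lemma lift'_Y (τ : G →* B) (x y : B) (hx hy hxx hyy hyx) :
    lift' D τ x y hx hy hxx hyy hyx (Y D.par) = y := by
  rw [lift', lift_Y]

lemma hom_ext' {φ ψ : Q4 D.par →ₐ[k] B} (h0 : ∀ u, φ (T D u) = ψ (T D u))
    (h1 : φ (X D.par) = ψ (X D.par)) (h2 : φ (Y D.par) = ψ (Y D.par)) : φ = ψ := by
  refine hom_ext ?_ h1 h2
  apply MonoidAlgebra.algHom_ext'
  · ext1 u
    exact h0 u
  · ext

lemma induct {p : Q4 D.par → Prop} (hT : ∀ u, p (T D u)) (hX : p (X D.par)) (hY : p (Y D.par))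
    (hadd : ∀ a b, p a → p b → p (a + b)) (hmul : ∀ a b, p a → p b → p (a * b))
    (hsmul : ∀ (c : k) a, p a → p (c • a)) (b : Q4 D.par) : p b := by
  have hι : ∀ r, p (ι D.par r) := fun r => by
    induction r using MonoidAlgebra.induction_on with
    | of u => exact hT u
    | add a b ha hb => rw [map_add]; exact hadd _ _ ha hb
    | smul c a ha => rw [map_smul]; exact hsmul _ _ ha
  rw [decomp b]
  exact hadd _ _ (hadd _ _ (hadd _ _ (hι _) (hmul _ _ (hι _) hX)) (hmul _ _ (hι _) hY))
    (hmul _ _ (hι _) (hmul _ _ hX hY))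

/-- diagonal on the group -/
def TT (D : Dat k G) : G →* Q4 D.par ⊗[k] Q4 D.par where
  toFun u := T D u ⊗ₜ T D u
  map_one' := by simp [Algebra.TensorProduct.one_def]
  map_mul' u v := by simp

lemma TT_apply (u : G) : TT D u = T D u ⊗ₜ T D u := rfl

/-- comultiplication -/
def comul (D : Dat k G) : Q4 D.par →ₐ[k] Q4 D.par ⊗[k] Q4 D.par :=
  lift' D (TT D) (X D.par ⊗ₜ 1 + T D D.g ⊗ₜ X D.par) (Y D.par ⊗ₜ 1 + T D D.h ⊗ₜ Y D.par)
    (fun u => by
      simp only [TT_apply, add_mul, mul_add, Algebra.TensorProduct.tmul_mul_tmul, X_mul_T,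
        one_mul, mul_one, smul_add, T_comm u D.g, tmul_smul, smul_tmul'])
    (fun u => by
      simp only [TT_apply, add_mul, mul_add, Algebra.TensorProduct.tmul_mul_tmul, Y_mul_T,
        one_mul, mul_one, smul_add, T_comm u D.h, tmul_smul, smul_tmul'])
    (by
      simp only [TT_apply, add_mul, mul_add, Algebra.TensorProduct.tmul_mul_tmul, X_mul_T,
        one_mul, mul_one, XX, D.χg, neg_smul, one_smul, neg_tmul, sub_tmul, tmul_sub,
        Algebra.TensorProduct.one_def]
      abel)
    (by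
      simp only [TT_apply, add_mul, mul_add, Algebra.TensorProduct.tmul_mul_tmul, Y_mul_T,
        one_mul, mul_one, YY, D.χh, neg_smul, one_smul, neg_tmul, sub_tmul, tmul_sub,
        Algebra.TensorProduct.one_def]
      abel)
    (by
      simp only [TT_apply, add_mul, mul_add, Algebra.TensorProduct.tmul_mul_tmul, X_mul_T,
        Y_mul_T, one_mul, mul_one, YX, D.χg, D.χh, neg_smul, one_smul, neg_tmul, sub_tmul,
        tmul_sub, Algebra.TensorProduct.one_def, smul_sub, tmul_smul, ← smul_tmul',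
        T_comm D.h D.g]
      abel)

/-- counit -/
def counit (D : Dat k G) : Q4 D.par →ₐ[k] k :=
  lift' D 1 0 0 (by simp) (by simp) (by simp) (by simp) (by simp)

@[simp] lemma comul_T (u : G) : comul D (T D u) = T D u ⊗ₜ T D u := by
  rw [comul, lift'_T, TT_apply]
@[simp] lemma comul_X : comul D (X D.par) = X D.par ⊗ₜ 1 + T D D.g ⊗ₜ X D.par := by
  rw [comul, lift'_X]
@[simp] lemma comul_Y : comul D (Y D.par) = Y D.par ⊗ₜ 1 + T D D.h ⊗ₜ Y D.par := by
  rw [comul, lift'_Y]
@[simp] lemma counit_T (u : G) : counit D (T D u) = 1 := by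
  rw [counit, lift'_T]; rfl
@[simp] lemma counit_X : counit D (X D.par) = 0 := by
  rw [counit, lift'_X]
@[simp] lemma counit_Y : counit D (Y D.par) = 0 := by
  rw [counit, lift'_Y]

instance instBialgebra (D : Dat k G) : Bialgebra k (Q4 D.par) :=
  Bialgebra.ofAlgHom (comul D) (counit D)
    (hom_ext' (fun u => by simp)
      (by simp [Algebra.TensorProduct.one_def, add_tmul, tmul_add, add_assoc])
      (by simp [Algebra.TensorProduct.one_def, add_tmul, tmul_add, add_assoc]))
    (hom_ext' (fun u => by simp) (by simp) (by simp))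
    (hom_ext' (fun u => by simp) (by simp) (by simp))

lemma comul_eq (b : Q4 D.par) : Coalgebra.comul (R := k) b = comul D b := rfl
lemma counit_eq (b : Q4 D.par) : Coalgebra.counit (R := k) b = counit D b := rfl

/-- inverse on the group, into the opposite ring -/
def Tinv (D : Dat k G) : G →* (Q4 D.par)ᵐᵒᵖ where
  toFun u := MulOpposite.op (T D u⁻¹)
  map_one' := by simp
  map_mul' u v := by simp [← MulOpposite.op_mul, ← map_mul, mul_comm]

lemma Tinv_apply (u : G) : Tinv D u = MulOpposite.op (T D u⁻¹) := rfl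

lemma T_inv_mul (u : G) : T D u⁻¹ * T D u = 1 := by rw [← map_mul, inv_mul_cancel, map_one]
lemma T_mul_inv (u : G) : T D u * T D u⁻¹ = 1 := by rw [← map_mul, mul_inv_cancel, map_one]

/-- antipode -/
def anti (D : Dat k G) : Q4 D.par →ₐ[k] (Q4 D.par)ᵐᵒᵖ :=
  lift' D (Tinv D) (MulOpposite.op (-(T D D.g⁻¹ * X D.par)))
    (MulOpposite.op (-(T D D.h⁻¹ * Y D.par)))
    (fun u => by
      rw [Tinv_apply, ← MulOpposite.op_mul, ← MulOpposite.op_mul, ← MulOpposite.op_smul]
      congr 1
      simp only [neg_mul, mul_neg, mul_assoc, X_mul_T, D.χinv, Algebra.mul_smul_comm, smul_neg,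
        smul_smul, D.χχ, one_smul]
      rw [← mul_assoc, T_comm, mul_assoc])
    (fun u => by
      rw [Tinv_apply, ← MulOpposite.op_mul, ← MulOpposite.op_mul, ← MulOpposite.op_smul]
      congr 1
      simp only [neg_mul, mul_neg, mul_assoc, Y_mul_T, D.χinv, Algebra.mul_smul_comm, smul_neg,
        smul_smul, D.χχ, one_smul]
      rw [← mul_assoc, T_comm, mul_assoc])
    (by
      rw [Tinv_apply, ← MulOpposite.op_mul, ← MulOpposite.op_mul, ← MulOpposite.op_one,
        ← MulOpposite.op_sub]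
      congr 1
      have h1 : X D.par * (T D D.g⁻¹ * X D.par) = -(T D D.g⁻¹ * (1 - T D D.g * T D D.g)) := by
        rw [← mul_assoc, X_mul_T, D.χinv, D.χg, neg_smul, one_smul, neg_mul, mul_assoc, XX]
      rw [neg_mul_neg, mul_assoc, h1, mul_sub, ← mul_assoc, T_inv_mul, one_mul, mul_one, neg_sub,
        mul_sub, T_inv_mul])
    (by
      rw [Tinv_apply, ← MulOpposite.op_mul, ← MulOpposite.op_mul, ← MulOpposite.op_one,
        ← MulOpposite.op_sub]
      congr 1
      have h1 : Y D.par * (T D D.h⁻¹ * Y D.par) = -(T D D.h⁻¹ * (1 - T D D.h * T D D.h)) := by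
        rw [← mul_assoc, Y_mul_T, D.χinv, D.χh, neg_smul, one_smul, neg_mul, mul_assoc, YY]
      rw [neg_mul_neg, mul_assoc, h1, mul_sub, ← mul_assoc, T_inv_mul, one_mul, mul_one, neg_sub,
        mul_sub, T_inv_mul])
    (by
      rw [Tinv_apply, Tinv_apply, ← MulOpposite.op_mul, ← MulOpposite.op_mul,
        ← MulOpposite.op_mul, ← MulOpposite.op_one, ← MulOpposite.op_sub, ← MulOpposite.op_smul,
        ← MulOpposite.op_sub]
      congr 1
      have h1 : X D.par * (T D D.h⁻¹ * Y D.par) = -(T D D.h⁻¹ * (X D.par * Y D.par)) := by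
        rw [← mul_assoc, X_mul_T, D.χinv, D.χh, neg_smul, one_smul, neg_mul, mul_assoc]
      have h2 : Y D.par * (T D D.g⁻¹ * X D.par) = -(T D D.g⁻¹ * (Y D.par * X D.par)) := by
        rw [← mul_assoc, Y_mul_T, D.χinv, D.χg, neg_smul, one_smul, neg_mul, mul_assoc]
      have h3 : T D D.h⁻¹ * (T D D.g⁻¹ * (T D D.g * T D D.h)) = 1 := by
        rw [← mul_assoc (T D D.g⁻¹), T_inv_mul, one_mul, T_inv_mul]
      have h4 : ∀ z, T D D.g⁻¹ * (T D D.h⁻¹ * z) = T D D.h⁻¹ * (T D D.g⁻¹ * z) := fun z => by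
        rw [← mul_assoc, T_comm, mul_assoc]
      rw [neg_mul_neg, neg_mul_neg, mul_assoc, mul_assoc, h1, h2, YX]
      simp only [mul_neg, mul_sub, Algebra.mul_smul_comm, mul_one, h3, h4, smul_sub]
      abel)

lemma anti_T (u : G) : antiLin (anti D) (T D u) = T D u⁻¹ := by
  rw [antiLin_apply, anti, lift'_T, Tinv_apply, MulOpposite.unop_op]
lemma anti_X : antiLin (anti D) (X D.par) = -(T D D.g⁻¹ * X D.par) := by
  rw [antiLin_apply, anti, lift'_X, MulOpposite.unop_op]
lemma anti_Y : antiLin (anti D) (Y D.par) = -(T D D.h⁻¹ * Y D.par) := by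
  rw [antiLin_apply, anti, lift'_Y, MulOpposite.unop_op]

instance instHopfAlgebra (D : Dat k G) : HopfAlgebra k (Q4 D.par) :=
  hopfOfGood (anti D) (induct
    (fun u => by
      constructor <;> simp [comul_eq, counit_eq, anti_T, T_inv_mul, T_mul_inv])
    (by
      constructor <;>
        simp [comul_eq, counit_eq, anti_T, anti_X, antiLin_one, ← mul_assoc, T_mul_inv])
    (by
      constructor <;>
        simp [comul_eq, counit_eq, anti_T, anti_Y, antiLin_one, ← mul_assoc, T_mul_inv])
    (fun _ _ => Good.add) (fun _ _ => Good.mul) (fun c _ => Good.smul c))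

end Q4

end

end Pool.Agent.MP_ae7646_al
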