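import Mathlib

section

/-! Finiteness of bicrossed products with an involutory factor: definitions and statements of
the steps. -/

set_option autoImplicit false

open TensorProduct Coalgebra HopfAlgebra Module
open scoped Kronecker

noncomputable section

namespace Pool.Agent.MP_ae7646_al.F

/-! ### Commutative algebra -/

/-- derivations see every element outside the ground field -/
def DER_st : Prop := ∀ (k K : Type) [Field k] [IsAlgClosed k] [CharZero k] [Field K] [Algebra k K]
  (a : K), a ∉ Set.range (algebraMap k K) → ∃ D : Derivation k K K, D a ≠ 0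

/-- linear disjointness from stability under derivations -/
def LD_st : Prop := ∀ (k K V J : Type) [Field k] [Field K] [Algebra k K] [AddCommGroup V]
  [Module K V] [Module k V] [IsScalarTower k K V] (c : J → V),
  (∀ a : K, a ∉ Set.range (algebraMap k K) → ∃ D : Derivation k K K, D a ≠ 0) →
  (∀ (D : Derivation k K K) (s : Finset J) (g : J → K), ∑ j ∈ s, g j • c j = 0 →
    ∑ j ∈ s, D (g j) • c j = 0) → LinearIndependent k c → LinearIndependent K c

/-- a generic part of the image of a dominant map of finite type -/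
def CHEV_st : Prop := ∀ (B S : Type) [CommRing B] [IsNoetherianRing B] [CommRing S] [Nontrivial S]
  [Algebra B S] [Algebra.FiniteType B S], Function.Injective (algebraMap B S) →
  ∃ b : B, ¬ IsNilpotent b ∧ ∀ r : Ideal B, r.IsPrime → b ∉ r →
    ∃ q : Ideal S, q.IsPrime ∧ q.comap (algebraMap B S) = r

/-- a point that is rational on a linearly disjoint subalgebra -/
def PT_st : Prop := ∀ (k K S : Type) [Field k] [IsAlgClosed k] [Field K] [IsAlgClosed K]
  [Algebra k K] [CommRing S] [Nontrivial S] [Algebra K S] [Algebra k S] [IsScalarTower k K S]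
  [Algebra.FiniteType K S] (C : Subalgebra k S), C.FG →
  (∀ (J : Type) (c : J → S), (∀ j, c j ∈ C) → LinearIndependent k c → LinearIndependent K c) →
  ∃ ψ : S →ₐ[K] K, ∀ c ∈ C, ψ c ∈ Set.range (algebraMap k K)

/-- the ultrapower -/
def GERM_st : Prop := ∀ (k : Type) [Field k] [IsAlgClosed k],
  ∃ (K : Type) (_ : Field K) (_ : Algebra k K) (π : (ℕ → k) →ₐ[k] K), IsAlgClosed K ∧
    Function.Surjective π ∧ ∀ f, π f = 0 ↔ ∀ᶠ n in (Filter.hyperfilter ℕ : Filter ℕ), f n = 0

/-- first order rigidity gives finiteness -/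
def FIN_st : Prop := ∀ (k : Type) [Field k] [IsAlgClosed k] [CharZero k] (N M L : Type) [Finite N]
  [Finite M] [Finite L]
  (F : ∀ (R : Type) [CommRing R] [Algebra k R], (N → R) → (N → R) → (M → R) → L → R)
  (Is : ∀ (R : Type) [CommRing R] [Algebra k R], (N → R) → (N → R) → Prop)
  (P : ∀ (R : Type) [CommRing R] [Algebra k R], (N → R) → Prop),
  (∀ (R R' : Type) [CommRing R] [Algebra k R] [CommRing R'] [Algebra k R'] (f : R →ₐ[k] R')
    (x y : N → R) (w : M → R) (l : L), f (F R x y w l) = F R' (f ∘ x) (f ∘ y) (f ∘ w) l) →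
  (∀ (R : Type) [CommRing R] [Algebra k R] (x y : N → R), Is R x y ↔ ∃ w, F R x y w = 0) →
  (∀ (R : Type) [CommRing R] [Algebra k R], Equivalence (Is R)) →
  (∀ (R R' : Type) [CommRing R] [Algebra k R] [CommRing R'] [Algebra k R'] (f : R →ₐ[k] R')
    (x : N → R), P R x → P R' (f ∘ x)) →
  (∀ s : ℕ → N → k, (∀ n, P k (s n)) → P (ℕ → k) fun a n => s n a) →
  (∀ (R : Type) [CommRing R] [Algebra k R] (t : R) (x ξ : N → R), t * t = 0 → P R x →
    P R (x + t • ξ) → Is R (x + t • ξ) x) →
  ∀ s : ℕ → N → k, (∀ n, P k (s n)) → ∃ m m', m ≠ m' ∧ Is k (s m) (s m')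

/-! ### Structure constants -/

/-- the constants that do not depend on the bicrossed product -/
structure Dat (k I J : Type) where
  e : J → J → k
  d : J → J → J → k
  T : I → Matrix (I × J) (I × J) k
  C : Matrix ((I × J) × (I × J)) (I × J) k

section Coord

variable {k I J : Type} [Field k] [Fintype I] [Fintype J] [DecidableEq I] [DecidableEq J]

/-- coefficients of the comultiplication applied to both legs of `e` -/
def tt (e : J → J → k) (d : J → J → J → k) (p₁ p₂ q₁ q₂ : J) : k :=
  ∑ p, ∑ q, e p q * d p p₁ p₂ * d q q₁ q₂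

/-- left multiplication by a basis vector of the second factor -/
def X {R : Type} (x : J × (I × J) × (I × J) → R) (j : J) : Matrix (I × J) (I × J) R :=
  Matrix.of fun p l => x (j, p, l)

/-- left multiplication by a basis vector -/
def lam (D : Dat k I J) {R : Type} [CommRing R] [Algebra k R] (x : J × (I × J) × (I × J) → R)
    (v : I × J) : Matrix (I × J) (I × J) R :=
  (D.T v.1).map (algebraMap k R) * X x v.2

/-- the identities used by the rigidity argument -/
structure Ax (D : Dat k I J) (R : Type) [CommRing R] [Algebra k R]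
    (x : J × (I × J) × (I × J) → R) : Prop where
  a1 : ∀ j v, X x j * lam D x v = ∑ l, X x j l v • lam D x l
  a2 : ∀ j, D.C.map (algebraMap k R) * X x j =
    (∑ p, ∑ q, D.d j p q • (X x p ⊗ₖ X x q)) * D.C.map (algebraMap k R)
  a3 : ∑ p, ∑ q, D.e p q • (X x p * X x q) = 1
  a4 : ∀ p₁ q₁, ∑ p₂, ∑ q₂, tt D.e D.d p₁ p₂ q₁ q₂ • (X x p₂ * X x q₂) =
    D.e p₁ q₁ • (1 : Matrix (I × J) (I × J) R)
  a5 : ∀ p₂ q₂, ∑ p₁, ∑ q₁, tt D.e D.d p₁ p₂ q₁ q₂ • (X x p₁ * X x q₁) =
    D.e p₂ q₂ • (1 : Matrix (I × J) (I × J) R)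
  a6 : ∀ v n, ∑ p, ∑ q, ∑ i, (D.e p q • X x q (i, n) v) • (X x p * (D.T i).map (algebraMap k R)) =
    ∑ p, D.e p n • (lam D x v * X x p)

/-- isomorphism of structure constants -/
def Iso (D : Dat k I J) (R : Type) [CommRing R] [Algebra k R]
    (x y : J × (I × J) × (I × J) → R) : Prop :=
  ∃ g g' : Matrix (I × J) (I × J) R, g * g' = 1 ∧ g' * g = 1 ∧
    (∀ v, g * lam D x v = (∑ z, g z v • lam D y z) * g) ∧
    D.C.map (algebraMap k R) * g = (g ⊗ₖ g) * D.C.map (algebraMap k R)

end Coord

/-- first order rigidity in coordinates -/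
def RIG_st : Prop := ∀ (k I J : Type) [Field k] [Fintype I] [Fintype J] [DecidableEq I]
  [DecidableEq J] (D : Dat k I J) (R : Type) [CommRing R] [Algebra k R] (t : R)
  (x ξ : J × (I × J) × (I × J) → R), t * t = 0 → Ax D R x → Ax D R (x + t • ξ) →
  Iso D R (x + t • ξ) x

/-- isomorphism is an equivalence relation given by natural equations -/
def EQV_st : Prop := ∀ (k I J : Type) [Field k] [Fintype I] [Fintype J] [DecidableEq I]
  [DecidableEq J] (D : Dat k I J),
  (∀ (R : Type) [CommRing R] [Algebra k R], Equivalence (Iso D R)) ∧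
  ∃ (M L : Type) (_ : Finite M) (_ : Finite L) (F : ∀ (R : Type) [CommRing R] [Algebra k R],
    (J × (I × J) × (I × J) → R) → (J × (I × J) × (I × J) → R) → (M → R) → L → R),
    (∀ (R R' : Type) [CommRing R] [Algebra k R] [CommRing R'] [Algebra k R'] (f : R →ₐ[k] R')
      x y w l, f (F R x y w l) = F R' (f ∘ x) (f ∘ y) (f ∘ w) l) ∧
    ∀ (R : Type) [CommRing R] [Algebra k R] x y, Iso D R x y ↔ ∃ w, F R x y w = 0

/-- the identities pass to quotients and products -/
def NAT_st : Prop := ∀ (k I J : Type) [Field k] [Fintype I] [Fintype J] [DecidableEq I]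
  [DecidableEq J] (D : Dat k I J),
  (∀ (R R' : Type) [CommRing R] [Algebra k R] [CommRing R'] [Algebra k R'] (f : R →ₐ[k] R') x,
    Ax D R x → Ax D R' (f ∘ x)) ∧
  ∀ s : ℕ → J × (I × J) × (I × J) → k, (∀ n, Ax D k (s n)) → Ax D (ℕ → k) fun a n => s n a

/-! ### Hopf algebras -/

/-- the multiplication map of two bialgebra maps -/
def mm {k A H E : Type} [Field k] [Ring A] [Bialgebra k A] [Ring H] [Bialgebra k H] [Ring E]
    [Bialgebra k E] (i : A →ₐc[k] E) (j : H →ₐc[k] E) : A ⊗[k] H →ₗ[k] E :=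
  TensorProduct.lift (((LinearMap.mul k E).comp i.toLinearMap).compl₂ j.toLinearMap)

theorem mm_tmul {k A H E : Type} [Field k] [Ring A] [Bialgebra k A] [Ring H] [Bialgebra k H]
    [Ring E] [Bialgebra k E] (i : A →ₐc[k] E) (j : H →ₐc[k] E) (a : A) (h : H) :
    mm i j (a ⊗ₜ h) = i a * j h := rfl

/-- the antipode reverses the comultiplication -/
def ANTI_st : Prop := ∀ (k H : Type) [Field k] [Ring H] [HopfAlgebra k H] (x : H),
  comul (R := k) (antipode k x) =
    TensorProduct.map (antipode k) (antipode k) (TensorProduct.comm k H H (comul x))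

/-- bialgebra maps commute with the antipodes -/
def NATS_st : Prop := ∀ (k H E : Type) [Field k] [Ring H] [HopfAlgebra k H] [Ring E]
  [HopfAlgebra k E] (j : H →ₐc[k] E) (h : H), j (antipode k h) = antipode k (j h)

/-- the antipode is onto in finite dimension -/
def ANT_st : Prop := ∀ (k H : Type) [Field k] [Ring H] [HopfAlgebra k H] [FiniteDimensional k H],
  Function.Surjective (antipode k : H →ₗ[k] H)

/-- the factors can be exchanged -/
def SWAP_st : Prop := ∀ (k A H E : Type) [Field k] [Ring A] [HopfAlgebra k A] [Ring H]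
  [HopfAlgebra k H] [Ring E] [HopfAlgebra k E] [FiniteDimensional k A] [FiniteDimensional k H]
  (i : A →ₐc[k] E) (j : H →ₐc[k] E), Function.Bijective (mm i j) → Function.Bijective (mm j i)

/-- `π` is a projection of `E` onto `H` that is compatible with the structure -/
structure Proj {k H E : Type} [Field k] [Ring H] [HopfAlgebra k H] [Ring E] [HopfAlgebra k E]
    (j : H →ₐc[k] E) (π : E →ₗ[k] H) : Prop where
  sec : ∀ h, π (j h) = h
  com : ∀ w, comul (R := k) (π w) = TensorProduct.map π π (comul w)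
  act : ∀ w u, π (j (π w) * u) = π (w * u)
  inv : ∀ w, π (antipode k (antipode k w)) = π w

/-- the invariant element -/
def LAM_st : Prop := ∀ (k H : Type) [Field k] [CharZero k] [Ring H] [HopfAlgebra k H]
  [FiniteDimensional k H], (∀ h : H, antipode k (antipode k h) = h) →
  ∃ Λ : H, counit (R := k) Λ = 1 ∧ TensorProduct.comm k H H (comul Λ) = comul Λ ∧
    ∀ (E : Type) [Ring E] [HopfAlgebra k E] (j : H →ₐc[k] E) (π : E →ₗ[k] H), Proj j π →
      ∀ u, π (j Λ * u) = counit (R := k) u • Λ

/-- the projection onto the second factor -/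
def PI_st : Prop := ∀ (k A H E : Type) [Field k] [Ring A] [HopfAlgebra k A] [Ring H]
  [HopfAlgebra k H] [Ring E] [HopfAlgebra k E] (i : A →ₐc[k] E) (j : H →ₐc[k] E),
  Function.Bijective (mm i j) → (∀ h : H, antipode k (antipode k h) = h) →
  ∃ π : E →ₗ[k] H, Proj j π ∧ ∀ a h, π (i a * j h) = counit (R := k) a • h

/-- separability of `E` over the first factor -/
def SEP_st : Prop := ∀ (k A H E : Type) [Field k] [Ring A] [HopfAlgebra k A] [Ring H]
  [HopfAlgebra k H] [Ring E] [HopfAlgebra k E] (i : A →ₐc[k] E) (j : H →ₐc[k] E) (π : E →ₗ[k] H)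
  (Λ : H) (α : E →ₗ[k] E), Function.Surjective (mm i j) →
  (∀ a h, π (i a * j h) = counit (R := k) a • h) → (∀ u, π (j Λ * u) = counit (R := k) u • Λ) →
  (∀ a y, α (i a * y) = i a * α y) → ∀ (v : E) (σ : Type) (r : Coalgebra.Repr k Λ σ),
    ∑ s ∈ r.index, j (antipode k (r.left s)) * α (j (r.right s) * v) =
      v * ∑ s ∈ r.index, j (antipode k (r.left s)) * α (j (r.right s))

/-- coordinates of `S(Λ₁) ⊗ Λ₂` -/
def ee {k H J : Type} [Field k] [Ring H] [HopfAlgebra k H] (b : Basis J k H) (Λ : H) (p q : J) : k :=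
  (b.tensorProduct b).repr ((antipode k).rTensor H (comul Λ)) (p, q)

/-- coordinates of the comultiplication -/
def dd {k H J : Type} [Field k] [Ring H] [Bialgebra k H] (b : Basis J k H) (n p q : J) : k :=
  (b.tensorProduct b).repr (comul (b n)) (p, q)

/-- identities inside the involutory factor -/
def HID_st : Prop := ∀ (k H J : Type) [Field k] [Ring H] [HopfAlgebra k H] [Fintype J]
  (b : Basis J k H) (Λ : H), (∀ h : H, antipode k (antipode k h) = h) → counit (R := k) Λ = 1 →
  TensorProduct.comm k H H (comul Λ) = comul Λ →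
  (∑ p, ∑ q, ee b Λ p q • (b p * b q) = 1) ∧
  (∀ p₁ q₁, ∑ p₂, ∑ q₂, tt (ee b Λ) (dd b) p₁ p₂ q₁ q₂ • (b p₂ * b q₂) = ee b Λ p₁ q₁ • (1 : H)) ∧
  ∀ p₂ q₂, ∑ p₁, ∑ q₁, tt (ee b Λ) (dd b) p₁ p₂ q₁ q₂ • (b p₁ * b q₁) = ee b Λ p₂ q₂ • (1 : H)

/-- the product basis; the constants do not depend on `E` -/
def BAS_st : Prop := ∀ (k A H I J : Type) [Field k] [Ring A] [HopfAlgebra k A] [Ring H]
  [HopfAlgebra k H] [Fintype I] [Fintype J] [DecidableEq I] [DecidableEq J] (bA : Basis I k A)
  (bH : Basis J k H), ∃ (T : I → Matrix (I × J) (I × J) k) (C : Matrix ((I × J) × (I × J)) (I × J) k),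
    ∀ (E : Type) [Ring E] [HopfAlgebra k E] (i : A →ₐc[k] E) (j : H →ₐc[k] E),
      Function.Bijective (mm i j) → ∃ b : Basis (I × J) k E,
        (∀ v, b v = i (bA v.1) * j (bH v.2)) ∧ (∀ n, T n = Algebra.leftMulMatrix b (i (bA n))) ∧
        ∀ q p, C q p = (b.tensorProduct b).repr (comul (b p)) q

/-- the structure constants of `E` -/
def xx {k H E I J : Type} [Field k] [Ring H] [Bialgebra k H] [Ring E] [Bialgebra k E] [Fintype I]
    [Fintype J] [DecidableEq I] [DecidableEq J] (j : H →ₐc[k] E) (bH : Basis J k H)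
    (b : Basis (I × J) k E) (a : J × (I × J) × (I × J)) : k :=
  Algebra.leftMulMatrix b (j (bH a.1)) a.2.1 a.2.2

/-- the structure constants satisfy the identities -/
def AXE_st : Prop := ∀ (k A H E I J : Type) [Field k] [Ring A] [HopfAlgebra k A] [Ring H]
  [HopfAlgebra k H] [Ring E] [HopfAlgebra k E] [Fintype I] [Fintype J] [DecidableEq I]
  [DecidableEq J] (bA : Basis I k A) (bH : Basis J k H) (i : A →ₐc[k] E) (j : H →ₐc[k] E)
  (b : Basis (I × J) k E) (Λ : H) (D : Dat k I J), D.e = ee bH Λ → D.d = dd bH →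
  (∀ v, b v = i (bA v.1) * j (bH v.2)) → (∀ n, D.T n = Algebra.leftMulMatrix b (i (bA n))) →
  (∀ q p, D.C q p = (b.tensorProduct b).repr (comul (b p)) q) →
  (∑ p, ∑ q, D.e p q • (bH p * bH q) = 1) →
  (∀ p₁ q₁, ∑ p₂, ∑ q₂, tt D.e D.d p₁ p₂ q₁ q₂ • (bH p₂ * bH q₂) = D.e p₁ q₁ • (1 : H)) →
  (∀ p₂ q₂, ∑ p₁, ∑ q₁, tt D.e D.d p₁ p₂ q₁ q₂ • (bH p₁ * bH q₁) = D.e p₂ q₂ • (1 : H)) →
  (∀ α : E →ₗ[k] E, (∀ a y, α (i a * y) = i a * α y) → ∀ (v : E) (σ : Type)
    (r : Coalgebra.Repr k Λ σ),
    ∑ s ∈ r.index, j (antipode k (r.left s)) * α (j (r.right s) * v) =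
      v * ∑ s ∈ r.index, j (antipode k (r.left s)) * α (j (r.right s))) →
  Ax D k (xx j bH b) ∧ ∀ v, lam D (xx j bH b) v = Algebra.leftMulMatrix b (b v)

/-- back from coordinates -/
def BRB_st : Prop := ∀ (k E E' I J : Type) [Field k] [Ring E] [Bialgebra k E] [Ring E']
  [Bialgebra k E'] [Fintype I] [Fintype J] [DecidableEq I] [DecidableEq J] (D : Dat k I J)
  (b : Basis (I × J) k E) (b' : Basis (I × J) k E') (x y : J × (I × J) × (I × J) → k),
  (∀ v, lam D x v = Algebra.leftMulMatrix b (b v)) →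
  (∀ v, lam D y v = Algebra.leftMulMatrix b' (b' v)) →
  (∀ q p, D.C q p = (b.tensorProduct b).repr (comul (b p)) q) →
  (∀ q p, D.C q p = (b'.tensorProduct b').repr (comul (b' p)) q) →
  Iso D k x y → Nonempty (E ≃ₐc[k] E')

end Pool.Agent.MP_ae7646_al.F

end

end

section

set_option autoImplicit false

open TensorProduct Coalgebra HopfAlgebra Module
open scoped Kronecker

noncomputable section

namespace Pool.Agent.MP_ae7646_al.F

theorem basis_DER {k K ι : Type} [Field k] [CharZero k] [Field K] [Algebra k K] {v : ι → K}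
    (hv : IsTranscendenceBasis k v) (i : ι) : ∃ D : Derivation k K K, D (v i) ≠ 0 := by
  classical
  let _ : Algebra (MvPolynomial ι k) K := (MvPolynomial.aeval v).toRingHom.toAlgebra
  have e : ∀ p, algebraMap (MvPolynomial ι k) K p = MvPolynomial.aeval v p := fun _ => rfl
  have : IsScalarTower k (MvPolynomial ι k) K :=
    IsScalarTower.of_algebraMap_eq fun x => by rw [e, AlgHom.commutes]
  have : FaithfulSMul (MvPolynomial ι k) K :=
    (faithfulSMul_iff_algebraMap_injective _ _).2 hv.1
  have := hv.isAlgebraic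
  have : Algebra.IsAlgebraic (MvPolynomial ι k) K :=
    Algebra.IsAlgebraic.ringHom_of_comp_eq
      (R := Algebra.adjoin k (Set.range v)) (A := K) hv.1.aevalEquiv.symm (RingHom.id K)
      hv.1.aevalEquiv.symm.injective Function.surjective_id (RingHom.ext fun x => by
        obtain ⟨p, rfl⟩ := hv.1.aevalEquiv.surjective x
        simp [e])
  let _ := FractionRing.liftAlgebra (MvPolynomial ι k) K
  have := FractionRing.isScalarTower_liftAlgebra (MvPolynomial ι k) K
  have : Algebra.IsAlgebraic (FractionRing (MvPolynomial ι k)) K :=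
    (IsFractionRing.comap_isAlgebraic_iff (A := MvPolynomial ι k)).1 inferInstance
  have : Algebra.FormallyEtale (MvPolynomial ι k) (FractionRing (MvPolynomial ι k)) :=
    Algebra.FormallyEtale.of_isLocalization (nonZeroDivisors _)
  have : Algebra.FormallyEtale (FractionRing (MvPolynomial ι k)) K :=
    Algebra.FormallyEtale.of_isSeparable _ K
  have : Algebra.FormallyEtale (MvPolynomial ι k) K :=
    Algebra.FormallyEtale.comp _ (FractionRing (MvPolynomial ι k)) _
  let δ : Derivation k (MvPolynomial ι k) K :=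
    (Algebra.linearMap (MvPolynomial ι k) K).compDer (MvPolynomial.pderiv i)
  let φ : Ω[K⁄k] →ₗ[K] K := (δ.liftKaehlerDifferential.liftBaseChange K).comp
    (KaehlerDifferential.tensorKaehlerEquivOfFormallyEtale k (MvPolynomial ι k) K).symm.toLinearMap
  refine ⟨φ.compDer (KaehlerDifferential.D k K), ?_⟩
  have h1 : v i = algebraMap (MvPolynomial ι k) K (MvPolynomial.X i) := by
    rw [e, MvPolynomial.aeval_X]
  have h2 : φ.compDer (KaehlerDifferential.D k K) (v i) = 1 := by
    show (δ.liftKaehlerDifferential.liftBaseChange K)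
      ((KaehlerDifferential.tensorKaehlerEquivOfFormallyEtale k (MvPolynomial ι k) K).symm
        (KaehlerDifferential.D k K (v i))) = 1
    rw [h1, KaehlerDifferential.tensorKaehlerEquivOfFormallyEtale_symm_D_algebraMap,
      LinearMap.liftBaseChange_tmul, one_smul, Derivation.liftKaehlerDifferential_comp_D]
    show algebraMap (MvPolynomial ι k) K (MvPolynomial.pderiv i (MvPolynomial.X i)) = 1
    rw [MvPolynomial.pderiv_X_self, map_one]
  rw [h2]
  exact one_ne_zero

theorem DER_pf : DER_st := by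
  intro k K _ _ _ _ _ a ha
  have ht : Transcendental k a := fun h => ha (minpoly.mem_range_of_degree_eq_one k a
    (IsAlgClosed.degree_eq_one_of_irreducible k (minpoly.irreducible h.isIntegral)))
  have hi : AlgebraicIndepOn k id ({a} : Set K) :=
    (algebraicIndependent_singleton_iff (⟨a, rfl⟩ : ({a} : Set K))).2 ht
  obtain ⟨t, h1, h2⟩ := exists_isTranscendenceBasis_superset hi
  exact basis_DER h2 ⟨a, h1 rfl⟩

end Pool.Agent.MP_ae7646_al.F

end

end

section

set_option autoImplicit false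

open TensorProduct Coalgebra HopfAlgebra Module
open scoped Kronecker

noncomputable section

namespace Pool.Agent.MP_ae7646_al.F

theorem GERM_pf : GERM_st := by
  intro k _ _
  let U : Ultrafilter ℕ := Filter.hyperfilter ℕ
  let K := Filter.Germ (U : Filter ℕ) k
  let _ : Field K := Filter.Germ.instField
  let ρ : (ℕ → k) →+* K := Filter.Germ.coeRingHom _
  let _ : Algebra k K := (ρ.comp (algebraMap k (ℕ → k))).toAlgebra
  have hs : Function.Surjective ρ := fun x => Filter.Germ.inductionOn x fun f => ⟨f, rfl⟩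
  refine ⟨K, inferInstance, inferInstance, { ρ with commutes' := fun _ => rfl }, ?_, hs,
    fun f => Filter.Germ.coe_eq⟩
  refine IsAlgClosed.of_exists_root K fun p hm hi => ?_
  obtain ⟨q, hq, hd, hqm⟩ := Polynomial.lifts_and_degree_eq_and_monic
    ((Polynomial.mem_lifts p).2 (Polynomial.map_surjective ρ hs p)) hm
  have h1 : ∀ n, ∃ x, (q.map (Pi.evalRingHom (fun _ : ℕ => k) n)).IsRoot x := fun n =>
    IsAlgClosed.exists_root _ (by
      rw [hqm.degree_map, hd]
      exact (Polynomial.degree_pos_of_irreducible hi).ne')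
  choose r hr using h1
  refine ⟨ρ r, ?_⟩
  have h2 : q.eval r = 0 := funext fun n => by
    have h3 := hr n
    rw [Polynomial.IsRoot, Polynomial.eval_map] at h3
    exact (Polynomial.eval₂_at_apply (Pi.evalRingHom (fun _ : ℕ => k) n) r).symm.trans h3
  rw [← hq, Polynomial.eval_map, Polynomial.eval₂_at_apply, h2, map_zero]

theorem LD_pf : LD_st := by
  classical
  intro k K V J _ _ _ _ _ _ _ c hD hst hli
  rw [linearIndependent_iff'] at hli ⊢
  intro s
  induction s using Finset.strongInduction with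
  | H s ih =>
    intro g hg j0 hj0
    by_contra hne
    let g' : J → K := fun j => (g j0)⁻¹ * g j
    have hg' : ∑ j ∈ s, g' j • c j = 0 := by
      simp only [g', mul_smul, ← Finset.smul_sum, hg, smul_zero]
    have h1 : g' j0 = 1 := inv_mul_cancel₀ hne
    have hz : ∀ D : Derivation k K K, ∀ j ∈ s, D (g' j) = 0 := by
      intro D j hj
      by_cases hjj : j = j0
      · rw [hjj, h1, D.map_one_eq_zero]
      · refine ih (s.erase j0) (Finset.erase_ssubset hj0) (fun j => D (g' j)) ?_ j
          (Finset.mem_erase.2 ⟨hjj, hj⟩)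
        have h2 := hst D s g' hg'
        rwa [← Finset.add_sum_erase s _ hj0, h1, D.map_one_eq_zero, zero_smul, zero_add] at h2
    have hr : ∀ j, ∃ a : k, j ∈ s → algebraMap k K a = g' j := fun j => by
      by_cases hj : j ∈ s
      · by_contra hc
        obtain ⟨D, h2⟩ := hD (g' j) fun ⟨a, ha⟩ => hc ⟨a, fun _ => ha⟩
        exact h2 (hz D j hj)
      · exact ⟨0, fun h => absurd h hj⟩
    choose a ha using hr
    have h3 := hli s a (by
      rw [← hg']
      exact Finset.sum_congr rfl fun j hj => by rw [← ha j hj, algebraMap_smul]) j0 hj0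
    have h4 := ha j0 hj0
    rw [h3, map_zero, h1] at h4
    exact zero_ne_one h4

end Pool.Agent.MP_ae7646_al.F

end

end

section

set_option autoImplicit false

open TensorProduct Coalgebra HopfAlgebra Module
open scoped Kronecker

noncomputable section

namespace Pool.Agent.MP_ae7646_al.F

lemma min_CHEV {B : Type} [CommRing B] {p : Ideal B} (hp : p ∈ minimalPrimes B) {x : B}
    (hx : x ∈ p) : ∃ u, u ∉ p ∧ ∃ n : ℕ, u * x ^ n = 0 := by
  have hp1 : p.IsPrime := hp.1.1
  by_contra hc
  push Not at hc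
  obtain ⟨q, hq, -, hd⟩ := Ideal.exists_le_prime_disjoint (⊥ : Ideal B)
    (p.primeCompl ⊔ Submonoid.powers x) (by
      rw [Set.disjoint_left]
      intro a ha ha'
      obtain ⟨u, hu, y, ⟨n, rfl⟩, e⟩ := Submonoid.mem_sup.1 ha'
      exact hc u hu n (e.trans (Ideal.mem_bot.1 ha)))
  rw [Set.disjoint_left] at hd
  have h1 : q ≤ p := fun a ha => by
    by_contra h
    exact hd ha (Submonoid.mem_sup_left (show a ∈ p.primeCompl from h))
  exact hd (hp.2 ⟨hq, bot_le⟩ h1 hx) (Submonoid.mem_sup_right (Submonoid.mem_powers x))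

theorem CHEV_pf : CHEV_st := by
  intro B S _ _ _ _ _ hft hinj
  have hfp : (algebraMap B S).FinitePresentation :=
    RingHom.finitePresentation_algebraMap.2 (Algebra.FinitePresentation.of_finiteType.1 hft)
  obtain ⟨D, hD⟩ := PrimeSpectrum.exists_constructibleSetData_iff.2
    (PrimeSpectrum.isConstructible_range_comap hfp)
  have hB : Nontrivial B := (algebraMap B S).domain_nontrivial
  obtain ⟨p, hp⟩ := Ideal.nonempty_minimalPrimes (I := (⊥ : Ideal B)) bot_ne_top
  have hp1 : p.IsPrime := hp.1.1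
  obtain ⟨p', hp', e⟩ := Ideal.exists_comap_eq_of_mem_minimalPrimes_of_injective hinj p hp
  have hm : (⟨p, hp1⟩ : PrimeSpectrum B) ∈ D.toSet := by
    rw [hD]
    exact ⟨⟨p', hp'⟩, PrimeSpectrum.ext e⟩
  obtain ⟨C, hC, h1, h2⟩ := Set.mem_iUnion₂.1 hm
  have hg : ∀ i, C.g i ∈ p := fun i => h1 ⟨i, rfl⟩
  have hf : C.f ∉ p := fun h => h2 (Set.singleton_subset_iff.2 h)
  choose u hu n hn using fun i => min_CHEV hp (hg i)
  have hb : C.f * ∏ i, u i ∉ p := fun h => by
    rcases hp1.mem_or_mem h with h | h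
    · exact hf h
    · obtain ⟨i, -, hi⟩ := Ideal.IsPrime.prod_mem_iff.1 h
      exact hu i hi
  refine ⟨C.f * ∏ i, u i, fun ⟨k, hk⟩ => hb (hp1.mem_of_pow_mem k (hk ▸ p.zero_mem)),
    fun r hr hbr => ?_⟩
  have hr' : (⟨r, hr⟩ : PrimeSpectrum B) ∈ D.toSet := by
    refine Set.mem_iUnion₂.2 ⟨C, hC, ?_, fun h => hbr (r.mul_mem_right _ (h rfl))⟩
    rintro _ ⟨i, rfl⟩
    rcases hr.mem_or_mem (show u i * C.g i ^ n i ∈ r from (hn i).symm ▸ r.zero_mem) with h | h
    · exact absurd (r.mul_mem_left _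
        (Ideal.IsPrime.prod_mem_iff.2 ⟨i, Finset.mem_univ _, h⟩)) hbr
    · exact hr.mem_of_pow_mem _ h
  rw [hD] at hr'
  obtain ⟨q, hq⟩ := hr'
  exact ⟨q.asIdeal, q.isPrime, congrArg PrimeSpectrum.asIdeal hq⟩

end Pool.Agent.MP_ae7646_al.F

end

end

section

set_option autoImplicit false

open TensorProduct Coalgebra HopfAlgebra Module
open scoped Kronecker

noncomputable section

namespace Pool.Agent.MP_ae7646_al.F

theorem point_PT (k A : Type) [Field k] [IsAlgClosed k] [CommRing A] [Algebra k A]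
    [Algebra.FiniteType k A] (m : Ideal A) (hm : m.IsMaximal) :
    ∃ χ : A →ₐ[k] k, ∀ a, χ a = 0 ↔ a ∈ m := by
  let _ : Field (A ⧸ m) := Ideal.Quotient.field m
  have : Module.Finite k (A ⧸ m) := finite_of_finite_type_of_isJacobsonRing k (A ⧸ m)
  have hb : Function.Bijective (algebraMap k (A ⧸ m)) :=
    IsAlgClosed.algebraMap_bijective_of_isIntegral
  let e : k ≃ₐ[k] (A ⧸ m) := AlgEquiv.ofBijective (Algebra.ofId k (A ⧸ m)) hb
  refine ⟨(e.symm : (A ⧸ m) →ₐ[k] k).comp (Ideal.Quotient.mkₐ k m), fun a => ?_⟩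
  rw [← Ideal.Quotient.eq_zero_iff_mem]
  exact map_eq_zero_iff e.symm e.symm.injective

theorem point_ne_PT (k A : Type) [Field k] [IsAlgClosed k] [CommRing A] [Algebra k A]
    [Algebra.FiniteType k A] (a : A) (ha : ¬ IsNilpotent a) : ∃ χ : A →ₐ[k] k, χ a ≠ 0 := by
  have hJ : IsJacobsonRing A := isJacobsonRing_of_finiteType (A := k)
  have h1 : a ∉ (Ideal.radical (⊥ : Ideal A)).jacobson := by
    rw [hJ.out (Ideal.radical_isRadical _)]
    exact fun h => ha (mem_nilradical.1 h)
  by_contra hcon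
  apply h1
  refine Ideal.mem_sInf.2 fun J hJ' => ?_
  obtain ⟨χ, hχ⟩ := point_PT k A J hJ'.2
  by_contra h2
  exact hcon ⟨χ, fun h => h2 ((hχ a).1 h)⟩

theorem inj_PT (k K S : Type) [Field k] [Field K] [Algebra k K] [CommRing S] [Algebra K S]
    [Algebra k S] [IsScalarTower k K S] (C : Subalgebra k S)
    (hC : ∀ (J : Type) (c : J → S), (∀ j, c j ∈ C) → LinearIndependent k c →
      LinearIndependent K c) (φ : K ⊗[k] C →ₐ[K] S) (hφ : ∀ c : C, φ (1 ⊗ₜ c) = c) :
    Function.Injective φ := by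
  let c := Module.Basis.ofVectorSpace k C
  have h1 : LinearIndependent k fun j => ((c j : C) : S) :=
    c.linearIndependent.map' C.val.toLinearMap
      (LinearMap.ker_eq_bot.2 Subtype.val_injective)
  have h2 := hC _ _ (fun j => (c j).2) h1
  refine LinearMap.injective_of_linearIndependent (f := φ.toLinearMap)
    (Algebra.TensorProduct.basis K c).span_eq ?_
  have e : φ.toLinearMap ∘ Algebra.TensorProduct.basis K c = fun j => ((c j : C) : S) := by
    funext j
    rw [Function.comp_apply, Algebra.TensorProduct.basis_apply]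
    exact hφ _
  rw [e]; exact h2

theorem ev_ne_PT (k K A : Type) [Field k] [IsAlgClosed k] [Field K] [Algebra k K] [CommRing A]
    [Algebra k A] [Algebra.FiniteType k A] (b : K ⊗[k] A) (hb : ¬ IsNilpotent b) :
    ∃ (χ : A →ₐ[k] k) (ev : K ⊗[k] A →ₐ[K] K), ev b ≠ 0 ∧
      ∀ a : A, ev (1 ⊗ₜ a) = algebraMap k K (χ a) := by
  let β := Module.Basis.ofVectorSpace k K
  obtain ⟨c, hc⟩ := TensorProduct.eq_repr_basis_left β b
  have h1 : ∃ i ∈ c.support, ¬ IsNilpotent (c i) := by
    by_contra hcon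
    apply hb
    rw [← hc]
    refine isNilpotent_sum fun i hi => ?_
    have h2 : IsNilpotent (c i) := by
      by_contra h3
      exact hcon ⟨i, hi, h3⟩
    have e : β i ⊗ₜ[k] c i = (β i ⊗ₜ[k] (1 : A)) * ((1 : K) ⊗ₜ[k] c i) := by
      rw [Algebra.TensorProduct.tmul_mul_tmul, mul_one, one_mul]
    show IsNilpotent (β i ⊗ₜ[k] c i)
    rw [e]
    exact (Commute.all _ _).isNilpotent_mul_left
      (h2.map (Algebra.TensorProduct.includeRight : A →ₐ[k] K ⊗[k] A))
  obtain ⟨i, hi, hn⟩ := h1
  obtain ⟨χ, hχ⟩ := point_ne_PT k A (c i) hn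
  let ev : K ⊗[k] A →ₐ[K] K := Algebra.TensorProduct.lift (AlgHom.id K K)
    ((Algebra.ofId k K).comp χ) fun _ _ => Commute.all _ _
  have hev : ∀ (x : K) (a : A), ev (x ⊗ₜ a) = χ a • x := fun x a => by
    simp only [ev, Algebra.TensorProduct.lift_tmul, AlgHom.id_apply, AlgHom.comp_apply,
      Algebra.ofId_apply]
    rw [mul_comm, Algebra.smul_def]
  refine ⟨χ, ev, fun h0 => hχ ?_, fun a => by rw [hev, Algebra.algebraMap_eq_smul_one]⟩
  rw [← hc, Finsupp.sum, map_sum] at h0
  simp only [hev] at h0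
  exact linearIndependent_iff'.1 β.linearIndependent c.support (fun j => χ (c j)) h0 i hi

theorem PT_pf (hC : CHEV_st) : PT_st := by
  intro k K S _ _ _ _ _ _ _ _ _ _ _ C hfg hli
  have : Algebra.FiniteType k C := (Subalgebra.fg_iff_finiteType C).1 hfg
  let φ : K ⊗[k] C →ₐ[K] S := Algebra.TensorProduct.lift (Algebra.ofId K S) C.val
    fun _ _ => Commute.all _ _
  have hφ : ∀ c : C, φ (1 ⊗ₜ c) = c := fun c => by
    simp only [φ, Algebra.TensorProduct.lift_tmul, map_one, one_mul]
    rfl
  have hinj := inj_PT k K S C hli φ hφ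
  have : IsNoetherianRing (K ⊗[k] C) := Algebra.FiniteType.isNoetherianRing K _
  let _ : Algebra (K ⊗[k] C) S := φ.toRingHom.toAlgebra
  have : IsScalarTower K (K ⊗[k] C) S :=
    IsScalarTower.of_algebraMap_eq fun x => (φ.commutes x).symm
  have : Algebra.FiniteType (K ⊗[k] C) S :=
    Algebra.FiniteType.of_restrictScalars_finiteType K (K ⊗[k] C) S
  obtain ⟨b, hb, hr⟩ := hC (K ⊗[k] C) S hinj
  obtain ⟨χ, ev, h1, h2⟩ := ev_ne_PT k K C b hb
  obtain ⟨q, hq, hq'⟩ := hr (RingHom.ker ev) (RingHom.ker_isPrime ev)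
    (fun h => h1 (RingHom.mem_ker.1 h))
  obtain ⟨n, hn, hqn⟩ := Ideal.exists_le_maximal q hq.ne_top
  obtain ⟨ψ, hψ⟩ := point_PT K S n hn
  refine ⟨ψ, fun c hc => ⟨χ ⟨c, hc⟩, ?_⟩⟩
  have h3 : (1 : K) ⊗ₜ[k] (⟨c, hc⟩ : C) -
      algebraMap K (K ⊗[k] C) (algebraMap k K (χ ⟨c, hc⟩)) ∈ RingHom.ker ev := by
    rw [RingHom.mem_ker, map_sub, h2, AlgHom.commutes]
    exact sub_self _
  rw [← hq', Ideal.mem_comap] at h3
  have h4 := (hψ _).2 (hqn h3)
  have e : algebraMap (K ⊗[k] C) S ((1 : K) ⊗ₜ[k] (⟨c, hc⟩ : C) -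
      algebraMap K (K ⊗[k] C) (algebraMap k K (χ ⟨c, hc⟩))) =
      c - algebraMap K S (algebraMap k K (χ ⟨c, hc⟩)) := by
    show φ _ = _
    rw [map_sub, hφ, AlgHom.commutes]
  rw [e, map_sub, AlgHom.commutes] at h4
  exact (sub_eq_zero.1 h4).symm

end Pool.Agent.MP_ae7646_al.F

end

end

section

set_option autoImplicit false

open TensorProduct Coalgebra HopfAlgebra Module
open scoped Kronecker

noncomputable section

namespace Pool.Agent.MP_ae7646_al.F

/-- the point of the dual numbers attached to a derivation -/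
def th_FIN {k K : Type} (S : Type) [Field k] [Field K] [Algebra k K] [CommRing S] [Algebra K S]
    [Algebra k S] [IsScalarTower k K S] (D : Derivation k K K) : K →ₐ[k] DualNumber S where
  toFun a := (algebraMap K S a, algebraMap K S (D a))
  map_one' := TrivSqZeroExt.ext (map_one _) (by simp)
  map_mul' a b := TrivSqZeroExt.ext (map_mul _ _ _) (by
    change algebraMap K S (D (a * b)) =
      algebraMap K S a * algebraMap K S (D b) + algebraMap K S (D a) * algebraMap K S b
    rw [D.leibniz, map_add, smul_eq_mul, smul_eq_mul, map_mul, map_mul, mul_comm (algebraMap K S b)])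
  map_zero' := TrivSqZeroExt.ext (map_zero _) (by simp)
  map_add' a b := TrivSqZeroExt.ext (map_add _ _ _) (by simp)
  commutes' c := TrivSqZeroExt.ext (IsScalarTower.algebraMap_apply k K S c).symm
    (by simp [TrivSqZeroExt.algebraMap_eq_inl'])

theorem th_fst_FIN {k K : Type} (S : Type) [Field k] [Field K] [Algebra k K] [CommRing S]
    [Algebra K S] [Algebra k S] [IsScalarTower k K S] (D : Derivation k K K) (a : K) :
    (th_FIN S D a).fst = algebraMap K S a := rfl

theorem th_snd_FIN {k K : Type} (S : Type) [Field k] [Field K] [Algebra k K] [CommRing S]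
    [Algebra K S] [Algebra k S] [IsScalarTower k K S] (D : Derivation k K K) (a : K) :
    (th_FIN S D a).snd = algebraMap K S (D a) := rfl

theorem uni_FIN {k K N M L : Type} [Field k] [Field K] [Algebra k K] [Finite N] [Finite M]
    (F : ∀ (R : Type) [CommRing R] [Algebra k R], (N → R) → (N → R) → (M → R) → L → R)
    (Is : ∀ (R : Type) [CommRing R] [Algebra k R], (N → R) → (N → R) → Prop)
    (hn : ∀ (R R' : Type) [CommRing R] [Algebra k R] [CommRing R'] [Algebra k R'] (f : R →ₐ[k] R')
      (x y : N → R) (w : M → R) (l : L), f (F R x y w l) = F R' (f ∘ x) (f ∘ y) (f ∘ w) l)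
    (hI : ∀ (R : Type) [CommRing R] [Algebra k R] (x y : N → R), Is R x y ↔ ∃ w, F R x y w = 0)
    (x : N → K) :
    ∃ (S : Type) (_ : CommRing S) (_ : Algebra K S) (_ : Algebra k S) (_ : IsScalarTower k K S)
      (y : N → S), Algebra.FiniteType K S ∧ Is S (algebraMap K S ∘ x) y ∧
      ∀ (R : Type) [CommRing R] [Algebra k R] (θ : K →ₐ[k] R) (z : N → R), Is R (θ ∘ x) z →
        ∃ Θ : S →ₐ[k] R, (∀ a, Θ (algebraMap K S a) = θ a) ∧ ∀ a, Θ (y a) = z a := by
  obtain ⟨I, hI0⟩ : ∃ I : Ideal (MvPolynomial (N ⊕ M) K), I = Ideal.span (Set.range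
      (F (MvPolynomial (N ⊕ M) K) (MvPolynomial.C ∘ x) (fun a => MvPolynomial.X (Sum.inl a))
        fun m => MvPolynomial.X (Sum.inr m))) := ⟨_, rfl⟩
  refine ⟨MvPolynomial (N ⊕ M) K ⧸ I, inferInstance, inferInstance, inferInstance, inferInstance,
    fun a => Ideal.Quotient.mk I (MvPolynomial.X (Sum.inl a)), inferInstance, ?_, ?_⟩
  · refine (hI _ _ _).2 ⟨fun m => Ideal.Quotient.mk I (MvPolynomial.X (Sum.inr m)),
      funext fun l => ?_⟩
    have := hn _ _ (Ideal.Quotient.mkₐ k I) (MvPolynomial.C ∘ x)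
      (fun a => MvPolynomial.X (Sum.inl a)) (fun m => MvPolynomial.X (Sum.inr m)) l
    refine Eq.trans this.symm ?_
    rw [Ideal.Quotient.mkₐ_eq_mk, Pi.zero_apply, Ideal.Quotient.eq_zero_iff_mem, hI0]
    exact Ideal.subset_span ⟨l, rfl⟩
  · intro R _ _ θ y h
    obtain ⟨w, hw⟩ := (hI R _ _).1 h
    refine ⟨Ideal.Quotient.liftₐ I (MvPolynomial.aevalTower θ (Sum.elim y w)) ?_, fun a => ?_,
      fun a => ?_⟩
    · intro f hf
      rw [hI0] at hf
      refine (Ideal.span_le (I := RingHom.ker (MvPolynomial.aevalTower θ (Sum.elim y w)))).2 ?_ hf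
      rintro _ ⟨l, rfl⟩
      have := congrFun hw l
      rw [SetLike.mem_coe, RingHom.mem_ker, hn]
      refine Eq.trans ?_ this
      congr 1 <;> funext a <;> simp
    · change MvPolynomial.aevalTower θ (Sum.elim y w) (MvPolynomial.C a) = θ a
      simp
    · change MvPolynomial.aevalTower θ (Sum.elim y w) (MvPolynomial.X (Sum.inl a)) = y a
      simp

theorem FIN_pf (hD : DER_st) (hL : LD_st) (hP : PT_st) (hG : GERM_st) : FIN_st := by
  intro k _ _ _ N M L _ _ _ F Is P hn hI hE hPn hPp hR s hs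
  have nat : ∀ (R R' : Type) [CommRing R] [Algebra k R] [CommRing R'] [Algebra k R']
      (f : R →ₐ[k] R') (x y : N → R), Is R x y → Is R' (f ∘ x) (f ∘ y) := by
    intro R R' _ _ _ _ f x y h
    obtain ⟨w, hw⟩ := (hI R x y).1 h
    exact (hI R' _ _).2 ⟨f ∘ w, funext fun l => by rw [← hn, hw]; simp⟩
  obtain ⟨K, _, _, π, hK, hπ, hU⟩ := hG k
  obtain ⟨x, hx⟩ : ∃ x : N → K, x = π ∘ fun a n => s n a := ⟨_, rfl⟩
  have hPx : P K x := hx ▸ hPn _ _ π _ (hPp s hs)
  obtain ⟨S, _, _, _, _, y, hft, hxy, huni⟩ := uni_FIN F Is hn hI x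
  have hnt : Nontrivial S := by
    obtain ⟨Θ, -, -⟩ := huni K (AlgHom.id k K) x ((hE K).refl x)
    exact Θ.toRingHom.domain_nontrivial
  have hΘ : ∀ D : Derivation k K K, ∃ Θ : S →ₐ[k] DualNumber S,
      (∀ a, Θ (algebraMap K S a) = th_FIN S D a) ∧
        ∀ c ∈ Algebra.adjoin k (Set.range y), Θ c = TrivSqZeroExt.inl c := by
    intro D
    have e : th_FIN S D ∘ x = th_FIN (k := k) S 0 ∘ x + (DualNumber.eps : DualNumber S) •
        fun a => TrivSqZeroExt.inl (algebraMap K S (D (x a))) := by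
      funext a
      ext <;> simp [th_fst_FIN, th_snd_FIN]
    have e0 : th_FIN (k := k) S 0 ∘ x = TrivSqZeroExt.inlAlgHom k S S ∘ (algebraMap K S ∘ x) := by
      funext a
      ext <;> simp [th_fst_FIN, th_snd_FIN]
    have h1 := hR (DualNumber S) DualNumber.eps (th_FIN (k := k) S 0 ∘ x) _ DualNumber.eps_mul_eps
      (hPn _ _ _ _ hPx) (e ▸ hPn _ _ (th_FIN S D) _ hPx)
    rw [← e, e0] at h1
    obtain ⟨Θ, h2, h3⟩ := huni _ (th_FIN S D) _
      ((hE _).trans h1 (nat _ _ (TrivSqZeroExt.inlAlgHom k S S) _ _ hxy))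
    refine ⟨Θ, h2, fun c hc => ?_⟩
    have : Algebra.adjoin k (Set.range y) ≤ AlgHom.equalizer Θ (TrivSqZeroExt.inlAlgHom k S S) := by
      rw [Algebra.adjoin_le_iff]
      rintro _ ⟨a, rfl⟩
      exact h3 a
    exact this hc
  obtain ⟨ψ, hψ⟩ := hP k K S (Algebra.adjoin k (Set.range y))
    (Subalgebra.fg_def.2 ⟨_, Set.finite_range y, rfl⟩) fun J c hc =>
      hL k K S J c (hD k K) fun D t g hg => by
        obtain ⟨Θ, h1, h2⟩ := hΘ D
        have := congrArg (fun z => (Θ z).snd) hg
        simp only [Algebra.smul_def, map_sum, map_mul, h1, h2 _ (hc _), TrivSqZeroExt.snd_sum,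
          map_zero, TrivSqZeroExt.snd_zero] at this ⊢
        simpa [th_fst_FIN, th_snd_FIN, mul_comm] using this
  choose y₀ hy₀ using fun a => hψ (y a) (Algebra.subset_adjoin ⟨a, rfl⟩)
  have h1 := nat _ _ (ψ.restrictScalars k) _ _ hxy
  have e1 : ψ.restrictScalars k ∘ algebraMap K S ∘ x = π ∘ fun a n => s n a := by
    funext a
    simp [hx]
  have e2 : ψ.restrictScalars k ∘ y = π ∘ fun a _ => y₀ a := by
    funext a
    exact (hy₀ a).symm.trans (π.commutes (y₀ a)).symm
  rw [e1, e2] at h1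
  obtain ⟨w, hw⟩ := (hI _ _ _).1 h1
  choose w' hw' using fun m => hπ (w m)
  have h2 : ∀ᶠ n in (Filter.hyperfilter ℕ : Filter ℕ), ∀ l,
      F (ℕ → k) (fun a n => s n a) (fun a _ => y₀ a) w' l n = 0 := by
    rw [Filter.eventually_all]
    intro l
    rw [← hU, hn, show π ∘ w' = w from funext hw', hw]
    rfl
  have h3 : ∀ᶠ n in (Filter.hyperfilter ℕ : Filter ℕ), Is k (s n) y₀ := h2.mono fun n h =>
    (hI _ _ _).2 ⟨Pi.evalAlgHom k (fun _ => k) n ∘ w', funext fun l =>
      (hn _ _ (Pi.evalAlgHom k (fun _ => k) n) _ _ _ l).symm.trans (h l)⟩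
  obtain ⟨m, hm⟩ := h3.exists
  obtain ⟨m', hm', hne⟩ := (h3.and (Filter.hyperfilter_le_cofinite
    (Set.finite_singleton m).compl_mem_cofinite)).exists
  exact ⟨m', m, hne, (hE k).trans hm' ((hE k).symm hm)⟩

end Pool.Agent.MP_ae7646_al.F

end

end

section

set_option autoImplicit false

open TensorProduct Coalgebra HopfAlgebra Module
open scoped Kronecker

noncomputable section

namespace Pool.Agent.MP_ae7646_al.F

theorem sum6_RIG {J M : Type} [Fintype J] [AddCommMonoid M] (f : J → J → J → J → J → J → M) :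
    ∑ p, ∑ q, ∑ a, ∑ b, ∑ c, ∑ d, f p q a b c d = ∑ a, ∑ c, ∑ b, ∑ d, ∑ p, ∑ q, f p q a b c d := by
  have := Fintype.sum_equiv
    (⟨fun x => (x.2.2.1, x.2.2.2.2.1, x.2.2.2.1, x.2.2.2.2.2, x.1, x.2.1),
      fun y => (y.2.2.2.2.1, y.2.2.2.2.2, y.1, y.2.2.1, y.2.1, y.2.2.2.1), fun _ => rfl,
      fun _ => rfl⟩ : J × J × J × J × J × J ≃ J × J × J × J × J × J)
    (fun x => f x.1 x.2.1 x.2.2.1 x.2.2.2.1 x.2.2.2.2.1 x.2.2.2.2.2)
    (fun y => f y.2.2.2.2.1 y.2.2.2.2.2 y.1 y.2.2.1 y.2.1 y.2.2.2.1) fun _ => rfl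
  simpa only [Fintype.sum_prod_type] using this

theorem sum4_RIG {α β γ δ M : Type} [Fintype α] [Fintype β] [Fintype γ] [Fintype δ]
    [AddCommMonoid M] (f : α → β → γ → δ → M) :
    ∑ a, ∑ b, ∑ c, ∑ d, f a b c d = ∑ d, ∑ a, ∑ b, ∑ c, f a b c d := by
  have := Fintype.sum_equiv
    (⟨fun x => (x.2.2.2, x.1, x.2.1, x.2.2.1), fun y => (y.2.1, y.2.2.1, y.2.2.2, y.1),
      fun _ => rfl, fun _ => rfl⟩ : α × β × γ × δ ≃ δ × α × β × γ)
    (fun x => f x.1 x.2.1 x.2.2.1 x.2.2.2) (fun y => f y.2.1 y.2.2.1 y.2.2.2 y.1) fun _ => rfl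
  simpa only [Fintype.sum_prod_type] using this

theorem sum4'_RIG {J M : Type} [Fintype J] [AddCommMonoid M] (f : J → J → J → J → M) :
    ∑ a, ∑ b, ∑ c, ∑ d, f a b c d = ∑ c, ∑ d, ∑ a, ∑ b, f a b c d := by
  rw [sum4_RIG, sum4_RIG]

theorem sum_kron_RIG {ι σ R : Type} [Fintype σ] [CommRing R] (f : σ → Matrix ι ι R)
    (B : Matrix ι ι R) : (∑ s, f s) ⊗ₖ B = ∑ s, f s ⊗ₖ B := by
  ext a b
  simp [Matrix.sum_apply, Finset.sum_mul]

theorem kron_sum_RIG {ι σ R : Type} [Fintype σ] [CommRing R] (f : σ → Matrix ι ι R)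
    (B : Matrix ι ι R) : B ⊗ₖ (∑ s, f s) = ∑ s, B ⊗ₖ f s := by
  ext a b
  simp [Matrix.sum_apply, Finset.mul_sum]

theorem RIG_pf : RIG_st := by
  intro k I J _ _ _ _ _ D R _ _ t x ξ ht h h'
  have hX : ∀ j, X (x + t • ξ) j = X x j + t • X ξ j := fun j => by
    ext p l
    simp [X]
  obtain ⟨ψ, hψ⟩ : ∃ ψ, ψ = ∑ p, ∑ q, D.e p q • (X x p * X ξ q) := ⟨_, rfl⟩
  have hg : ∑ p, ∑ q, D.e p q • (X x p * X (x + t • ξ) q) = 1 + t • ψ := by
    rw [← h.a3, hψ]
    simp only [hX, mul_add, smul_add, Finset.sum_add_distrib, Finset.smul_sum, mul_smul_comm,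
      smul_comm t]
  have tt0 : ∀ {α β : Type} (M : Matrix α β R), t • t • M = 0 := fun M => by
    rw [smul_smul, ht, zero_smul]
  have hl : ∀ l, t • lam D (x + t • ξ) l = t • lam D x l := fun l => by
    simp only [lam, hX, mul_add, smul_add, mul_smul_comm, tt0, add_zero]
  refine ⟨1 + t • ψ, 1 - t • ψ, ?_, ?_, fun v => ?_, ?_⟩
  · simp only [add_mul, mul_sub, one_mul, mul_one, mul_smul_comm, smul_mul_assoc, smul_add, tt0]
    abel
  · simp only [sub_mul, mul_add, one_mul, mul_one, mul_smul_comm, smul_mul_assoc, smul_sub, tt0]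
    abel
  · have p1 : ∑ p, ∑ q, D.e p q • (X x p * ∑ l, X x q l v • lam D (x + t • ξ) l) =
        lam D x v * (1 + t • ψ) := by
      have e : lam D x v * (1 + t • ψ) =
          ∑ n, (∑ p, D.e p n • (lam D x v * X x p)) * X (x + t • ξ) n := by
        rw [← hg, Finset.sum_comm]
        simp only [Finset.mul_sum, Finset.sum_mul, mul_smul_comm, smul_mul_assoc, mul_assoc]
      rw [e]
      simp only [← h.a6, Fintype.sum_prod_type, Finset.mul_sum, Finset.sum_mul, Finset.smul_sum,
        mul_smul_comm, smul_mul_assoc, smul_assoc, mul_assoc]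
      rw [sum4_RIG]
      rfl
    have p2 : ∑ p, ∑ q, D.e p q • (X x p * ∑ l, X ξ q l v • lam D x l) =
        ∑ z, ψ z v • lam D x z := by
      simp only [hψ, Finset.mul_sum, mul_smul_comm, h.a1, Finset.smul_sum, Matrix.sum_apply,
        Matrix.smul_apply, Matrix.mul_apply, Finset.sum_smul, smul_assoc]
      rw [sum4_RIG]
      simp only [smul_smul, mul_comm]
    have p3 : ∀ q, X (x + t • ξ) q * lam D (x + t • ξ) v =
        ∑ l, X x q l v • lam D (x + t • ξ) l + t • ∑ l, X ξ q l v • lam D x l := fun q => by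
      rw [h'.a1, Finset.smul_sum, ← Finset.sum_add_distrib]
      refine Finset.sum_congr rfl fun l _ => ?_
      rw [hX q, Matrix.add_apply, Matrix.smul_apply, add_smul, smul_assoc, smul_comm t, hl,
        smul_comm t]
    have p4 : ∑ z, (1 + t • ψ) z v • lam D x z = lam D x v + t • ∑ z, ψ z v • lam D x z := by
      simp only [Matrix.add_apply, Matrix.smul_apply, add_smul, smul_assoc, Finset.sum_add_distrib,
        Finset.smul_sum, Matrix.one_apply, ite_smul, one_smul, zero_smul, Finset.sum_ite_eq',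
        Finset.mem_univ, if_true]
    have p5 : (t • ∑ z, ψ z v • lam D x z) * (1 + t • ψ) = t • ∑ z, ψ z v • lam D x z := by
      rw [mul_add, mul_one, smul_mul_assoc, mul_smul_comm, tt0, add_zero]
    rw [p4, add_mul (lam D x v), p5, ← p1, ← p2, ← hg]
    simp only [Finset.sum_mul, smul_mul_assoc, mul_assoc, p3, mul_add, smul_add,
      Finset.sum_add_distrib, mul_smul_comm]
    simp only [smul_comm _ t, ← Finset.smul_sum]
  · have q1 : D.C.map (algebraMap k R) * (1 + t • ψ) =
        (∑ a, ∑ c, ∑ b, ∑ d, tt D.e D.d a b c d •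
          ((X x a * X (x + t • ξ) c) ⊗ₖ (X x b * X (x + t • ξ) d))) * D.C.map (algebraMap k R) := by
      have e : ∀ p q, D.C.map (algebraMap k R) * (X x p * X (x + t • ξ) q) =
          ((∑ a, ∑ b, D.d p a b • (X x a ⊗ₖ X x b)) *
            ∑ c, ∑ d, D.d q c d • (X (x + t • ξ) c ⊗ₖ X (x + t • ξ) d)) *
              D.C.map (algebraMap k R) := fun p q => by
        rw [← Matrix.mul_assoc, h.a2, Matrix.mul_assoc, h'.a2, ← Matrix.mul_assoc]
      have e2 : ∀ p q, (∑ a, ∑ b, D.d p a b • (X x a ⊗ₖ X x b)) *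
          ∑ c, ∑ d, D.d q c d • (X (x + t • ξ) c ⊗ₖ X (x + t • ξ) d) =
          ∑ a, ∑ b, ∑ c, ∑ d, (D.d p a b * D.d q c d) •
            ((X x a * X (x + t • ξ) c) ⊗ₖ (X x b * X (x + t • ξ) d)) := fun p q => by
        simp only [Finset.sum_mul]
        simp only [Finset.mul_sum, smul_mul_assoc, mul_smul_comm, smul_smul,
          Matrix.mul_kronecker_mul, mul_comm (D.d q _ _)]
      rw [← hg]
      simp only [Matrix.mul_sum, Matrix.mul_smul]
      simp only [e, e2]
      simp only [← Matrix.smul_mul, ← Matrix.sum_mul]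
      congr 1
      simp only [tt, Finset.sum_smul]
      rw [← sum6_RIG]
      simp only [Finset.smul_sum, smul_smul, mul_assoc]
    have q2 : ∀ a b c d, (X x a * X (x + t • ξ) c) ⊗ₖ (X x b * X (x + t • ξ) d) =
        (X x a * X (x + t • ξ) c) ⊗ₖ (X x b * X x d) +
          t • ((X x a * X x c) ⊗ₖ (X x b * X ξ d)) := fun a b c d => by
      simp only [hX, mul_add, mul_smul_comm, Matrix.kronecker_add, Matrix.add_kronecker,
        Matrix.kronecker_smul, Matrix.smul_kronecker, smul_add, tt0, add_zero]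
    have q3 : ∑ a, ∑ c, ∑ b, ∑ d, tt D.e D.d a b c d •
        ((X x a * X (x + t • ξ) c) ⊗ₖ (X x b * X x d)) =
        (1 + t • ψ) ⊗ₖ (1 : Matrix (I × J) (I × J) R) := by
      rw [← hg]
      simp only [← Matrix.kronecker_smul, ← kron_sum_RIG, h.a4, sum_kron_RIG]
      simp only [Matrix.kronecker_smul, Matrix.smul_kronecker]
    have q4 : ∑ a, ∑ c, ∑ b, ∑ d, tt D.e D.d a b c d • ((X x a * X x c) ⊗ₖ (X x b * X ξ d)) =
        (1 : Matrix (I × J) (I × J) R) ⊗ₖ ψ := by
      rw [hψ, sum4'_RIG]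
      simp only [← Matrix.smul_kronecker, ← sum_kron_RIG, h.a5, kron_sum_RIG]
      simp only [Matrix.kronecker_smul, Matrix.smul_kronecker]
    rw [q1]
    congr 1
    simp only [q2, smul_add, Finset.sum_add_distrib, smul_comm _ t, ← Finset.smul_sum, q3, q4]
    simp only [Matrix.kronecker_add, Matrix.add_kronecker, Matrix.kronecker_smul,
      Matrix.smul_kronecker, smul_add, tt0, add_zero]

end Pool.Agent.MP_ae7646_al.F

end

end

section

/-! Isomorphism of structure constants is an equivalence relation given by natural equations. -/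

set_option autoImplicit false

open TensorProduct Coalgebra HopfAlgebra Module
open scoped Kronecker

noncomputable section

namespace Pool.Agent.MP_ae7646_al.F

section

variable {V R : Type} [Fintype V] [CommRing R]

theorem comp_EQV (g h : Matrix V V R) (L : V → Matrix V V R) (y : V) :
    ∑ v, h v y • ∑ z, g z v • L z = ∑ z, (g * h) z y • L z := by
  simp only [Finset.smul_sum, smul_smul, Matrix.mul_apply, Finset.sum_smul]
  rw [Finset.sum_comm]
  simp only [mul_comm]

theorem one_EQV [DecidableEq V] (L : V → Matrix V V R) (y : V) :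
    ∑ z, (1 : Matrix V V R) z y • L z = L y := by
  simp [Matrix.one_apply]

theorem lin_EQV {g : Matrix V V R} {A B : V → Matrix V V R} (c : V → R)
    (h : ∀ v, g * A v = (∑ z, g z v • B z) * g) :
    g * ∑ v, c v • A v = (∑ v, c v • ∑ z, g z v • B z) * g := by
  rw [Matrix.mul_sum, Matrix.sum_mul]
  exact Finset.sum_congr rfl fun v _ => by rw [Matrix.mul_smul, h, Matrix.smul_mul]

end

section

variable {k I J : Type} [Field k] [Fintype I] [Fintype J] [DecidableEq I] [DecidableEq J]

theorem equiv_EQV (D : Dat k I J) (R : Type) [CommRing R] [Algebra k R] :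
    Equivalence (Iso D R) := by
  refine ⟨fun x => ⟨1, 1, mul_one _, mul_one _, fun v => ?_, ?_⟩, ?_, ?_⟩
  · rw [one_EQV, mul_one, one_mul]
  · rw [Matrix.one_kronecker_one, Matrix.mul_one, Matrix.one_mul]
  · rintro x y ⟨g, g', h1, h2, h3, h4⟩
    refine ⟨g', g, h2, h1, fun v => ?_, ?_⟩
    · have h5 := lin_EQV (fun z => g' z v) h3
      rw [comp_EQV, h1, one_EQV] at h5
      calc g' * lam D y v = g' * (lam D y v * g) * g' := by
            rw [mul_assoc, mul_assoc, h1, mul_one]
        _ = _ := by rw [← h5, ← mul_assoc, h2, one_mul]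
    · calc D.C.map (algebraMap k R) * g'
          = (g' ⊗ₖ g') * ((g ⊗ₖ g) * D.C.map (algebraMap k R)) * g' := by
            rw [← Matrix.mul_assoc, ← Matrix.mul_kronecker_mul, h2, Matrix.one_kronecker_one,
              Matrix.one_mul]
        _ = _ := by rw [← h4, Matrix.mul_assoc, Matrix.mul_assoc, h1, Matrix.mul_one]
  · rintro x y z ⟨g, g', h1, h2, h3, h4⟩ ⟨h, h', k1, k2, k3, k4⟩
    refine ⟨h * g, g' * h', ?_, ?_, fun v => ?_, ?_⟩
    · rw [mul_assoc, ← mul_assoc g, h1, one_mul, k1]
    · rw [mul_assoc, ← mul_assoc h', k2, one_mul, h2]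
    · rw [mul_assoc, h3, ← mul_assoc, lin_EQV _ k3, comp_EQV, mul_assoc]
    · rw [← Matrix.mul_assoc, k4, Matrix.mul_assoc, h4, Matrix.mul_kronecker_mul, Matrix.mul_assoc]

/-- the two matrices -/
def gm_EQV {V R : Type} (w : Bool × V × V → R) (b : Bool) : Matrix V V R :=
  Matrix.of fun p l => w (b, p, l)

/-- the equations -/
def eqs_EQV (D : Dat k I J) (R : Type) [CommRing R] [Algebra k R]
    (x y : J × (I × J) × (I × J) → R) (w : Bool × (I × J) × (I × J) → R) :
    (((I × J) × (I × J)) ⊕ ((I × J) × (I × J))) ⊕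
      (((I × J) × (I × J) × (I × J)) ⊕ (((I × J) × (I × J)) × (I × J))) → R
  | .inl (.inl a) => (gm_EQV w true * gm_EQV w false - 1 : Matrix _ _ R) a.1 a.2
  | .inl (.inr a) => (gm_EQV w false * gm_EQV w true - 1 : Matrix _ _ R) a.1 a.2
  | .inr (.inl a) => (gm_EQV w true * lam D x a.1 -
      (∑ z, gm_EQV w true z a.1 • lam D y z) * gm_EQV w true : Matrix _ _ R) a.2.1 a.2.2
  | .inr (.inr a) => (D.C.map (algebraMap k R) * gm_EQV w true -
      (gm_EQV w true ⊗ₖ gm_EQV w true) * D.C.map (algebraMap k R) : Matrix _ _ R) a.1 a.2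

end

theorem EQV_pf : EQV_st := by
  intro k I J _ _ _ _ _ D
  refine ⟨equiv_EQV D, _, _, inferInstance, inferInstance, eqs_EQV D, ?_, ?_⟩
  · intro R R' _ _ _ _ f x y w l
    rcases l with (a | a) | a | a <;>
      simp [eqs_EQV, gm_EQV, Matrix.mul_apply, lam, X, map_sum, Matrix.sum_apply, Matrix.one_apply,
        apply_ite f]
  · intro R _ _ x y
    constructor
    · rintro ⟨g, g', h1, h2, h3, h4⟩
      refine ⟨fun a => (if a.1 then g else g') a.2.1 a.2.2, ?_⟩
      have e1 : gm_EQV (fun a : Bool × (I × J) × (I × J) =>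
        (if a.1 then g else g') a.2.1 a.2.2) true = g := rfl
      have e2 : gm_EQV (fun a : Bool × (I × J) × (I × J) =>
        (if a.1 then g else g') a.2.1 a.2.2) false = g' := rfl
      funext l
      rcases l with (a | a) | a | a <;>
        simp only [eqs_EQV, e1, e2, h1, h2, h3, h4, sub_self, Matrix.zero_apply, Pi.zero_apply]
    · rintro ⟨w, hw⟩
      refine ⟨gm_EQV w true, gm_EQV w false, sub_eq_zero.mp ?_, sub_eq_zero.mp ?_,
        fun v => sub_eq_zero.mp ?_, sub_eq_zero.mp ?_⟩
      · exact Matrix.ext fun p l => congrFun hw (.inl (.inl (p, l)))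
      · exact Matrix.ext fun p l => congrFun hw (.inl (.inr (p, l)))
      · exact Matrix.ext fun p l => congrFun hw (.inr (.inl (v, p, l)))
      · exact Matrix.ext fun p l => congrFun hw (.inr (.inr (p, l)))

end Pool.Agent.MP_ae7646_al.F

end

end

section

/-! The identities pass to quotients and products. -/

set_option autoImplicit false
set_option linter.all false

open TensorProduct Coalgebra HopfAlgebra Module
open scoped Kronecker

noncomputable section

namespace Pool.Agent.MP_ae7646_al.F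

section

variable {k I J : Type} [Field k] [Fintype I] [Fintype J] [DecidableEq I] [DecidableEq J]
  (D : Dat k I J) {R R' : Type} [CommRing R] [Algebra k R] [CommRing R'] [Algebra k R']
  (f : R →ₐ[k] R') (x : J × (I × J) × (I × J) → R)

theorem m1_NAT (j : J) (v : I × J) : (X x j * lam D x v - ∑ l, X x j l v • lam D x l).map f =
    X (f ∘ x) j * lam D (f ∘ x) v - ∑ l, X (f ∘ x) j l v • lam D (f ∘ x) l := by
  ext a b
  simp [Matrix.mul_apply, Matrix.sum_apply, X, lam]

theorem m2_NAT (j : J) : (D.C.map (algebraMap k R) * X x j -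
    (∑ p, ∑ q, D.d j p q • (X x p ⊗ₖ X x q)) * D.C.map (algebraMap k R)).map f =
    D.C.map (algebraMap k R') * X (f ∘ x) j -
      (∑ p, ∑ q, D.d j p q • (X (f ∘ x) p ⊗ₖ X (f ∘ x) q)) * D.C.map (algebraMap k R') := by
  ext a b
  simp [Matrix.mul_apply, Matrix.sum_apply, X, Matrix.kroneckerMap_apply]

theorem m3_NAT (c : J → J → k) (e : k) :
    (∑ p, ∑ q, c p q • (X x p * X x q) - e • (1 : Matrix (I × J) (I × J) R)).map f =
    ∑ p, ∑ q, c p q • (X (f ∘ x) p * X (f ∘ x) q) - e • (1 : Matrix (I × J) (I × J) R') := by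
  ext a b
  by_cases h : a = b <;> simp [Matrix.mul_apply, Matrix.sum_apply, X, Matrix.one_apply, h]

theorem m6_NAT (v : I × J) (n : J) :
    (∑ p, ∑ q, ∑ i, (D.e p q • X x q (i, n) v) • (X x p * (D.T i).map (algebraMap k R)) -
      ∑ p, D.e p n • (lam D x v * X x p)).map f =
    ∑ p, ∑ q, ∑ i, (D.e p q • X (f ∘ x) q (i, n) v) •
      (X (f ∘ x) p * (D.T i).map (algebraMap k R')) -
      ∑ p, D.e p n • (lam D (f ∘ x) v * X (f ∘ x) p) := by
  ext a b
  simp [Matrix.mul_apply, Matrix.sum_apply, X, lam]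

end

theorem push_NAT {k R R' m n : Type} [Field k] [CommRing R] [Algebra k R] [CommRing R']
    [Algebra k R'] (f : R →ₐ[k] R') {A B : Matrix m n R} {A' B' : Matrix m n R'}
    (h : (A - B).map f = A' - B') (e : A = B) : A' = B' := by
  rw [← sub_eq_zero, ← h, e, sub_self]
  ext a b
  simp

theorem pull_NAT {k m n : Type} [Field k] {A B : Matrix m n (ℕ → k)}
    (h : ∀ t, (A - B).map (Pi.evalAlgHom k (fun _ : ℕ => k) t) = 0) : A = B := by
  rw [← sub_eq_zero]
  ext a b t
  exact congrFun (congrFun (h t) a) b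

theorem NAT_pf : NAT_st := by
  intro k I J _ _ _ _ _ D
  refine ⟨fun R R' _ _ _ _ f x h => ⟨fun j v => push_NAT f (m1_NAT D f x j v) (h.a1 j v),
    fun j => push_NAT f (m2_NAT D f x j) (h.a2 j), ?_,
    fun p q => push_NAT f (m3_NAT f x _ _) (h.a4 p q),
    fun p q => push_NAT f (m3_NAT f x _ _) (h.a5 p q),
    fun v n => push_NAT f (m6_NAT D f x v n) (h.a6 v n)⟩, fun s h => ⟨fun j v => ?_, fun j => ?_,
    ?_, fun p q => ?_, fun p q => ?_, fun v n => ?_⟩⟩
  · have := push_NAT f (m3_NAT f x D.e 1) (by rw [one_smul]; exact h.a3)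
    rwa [one_smul] at this
  · exact pull_NAT (fun t => (m1_NAT D _ _ j v).trans (sub_eq_zero.mpr ((h t).a1 j v)))
  · exact pull_NAT (fun t => (m2_NAT D _ _ j).trans (sub_eq_zero.mpr ((h t).a2 j)))
  · rw [← one_smul k (1 : Matrix (I × J) (I × J) (ℕ → k))]
    refine pull_NAT (fun t => (m3_NAT _ _ D.e 1).trans (sub_eq_zero.mpr ?_))
    rw [one_smul]
    exact (h t).a3
  · exact pull_NAT (fun t => (m3_NAT _ _ _ _).trans (sub_eq_zero.mpr ((h t).a4 p q)))
  · exact pull_NAT (fun t => (m3_NAT _ _ _ _).trans (sub_eq_zero.mpr ((h t).a5 p q)))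
  · exact pull_NAT (fun t => (m6_NAT D _ _ v n).trans (sub_eq_zero.mpr ((h t).a6 v n)))

end Pool.Agent.MP_ae7646_al.F

end

end

section

/-! The antipode reverses the comultiplication, commutes with bialgebra maps; exchange of
factors. -/

set_option autoImplicit false

open TensorProduct Coalgebra HopfAlgebra Module
open scoped Kronecker

noncomputable section

namespace Pool.Agent.MP_ae7646_al.F

open WithConv in
theorem left_ANTI {k H B : Type} [Field k] [Ring H] [HopfAlgebra k H] [Ring B] [Algebra k B]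
    (f : H →ₐ[k] B) :
    toConv (f.toLinearMap ∘ₗ antipode k) * toConv f.toLinearMap = 1 := by
  ext c
  rw [(Coalgebra.Repr.arbitrary k c).convMul_apply]
  have h := congrArg f (sum_antipode_mul_eq_algebraMap_counit (Coalgebra.Repr.arbitrary k c))
  rw [map_sum] at h
  simp only [map_mul, AlgHom.commutes] at h
  simpa using h

open WithConv in
theorem ANTI_pf : ANTI_st := by
  intro k H _ _ _ x
  let i₁ : H →ₐ[k] H ⊗[k] H := Algebra.TensorProduct.includeLeft
  let i₂ : H →ₐ[k] H ⊗[k] H := Algebra.TensorProduct.includeRight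
  have hd : toConv (comul : H →ₗ[k] H ⊗[k] H) = toConv i₁.toLinearMap * toConv i₂.toLinearMap := by
    ext c
    rw [(Coalgebra.Repr.arbitrary k c).convMul_apply]
    simp [i₁, i₂, (Coalgebra.Repr.arbitrary k c).eq]
  have hl : (toConv (i₂.toLinearMap ∘ₗ antipode k) * toConv (i₁.toLinearMap ∘ₗ antipode k)) *
      toConv (comul : H →ₗ[k] H ⊗[k] H) = 1 := by
    rw [hd, mul_assoc, ← mul_assoc (toConv (i₁.toLinearMap ∘ₗ antipode k)), left_ANTI, one_mul,
      left_ANTI]
  have h := left_inv_eq_right_inv hl (LinearMap.comul_right_inv (R := k) (C := H))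
  have h2 := congrArg (fun g : WithConv (H →ₗ[k] H ⊗[k] H) => g.ofConv x) h
  simp only [LinearMap.comp_apply] at h2
  rw [← h2, ← (Coalgebra.Repr.arbitrary k x).eq]
  have h3 := (Coalgebra.Repr.arbitrary k x).convMul_apply
    (toConv (i₂.toLinearMap ∘ₗ antipode k)) (toConv (i₁.toLinearMap ∘ₗ antipode k))
  rw [h3]
  simp [i₁, i₂, map_sum]

open WithConv in
theorem NATS_pf : NATS_st := by
  intro k H E _ _ _ _ _ j h
  have hl := left_ANTI (j : H →ₐ[k] E)
  have hr : toConv (j : H →ₐ[k] E).toLinearMap *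
      toConv (antipode k ∘ₗ (j : H →ₐ[k] E).toLinearMap) = 1 := by
    ext c
    rw [(Coalgebra.Repr.arbitrary k c).convMul_apply]
    have h1 := mul_antipode_lTensor_comul_apply (R := k) (j c)
    rw [← CoalgHomClass.map_comp_comul_apply, ← (Coalgebra.Repr.arbitrary k c).eq] at h1
    simpa [map_sum] using h1
  have h1 := left_inv_eq_right_inv hl hr
  exact congrArg (fun g : WithConv (H →ₗ[k] E) => g.ofConv h) h1

theorem SWAP_pf (hA : ANT_st) : SWAP_st := by
  intro k A H E _ _ _ _ _ _ _ _ _ i j hb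
  have : FiniteDimensional k E := Module.Finite.of_surjective (mm i j) hb.2
  have hs : Function.Surjective (mm j i) := by
    intro y
    obtain ⟨z, rfl⟩ := hA k E y
    obtain ⟨t, rfl⟩ := hb.2 z
    change _ ∈ LinearMap.range (mm j i)
    induction t using TensorProduct.induction_on with
    | zero => simp
    | tmul a h =>
      refine ⟨antipode k h ⊗ₜ antipode k a, ?_⟩
      rw [mm_tmul, mm_tmul, antipode_mul_antidistrib, NATS_pf k H E j, NATS_pf k A E i]
    | add u v hu hv =>
      rw [map_add, map_add]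
      exact add_mem hu hv
  have hf : finrank k (H ⊗[k] A) = finrank k E := by
    rw [← (LinearEquiv.ofBijective (mm i j) hb).finrank_eq, finrank_tensorProduct,
      finrank_tensorProduct, mul_comm]
  exact ⟨(LinearMap.injective_iff_surjective_of_finrank_eq_finrank hf).2 hs, hs⟩

end Pool.Agent.MP_ae7646_al.F

end

end

section

/-! The antipode of a finite dimensional Hopf algebra is onto. -/

set_option autoImplicit false

open TensorProduct Coalgebra HopfAlgebra Module
open scoped Kronecker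

noncomputable section

namespace Pool.Agent.MP_ae7646_al.F

section Aux

variable {k H : Type} [Field k] [Ring H] [HopfAlgebra k H]

/-- linear maps that respect the coalgebra structure -/
def Co_ANT (c : H →ₗ[k] H) : Prop :=
  (∀ x, comul (R := k) (c x) = TensorProduct.map c c (comul x)) ∧
    ∀ x, counit (R := k) (c x) = counit x

theorem Co_comp_ANT {c d : H →ₗ[k] H} (hc : Co_ANT c) (hd : Co_ANT d) : Co_ANT (c ∘ₗ d) := by
  refine ⟨fun x => ?_, fun x => ?_⟩
  · rw [LinearMap.comp_apply, hc.1, hd.1, TensorProduct.map_comp, LinearMap.comp_apply]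
  · rw [LinearMap.comp_apply, hc.2, hd.2]

theorem Co_id_ANT : Co_ANT (LinearMap.id : H →ₗ[k] H) :=
  ⟨fun x => by simp, fun x => rfl⟩

theorem left_ANT {c : H →ₗ[k] H} (hc : Co_ANT c) :
    WithConv.toConv (antipode k ∘ₗ c) * WithConv.toConv c = 1 := by
  ext x
  have h := mul_antipode_rTensor_comul_apply (R := k) (c x)
  rw [hc.1, hc.2, LinearMap.rTensor_map] at h
  simpa using h

theorem right_ANT {c : H →ₗ[k] H} (hc : Co_ANT c) :
    WithConv.toConv c * WithConv.toConv (antipode k ∘ₗ c) = 1 := by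
  ext x
  have h := mul_antipode_lTensor_comul_apply (R := k) (c x)
  rw [hc.1, hc.2, LinearMap.lTensor_map] at h
  simpa using h

theorem cancel1_ANT {c d : H →ₗ[k] H} (hc : Co_ANT c) (hd : Co_ANT d)
    (h : antipode k ∘ₗ c = antipode k ∘ₗ d) : c = d := by
  have h1 := right_ANT hc
  have h2 := left_ANT hd
  rw [h] at h1
  exact WithConv.toConv_injective (left_inv_eq_right_inv h1 h2)

theorem op_ANT {f g : H →ₗ[k] H} (h : WithConv.toConv f * WithConv.toConv g = 1) :
    WithConv.toConv ((antipodeAlgHomOp k H).toLinearMap ∘ₗ f) *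
      WithConv.toConv ((antipodeAlgHomOp k H).toLinearMap ∘ₗ g) = 1 := by
  have h1 := LinearMap.algHom_comp_convMul_distrib (antipodeAlgHomOp k H) (WithConv.toConv f)
    (WithConv.toConv g)
  rw [h] at h1
  apply WithConv.ofConv_injective
  rw [← h1]
  ext x
  simp only [LinearMap.comp_apply, LinearMap.convOne_apply, AlgHom.toLinearMap_apply,
    AlgHom.commutes]

theorem cancel2_ANT {c d : H →ₗ[k] H} (hc : Co_ANT c) (hd : Co_ANT d)
    (h : antipode k ∘ₗ antipode k ∘ₗ c = antipode k ∘ₗ antipode k ∘ₗ d) :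
    antipode k ∘ₗ c = antipode k ∘ₗ d := by
  have h1 := op_ANT (right_ANT hc)
  have h2 := op_ANT (left_ANT hd)
  have e : (antipodeAlgHomOp k H).toLinearMap ∘ₗ (antipode k ∘ₗ c) =
      (antipodeAlgHomOp k H).toLinearMap ∘ₗ (antipode k ∘ₗ d) := by
    ext x
    have := LinearMap.congr_fun h x
    simp only [LinearMap.comp_apply] at this
    simp [this]
  rw [e] at h1
  have h3 := WithConv.toConv_injective (left_inv_eq_right_inv h1 h2)
  ext x
  have := LinearMap.congr_fun h3 x
  simpa using this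

theorem sq_ANT (hA : ANTI_st) : Co_ANT (antipode k ∘ₗ antipode k : H →ₗ[k] H) := by
  refine ⟨fun x => ?_, fun x => by simp⟩
  rw [LinearMap.comp_apply, hA k H, hA k H]
  generalize comul (R := k) x = y
  induction y using TensorProduct.induction_on with
  | zero => simp
  | tmul a b => simp
  | add a b ha hb => simp only [map_add, ha, hb]

theorem pow_ANT {T : H →ₗ[k] H} (hT : Co_ANT T) (n : ℕ) : Co_ANT (T ^ n) := by
  induction n with
  | zero => exact Co_id_ANT
  | succ n ih => rw [pow_succ]; exact Co_comp_ANT ih hT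

theorem proj_ANT {N : H →ₗ[k] H} (hN : Co_ANT N)
    (hc : IsCompl (LinearMap.range N) (LinearMap.ker N)) :
    ∃ p : H →ₗ[k] H, Co_ANT p ∧ N ∘ₗ p = N ∧ ∀ x, p x ∈ LinearMap.range N := by
  set p := (LinearMap.range N).projection (LinearMap.ker N) hc with hp
  have hpN : ∀ x, p (N x) = N x := fun x =>
    Submodule.projection_apply_of_mem_left hc (LinearMap.mem_range_self N x)
  have hker : ∀ x, N (x - p x) = 0 := fun x => Submodule.sub_projection_mem hc x
  have hNp : ∀ x, N (p x) = N x := fun x => by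
    have := hker x
    rw [map_sub, sub_eq_zero] at this
    exact this.symm
  have hp0 : ∀ x, N x = 0 → p x = 0 := fun x hx =>
    (Submodule.projection_apply_eq_zero_iff hc).2 hx
  obtain ⟨g, hg⟩ := N.rangeRestrict.exists_rightInverse_of_surjective N.range_rangeRestrict
  obtain ⟨r, hr⟩ := (LinearMap.range N).subtype.exists_leftInverse_of_injective
    (Submodule.ker_subtype _)
  have hs : p = (p ∘ₗ g ∘ₗ r) ∘ₗ N := by
    ext x
    have h1 : r (N x) = N.rangeRestrict x := LinearMap.congr_fun hr (N.rangeRestrict x)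
    have h2 : N (g (N.rangeRestrict x)) = N x :=
      congrArg Subtype.val (LinearMap.congr_fun hg (N.rangeRestrict x))
    have h3 : p (x - g (N.rangeRestrict x)) = 0 := hp0 _ (by rw [map_sub, h2, sub_self])
    rw [map_sub, sub_eq_zero] at h3
    simp only [LinearMap.comp_apply, h1, h3]
  have hpNe : p ∘ₗ N = N := LinearMap.ext hpN
  refine ⟨p, ⟨fun x => ?_, fun x => ?_⟩, LinearMap.ext hNp,
    fun x => Submodule.projection_apply_mem hc x⟩
  · have h0 : TensorProduct.map p p (comul (R := k) (x - p x)) = 0 := by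
      rw [hs, TensorProduct.map_comp, LinearMap.comp_apply, ← hN.1, ← hs, hker, map_zero,
        map_zero]
    obtain ⟨y, hy⟩ := Submodule.projection_apply_mem hc x
    have h1 : TensorProduct.map p p (comul (R := k) (p x)) = comul (p x) := by
      rw [← hp] at hy
      rw [← hy, hN.1, ← LinearMap.comp_apply, ← TensorProduct.map_comp, hpNe]
    rw [map_sub, map_sub, h1, sub_eq_zero] at h0
    exact h0.symm
  · rw [← hN.2, hNp, hN.2]

end Aux

theorem ANT_pf (hA : ANTI_st) : ANT_st := by
  intro k H _ _ _ _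
  set T : H →ₗ[k] H := antipode k ∘ₗ antipode k with hT
  have hTc : Co_ANT T := sq_ANT hA
  obtain ⟨n, hn, hn1⟩ := ((LinearMap.eventually_isCompl_ker_pow_range_pow T).and
    (Filter.eventually_ge_atTop 1)).exists
  obtain ⟨p, hp, hNp, hr⟩ := proj_ANT (pow_ANT hTc n) hn.symm
  have key : ∀ m : ℕ, (T ^ m) ∘ₗ p = T ^ m → p = LinearMap.id := by
    intro m
    induction m with
    | zero => intro h; exact h
    | succ m ih =>
      intro h
      apply ih
      have h1 := Co_comp_ANT (pow_ANT hTc m) hp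
      have h2 := pow_ANT hTc m
      refine cancel1_ANT h1 h2 (cancel2_ANT h1 h2 ?_)
      rw [pow_succ'] at h
      exact h
  have hid := key n hNp
  intro x
  obtain ⟨y, hy⟩ := hr x
  obtain ⟨m, rfl⟩ := Nat.exists_eq_add_of_le' hn1
  refine ⟨antipode k ((T ^ m) y), ?_⟩
  rw [hid, pow_succ'] at hy
  exact hy

end Pool.Agent.MP_ae7646_al.F

end

end

section

set_option autoImplicit false

open TensorProduct Coalgebra HopfAlgebra Module
open scoped Kronecker

noncomputable section

namespace Pool.Agent.MP_ae7646_al.F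

section

variable {k H : Type} [Field k] [Ring H] [HopfAlgebra k H]

/-- contraction of the left leg -/
def con_LAM {V W : Type} [AddCommGroup V] [Module k V] [AddCommGroup W] [Module k W]
    (f : V →ₗ[k] k) : V ⊗[k] W →ₗ[k] W :=
  (TensorProduct.lid k W).toLinearMap ∘ₗ f.rTensor W

theorem con_tmul_LAM {V W : Type} [AddCommGroup V] [Module k V] [AddCommGroup W] [Module k W]
    (f : V →ₗ[k] k) (v : V) (w : W) : con_LAM f (v ⊗ₜ[k] w) = f v • w := by
  simp [con_LAM]

/-- the action of the dual -/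
def T_LAM (k H : Type) [Field k] [Ring H] [HopfAlgebra k H] : Dual k H →ₗ[k] End k H where
  toFun f := con_LAM f ∘ₗ comul
  map_add' f g := by
    ext h
    simp [con_LAM, LinearMap.rTensor_add]
  map_smul' c f := by
    ext h
    simp [con_LAM, LinearMap.rTensor_smul]

theorem T_apply_LAM (f : Dual k H) (h : H) : T_LAM k H f h = con_LAM f (comul h) := rfl

theorem T_counit_LAM : T_LAM k H counit = 1 := by
  ext h
  simp [T_apply_LAM, con_LAM]

theorem T_conv_LAM (f g : Dual k H) :
    T_LAM k H (g ∘ₗ T_LAM k H f) = T_LAM k H g * T_LAM k H f := by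
  ext h
  have h1 : ∀ t : H ⊗[k] H, con_LAM (g ∘ₗ T_LAM k H f) t =
      con_LAM g (con_LAM f (TensorProduct.assoc k H H H (comul.rTensor H t))) := by
    intro t
    induction t using TensorProduct.induction_on with
    | zero => simp
    | add a b ha hb => simp only [map_add, ha, hb]
    | tmul a b =>
      rw [con_tmul_LAM, LinearMap.rTensor_tmul, LinearMap.comp_apply, T_apply_LAM]
      generalize comul (R := k) a = s
      induction s using TensorProduct.induction_on with
      | zero => simp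
      | add a b ha hb => simp only [map_add, add_smul, add_tmul, ha, hb]
      | tmul x y => simp [con_tmul_LAM, smul_smul]
  have h2 : ∀ t : H ⊗[k] H, con_LAM f (comul.lTensor H t) = comul (R := k) (con_LAM f t) := by
    intro t
    induction t using TensorProduct.induction_on with
    | zero => simp
    | add a b ha hb => simp only [map_add, ha, hb]
    | tmul a b => simp [con_tmul_LAM]
  rw [T_apply_LAM, h1, coassoc_apply, h2, End.mul_apply, T_apply_LAM, T_apply_LAM]

theorem tensor_ext_LAM [FiniteDimensional k H] (s t : H ⊗[k] H)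
    (h : ∀ f g : Dual k H, g (con_LAM f s) = g (con_LAM f t)) : s = t := by
  have b := Module.finBasis k H
  have h1 : ∀ (u : H ⊗[k] H) p q,
      (b.tensorProduct b).repr u (p, q) = b.coord q (con_LAM (b.coord p) u) := by
    intro u p q
    induction u using TensorProduct.induction_on with
    | zero => simp
    | add x y hx hy => simp only [map_add, Finsupp.add_apply, hx, hy]
    | tmul x y => simp [con_tmul_LAM, mul_comm]
  refine (b.tensorProduct b).ext_elem fun ⟨p, q⟩ => ?_
  rw [h1, h1, h]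

theorem con_comm_LAM (f g : Dual k H) (t : H ⊗[k] H) :
    g (con_LAM f (TensorProduct.comm k H H t)) = f (con_LAM g t) := by
  induction t using TensorProduct.induction_on with
  | zero => simp
  | add x y hx hy => simp only [map_add, hx, hy]
  | tmul x y => simp [con_tmul_LAM, mul_comm]

theorem cancel_LAM {ι : Type} (u : H) (r : Coalgebra.Repr k u ι) :
    ∑ i ∈ r.index, comul (R := k) (r.left i) * ((1 : H) ⊗ₜ[k] antipode k (r.right i)) =
      u ⊗ₜ[k] (1 : H) := by
  obtain ⟨N, hN⟩ : ∃ N : H ⊗[k] (H ⊗[k] H) →ₗ[k] H ⊗[k] H,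
    N = (LinearMap.mul' k H ∘ₗ (antipode k).lTensor H).lTensor H := ⟨_, rfl⟩
  have h1 : ∀ (t : H ⊗[k] H) (y : H), t * ((1 : H) ⊗ₜ[k] antipode k y) =
      N (TensorProduct.assoc k H H H (t ⊗ₜ[k] y)) := by
    intro t y
    induction t using TensorProduct.induction_on with
    | zero => simp
    | add a b ha hb => simp only [add_mul, add_tmul, map_add, ha, hb]
    | tmul a b => simp [hN]
  have h2 : ∀ t : H ⊗[k] H, N (comul.lTensor H t) =
      (Algebra.linearMap k H).lTensor H (counit.lTensor H t) := by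
    intro t
    induction t using TensorProduct.induction_on with
    | zero => simp
    | add a b ha hb => simp only [map_add, ha, hb]
    | tmul a b => simp [hN]
  have h3 : ∑ i ∈ r.index, comul (R := k) (r.left i) ⊗ₜ[k] r.right i =
      comul.rTensor H (comul (R := k) u) := by
    rw [← r.eq, map_sum]
    simp
  simp only [h1]
  rw [← map_sum, ← map_sum, h3, coassoc_apply, h2]
  simp

variable {E : Type} [Ring E] [HopfAlgebra k E]

/-- the right action -/
def rho_LAM (j : H →ₐc[k] E) (π : E →ₗ[k] H) : E →ₗ[k] End k H where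
  toFun u := π ∘ₗ LinearMap.mulRight k u ∘ₗ j.toLinearMap
  map_add' u v := by
    ext h
    simp [mul_add]
  map_smul' c u := by
    ext h
    simp

theorem rho_apply_LAM (j : H →ₐc[k] E) (π : E →ₗ[k] H) (u : E) (h : H) :
    rho_LAM j π u h = π (j h * u) := rfl

theorem key_LAM {j : H →ₐc[k] E} {π : E →ₗ[k] H} (hP : Proj j π) (f : Dual k H) {ι : Type} (u : E)
    (r : Coalgebra.Repr k u ι) :
    T_LAM k H (f ∘ₗ rho_LAM j π u) = ∑ i ∈ r.index,
      rho_LAM j π (antipode k (r.right i)) * T_LAM k H f * rho_LAM j π (r.left i) := by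
  ext h
  have h1 : ∀ (y : E) (t : E ⊗[k] E), rho_LAM j π y (con_LAM f (TensorProduct.map π π t)) =
      con_LAM f (TensorProduct.map π π (t * ((1 : E) ⊗ₜ[k] y))) := by
    intro y t
    induction t using TensorProduct.induction_on with
    | zero => simp
    | add a b ha hb => simp only [map_add, add_mul, ha, hb]
    | tmul a b => simp [con_tmul_LAM, rho_apply_LAM, hP.act]
  have h2 : ∀ t : H ⊗[k] H, con_LAM (f ∘ₗ rho_LAM j π u) t =
      con_LAM f (TensorProduct.map π π
        (TensorProduct.map j.toLinearMap j.toLinearMap t * (u ⊗ₜ[k] (1 : E)))) := by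
    intro t
    induction t using TensorProduct.induction_on with
    | zero => simp
    | add a b ha hb => simp only [map_add, add_mul, ha, hb]
    | tmul a b =>
      have e : ∀ x, j.toLinearMap x = j x := fun _ => rfl
      rw [TensorProduct.map_tmul, e, e, Algebra.TensorProduct.tmul_mul_tmul, mul_one,
        TensorProduct.map_tmul, con_tmul_LAM, con_tmul_LAM, hP.sec, LinearMap.comp_apply,
        rho_apply_LAM]
  have h3 : TensorProduct.map j.toLinearMap j.toLinearMap (comul (R := k) h) =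
      comul (R := k) (j h) := CoalgHomClass.map_comp_comul_apply j h
  rw [T_apply_LAM, h2, h3, ← cancel_LAM u r, Finset.mul_sum, map_sum, map_sum,
    LinearMap.sum_apply]
  refine Finset.sum_congr rfl fun i _ => ?_
  rw [End.mul_apply, End.mul_apply, T_apply_LAM, rho_apply_LAM j π (r.left i), hP.com, h1,
    Bialgebra.comul_mul, mul_assoc]

end

theorem LAM_pf (hN : NATS_st) : LAM_st := by
  intro k H _ _ _ _ _ hS
  obtain ⟨L, hL⟩ : ∃ L : H, ∀ f : Dual k H, f L = LinearMap.trace k H (T_LAM k H f) :=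
    ⟨(evalEquiv k H).symm (LinearMap.trace k H ∘ₗ T_LAM k H), fun f => by
      rw [apply_evalEquiv_symm_apply]; rfl⟩
  have hnt : Nontrivial H := by
    refine ⟨1, 0, fun h => ?_⟩
    have := congrArg (counit (R := k)) h
    simp at this
  have hd : (finrank k H : k) ≠ 0 := Nat.cast_ne_zero.2 finrank_pos.ne'
  refine ⟨(finrank k H : k)⁻¹ • L, ?_, ?_, ?_⟩
  · rw [map_smul, hL, T_counit_LAM, LinearMap.trace_one, smul_eq_mul, inv_mul_cancel₀ hd]
  · rw [map_smul, map_smul]
    congr 1
    refine tensor_ext_LAM _ _ fun f g => ?_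
    have h1 := hL (f ∘ₗ T_LAM k H g)
    have h2 := hL (g ∘ₗ T_LAM k H f)
    rw [T_conv_LAM] at h1 h2
    rw [con_comm_LAM, ← T_apply_LAM, ← T_apply_LAM]
    exact h1.trans ((LinearMap.trace_mul_comm k _ _).trans h2.symm)
  · intro E _ _ j π hP u
    have hSS : ∀ w, rho_LAM j π (antipode k (antipode k w)) = rho_LAM j π w := by
      intro w
      ext h
      rw [rho_apply_LAM, rho_apply_LAM, ← hP.inv (j h * w), antipode_mul_antidistrib,
        antipode_mul_antidistrib, ← hN, ← hN, hS]
    have hmul : ∀ a b, rho_LAM j π a * rho_LAM j π b = rho_LAM j π (b * a) := by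
      intro a b
      ext h
      rw [End.mul_apply, rho_apply_LAM, rho_apply_LAM, rho_apply_LAM, hP.act, mul_assoc]
    have hone : rho_LAM j π 1 = 1 := by
      ext h
      rw [rho_apply_LAM, mul_one, hP.sec, End.one_apply]
    have r := Coalgebra.Repr.arbitrary k u
    have hsum : ∑ i ∈ r.index, rho_LAM j π (r.left i) * rho_LAM j π (antipode k (r.right i)) =
        counit (R := k) u • 1 := by
      have h1 : ∀ i, rho_LAM j π (r.left i) * rho_LAM j π (antipode k (r.right i)) =
          rho_LAM j π (antipode k (antipode k (r.left i) * r.right i)) := by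
        intro i
        rw [antipode_mul_antidistrib, ← hmul, hSS]
      simp only [h1]
      rw [← map_sum, ← map_sum, sum_antipode_mul_eq_smul, map_smul, map_smul, antipode_one, hone]
    have hmain : rho_LAM j π u L = counit (R := k) u • L := by
      rw [← sub_eq_zero, ← forall_dual_apply_eq_zero_iff k]
      intro f
      have h1 := hL (f ∘ₗ rho_LAM j π u)
      rw [key_LAM hP f u r, map_sum] at h1
      have h2 : ∀ i, LinearMap.trace k H (rho_LAM j π (antipode k (r.right i)) * T_LAM k H f *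
          rho_LAM j π (r.left i)) = LinearMap.trace k H (T_LAM k H f *
            (rho_LAM j π (r.left i) * rho_LAM j π (antipode k (r.right i)))) := by
        intro i
        rw [mul_assoc, LinearMap.trace_mul_comm, mul_assoc]
      simp only [h2] at h1
      rw [← map_sum, ← Finset.mul_sum, hsum, mul_smul_comm, mul_one, map_smul, ← hL] at h1
      rw [map_sub, map_smul, sub_eq_zero]
      exact h1
    rw [← rho_apply_LAM, map_smul, hmain, smul_comm]

end Pool.Agent.MP_ae7646_al.F

end

end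

section

set_option autoImplicit false

open TensorProduct Coalgebra HopfAlgebra Module
open scoped Kronecker

noncomputable section

namespace Pool.Agent.MP_ae7646_al.F

theorem PI_pf (hN : NATS_st) : PI_st := by
  intro k A H E _ _ _ _ _ _ _ i j hb hS
  let e := LinearEquiv.ofBijective (mm i j) hb
  let π : E →ₗ[k] H := (TensorProduct.lid k H).toLinearMap ∘ₗ
    (counit (R := k) (A := A)).rTensor H ∘ₗ e.symm.toLinearMap
  have hπ : ∀ a h, π (i a * j h) = counit (R := k) a • h := by
    intro a h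
    have : e.symm (i a * j h) = a ⊗ₜ h := e.symm_apply_eq.2 (mm_tmul i j a h).symm
    show TensorProduct.lid k H ((counit (R := k) (A := A)).rTensor H (e.symm (i a * j h))) = _
    rw [this, LinearMap.rTensor_tmul, TensorProduct.lid_tmul]
  have ind : ∀ P : E → Prop, P 0 → (∀ a h, P (i a * j h)) → (∀ x y, P x → P y → P (x + y)) →
      ∀ w, P w := by
    intro P h0 h1 h2 w
    obtain ⟨t, rfl⟩ := hb.2 w
    induction t using TensorProduct.induction_on with
    | zero => rw [map_zero]; exact h0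
    | tmul a h => exact h1 a h
    | add x y hx hy => rw [map_add]; exact h2 _ _ hx hy
  have hl : ∀ a y, π (i a * y) = counit (R := k) a • π y := by
    intro a
    refine ind _ (by simp) (fun b h => ?_) fun x y hx hy => ?_
    · rw [← mul_assoc, ← map_mul, hπ, hπ, Bialgebra.counit_mul, mul_smul]
    · rw [mul_add, map_add, map_add, hx, hy, smul_add]
  have key : ∀ (a b : A) (t : H ⊗[k] H), TensorProduct.map π π ((i a ⊗ₜ[k] i b) *
      TensorProduct.map j.toLinearMap j.toLinearMap t) =
      (counit (R := k) a * counit (R := k) b) • t := by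
    intro a b t
    induction t using TensorProduct.induction_on with
    | zero => simp
    | tmul g h =>
      rw [TensorProduct.map_tmul, Algebra.TensorProduct.tmul_mul_tmul, TensorProduct.map_tmul]
      show π (i a * j g) ⊗ₜ[k] π (i b * j h) = _
      rw [hπ, hπ, TensorProduct.smul_tmul_smul]
    | add x y hx hy => rw [map_add, mul_add, map_add, hx, hy, smul_add]
  refine ⟨π, ⟨fun h => ?_, ind _ (by simp) (fun a h => ?_) fun x y hx hy => ?_, fun w u => ?_,
    ind _ (by simp) (fun a h => ?_) fun x y hx hy => ?_⟩, hπ⟩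
  · have := hπ 1 h
    rwa [map_one, one_mul, Bialgebra.counit_one, one_smul] at this
  · have r := Coalgebra.Repr.arbitrary k a
    have h1 : comul (R := k) (i a) = ∑ s ∈ r.index, i (r.left s) ⊗ₜ[k] i (r.right s) := by
      rw [← CoalgHomClass.map_comp_comul_apply i a, ← r.eq, map_sum]
      rfl
    have h2 : comul (R := k) (j h) =
        TensorProduct.map j.toLinearMap j.toLinearMap (comul (R := k) h) :=
      (CoalgHomClass.map_comp_comul_apply j h).symm
    have h3 : ∑ s ∈ r.index, counit (R := k) (r.left s) * counit (R := k) (r.right s) =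
        counit (R := k) a := by
      conv_rhs => rw [← Coalgebra.sum_counit_smul r, map_sum]
      exact Finset.sum_congr rfl fun s _ => by rw [map_smul, smul_eq_mul]
    rw [hπ, map_smul, Bialgebra.comul_mul, h1, h2, Finset.sum_mul, map_sum,
      Finset.sum_congr rfl fun s _ => key _ _ _, ← Finset.sum_smul, h3]
  · rw [map_add, map_add, map_add, map_add, hx, hy]
  · revert w
    refine ind _ (by simp) (fun a h => ?_) fun x y hx hy => ?_
    · rw [hπ, mul_assoc, hl, map_smul, smul_mul_assoc, map_smul]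
    · rw [map_add, map_add, add_mul, add_mul, map_add, map_add, hx, hy]
  · rw [antipode_mul_antidistrib, antipode_mul_antidistrib, ← hN _ _ _ i, ← hN _ _ _ i,
      ← hN _ _ _ j, ← hN _ _ _ j, hS, hπ, hπ, counit_antipode, counit_antipode]
  · rw [map_add, map_add, map_add, map_add, hx, hy]

end Pool.Agent.MP_ae7646_al.F

end

end

section

/-! Separability of a factorised Hopf algebra over its first factor. -/

set_option autoImplicit false

open TensorProduct Coalgebra HopfAlgebra Module
open scoped Kronecker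

noncomputable section

namespace Pool.Agent.MP_ae7646_al.F

theorem rc_SEP {k A σ : Type} [Field k] [Ring A] [Bialgebra k A] {a : A}
    (r : Coalgebra.Repr k a σ) : ∑ s ∈ r.index, counit (R := k) (r.right s) • r.left s = a := by
  have h := congrArg (TensorProduct.rid k A) (Coalgebra.sum_tmul_counit_eq r)
  simpa only [map_sum, TensorProduct.rid_tmul, one_smul] using h

theorem cm_SEP {k A E σ : Type} [Field k] [Ring A] [Bialgebra k A] [Ring E] [Bialgebra k E]
    (f : A →ₐc[k] E) {a : A} (r : Coalgebra.Repr k a σ) :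
    comul (R := k) (f a) = ∑ s ∈ r.index, f (r.left s) ⊗ₜ[k] f (r.right s) := by
  rw [← CoalgHomClass.map_comp_comul_apply, ← r.eq, map_sum]
  rfl

theorem SEP_pf : SEP_st := by
  intro k A H E _ _ _ _ _ _ _ i j π Λ α hs hπ hΛ hα v σ r
  obtain ⟨J, hJ⟩ : ∃ J : WithConv (H →ₗ[k] E), ∀ h, J h = j h :=
    ⟨WithConv.toConv j.toLinearMap, fun _ => rfl⟩
  obtain ⟨S, hS⟩ : ∃ S : WithConv (H →ₗ[k] E), ∀ h, S h = j (antipode k h) :=
    ⟨WithConv.toConv (j.toLinearMap ∘ₗ antipode k), fun _ => rfl⟩
  obtain ⟨B, hB⟩ : ∃ B : WithConv (H →ₗ[k] E), ∀ h, B h = α (j h) :=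
    ⟨WithConv.toConv (α ∘ₗ j.toLinearMap), fun _ => rfl⟩
  obtain ⟨R, hR⟩ : ∃ R : WithConv (H →ₗ[k] E), ∀ h, R h = α (j h * v) :=
    ⟨WithConv.toConv (α ∘ₗ LinearMap.mulRight k v ∘ₗ j.toLinearMap), fun _ => rfl⟩
  have hSJ : S * J = 1 := by
    ext c
    rw [(Coalgebra.Repr.arbitrary k c).convMul_apply, LinearMap.convOne_apply]
    simp only [hS, hJ, ← map_mul, ← map_sum, sum_antipode_mul_eq_algebraMap_counit,
      AlgHomClass.commutes]
  have hJS : J * S = 1 := by
    ext c
    rw [(Coalgebra.Repr.arbitrary k c).convMul_apply, LinearMap.convOne_apply]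
    simp only [hS, hJ, ← map_mul, ← map_sum, sum_mul_antipode_eq_algebraMap_counit,
      AlgHomClass.commutes]
  obtain ⟨γ, hγ⟩ : ∃ γ, γ = S * B := ⟨_, rfl⟩
  have hJγ : J * γ = B := by rw [hγ, ← mul_assoc, hJS, one_mul]
  obtain ⟨T, hT⟩ : ∃ T : E ⊗[k] E →ₗ[k] E, ∀ x y, T (x ⊗ₜ y) = x * γ (π y) :=
    ⟨LinearMap.mul' k E ∘ₗ (γ.ofConv ∘ₗ π).lTensor E, fun _ _ => rfl⟩
  have h1 : ∀ y, α y = T (comul y) := fun y => by
    obtain ⟨t, rfl⟩ := hs y
    induction t with
    | zero => simp only [map_zero]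
    | add a b ha hb => simp only [map_add, ha, hb]
    | tmul a h =>
      have ra := Coalgebra.Repr.arbitrary k a
      have rh := Coalgebra.Repr.arbitrary k h
      rw [mm_tmul, hα, ← hB, ← hJγ, rh.convMul_apply, Bialgebra.comul_mul, cm_SEP i ra,
        cm_SEP j rh, Finset.sum_mul_sum, map_sum]
      conv_lhs => rw [← rc_SEP ra, map_sum, Finset.sum_mul]
      refine Finset.sum_congr rfl fun s _ => ?_
      rw [map_sum, Finset.mul_sum]
      refine Finset.sum_congr rfl fun t _ => ?_
      rw [Algebra.TensorProduct.tmul_mul_tmul, hT, hπ, hJ, map_smul, map_smul, smul_mul_assoc,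
        mul_smul_comm, mul_assoc]
  have rv := Coalgebra.Repr.arbitrary k v
  obtain ⟨G, hG⟩ : ∃ G : WithConv (H →ₗ[k] E),
      ∀ h, G h = ∑ t ∈ rv.index, rv.left t * γ (π (j h * rv.right t)) :=
    ⟨WithConv.toConv (∑ t ∈ rv.index, LinearMap.mulLeft k (rv.left t) ∘ₗ γ.ofConv ∘ₗ π ∘ₗ
      LinearMap.mulRight k (rv.right t) ∘ₗ j.toLinearMap), fun h => by
        rw [LinearMap.sum_apply]; rfl⟩
  have hJG : J * G = R := by
    ext c
    have rc := Coalgebra.Repr.arbitrary k c
    rw [rc.convMul_apply, hR, h1, Bialgebra.comul_mul, cm_SEP j rc, ← rv.eq, Finset.sum_mul_sum,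
      map_sum]
    refine Finset.sum_congr rfl fun s _ => ?_
    rw [map_sum, hG, Finset.mul_sum]
    refine Finset.sum_congr rfl fun t _ => ?_
    rw [Algebra.TensorProduct.tmul_mul_tmul, hT, hJ, mul_assoc]
  have h2 : S * R = G := by rw [← hJG, ← mul_assoc, hSJ, one_mul]
  have h3 := r.convMul_apply S R
  have h4 := r.convMul_apply S B
  simp only [hS, hR, hB] at h3 h4
  rw [← h3, ← h4, h2, ← hγ, hG]
  conv_rhs => rw [← rc_SEP rv, Finset.sum_mul]
  refine Finset.sum_congr rfl fun t _ => ?_
  rw [hΛ, map_smul, smul_mul_assoc, mul_smul_comm]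

end Pool.Agent.MP_ae7646_al.F

end

end

section

set_option autoImplicit false

open TensorProduct Coalgebra HopfAlgebra Module
open scoped Kronecker

noncomputable section

namespace Pool.Agent.MP_ae7646_al.F

section
variable {k H : Type} [Field k] [Ring H] [HopfAlgebra k H]

/-- contraction of the left leg -/
def cl_HID (M : Type) [AddCommGroup M] [Module k M] (φ : H →ₗ[k] k) : H ⊗[k] M →ₗ[k] M :=
  (TensorProduct.lid k M).toLinearMap ∘ₗ φ.rTensor M

/-- contraction of the right leg -/
def cr_HID (M : Type) [AddCommGroup M] [Module k M] (φ : H →ₗ[k] k) : M ⊗[k] H →ₗ[k] M :=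
  (TensorProduct.rid k M).toLinearMap ∘ₗ φ.lTensor M

theorem cl_tmul_HID {M : Type} [AddCommGroup M] [Module k M] (φ : H →ₗ[k] k) (x : H) (y : M) :
    cl_HID M φ (x ⊗ₜ y) = φ x • y := by simp [cl_HID]

theorem cr_tmul_HID {M : Type} [AddCommGroup M] [Module k M] (φ : H →ₗ[k] k) (x : M) (y : H) :
    cr_HID M φ (x ⊗ₜ y) = φ y • x := by simp [cr_HID]

theorem comul_cl_HID (φ : H →ₗ[k] k) (x : H) :
    comul (R := k) (cl_HID H φ (comul x)) = (cl_HID H φ ∘ₗ comul).rTensor H (comul x) := by
  have h1 : comul ∘ₗ cl_HID H φ = cl_HID (H ⊗[k] H) φ ∘ₗ (comul (R := k)).lTensor H := by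
    ext a c
    simp [cl_tmul_HID]
  have h2 : (cl_HID H φ).rTensor H =
      cl_HID (H ⊗[k] H) φ ∘ₗ (TensorProduct.assoc k H H H).toLinearMap := by
    ext a c d
    simp [cl_tmul_HID, smul_tmul']
  have h3 := LinearMap.congr_fun h1 (comul x)
  rw [LinearMap.comp_apply, LinearMap.comp_apply, ← coassoc_apply] at h3
  rw [h3, LinearMap.rTensor_comp_apply, h2]
  rfl

theorem comul_cr_HID (φ : H →ₗ[k] k) (x : H) :
    comul (R := k) (cr_HID H φ (comul x)) = (cr_HID H φ ∘ₗ comul).lTensor H (comul x) := by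
  have h1 : comul ∘ₗ cr_HID H φ = cr_HID (H ⊗[k] H) φ ∘ₗ (comul (R := k)).rTensor H := by
    ext a c
    simp [cr_tmul_HID]
  have h2 : (cr_HID H φ).lTensor H =
      cr_HID (H ⊗[k] H) φ ∘ₗ (TensorProduct.assoc k H H H).symm.toLinearMap := by
    ext a c d
    simp [cr_tmul_HID]
  have h3 := LinearMap.congr_fun h1 (comul x)
  rw [LinearMap.comp_apply, LinearMap.comp_apply, ← coassoc_symm_apply] at h3
  rw [h3, LinearMap.lTensor_comp_apply, h2]
  rfl

theorem map_HID (φ ψ : H →ₗ[k] k) (x : H) :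
    TensorProduct.map (cl_HID H φ ∘ₗ comul) (cr_HID H ψ ∘ₗ comul) (comul x) =
      comul (R := k) (cl_HID H φ (comul (cr_HID H ψ (comul x)))) := by
  rw [comul_cl_HID, comul_cr_HID, ← LinearMap.rTensor_comp_lTensor]
  rfl

theorem counit_cl_HID (φ : H →ₗ[k] k) (x : H) :
    counit (R := k) (cl_HID H φ (comul x)) = φ x := by
  have h1 : counit ∘ₗ cl_HID H φ =
      φ ∘ₗ (TensorProduct.rid k H).toLinearMap ∘ₗ (counit (R := k)).lTensor H := by
    ext a c
    simp [cl_tmul_HID, mul_comm]
  have h2 := LinearMap.congr_fun h1 (comul x)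
  simpa using h2

theorem coord_HID {J M : Type} [Fintype J] [AddCommGroup M] [Module k M] (b : Basis J k H)
    (t : H ⊗[k] H) (Ψ : H ⊗[k] H →ₗ[k] M) :
    ∑ p, ∑ q, (b.tensorProduct b).repr t (p, q) • Ψ (b p ⊗ₜ b q) = Ψ t := by
  conv_rhs => rw [← (b.tensorProduct b).sum_repr t]
  simp only [map_sum, map_smul, Fintype.sum_prod_type, Basis.tensorProduct_apply]

theorem ddl_HID {J : Type} [Fintype J] (b : Basis J k H) (p p₁ : J) :
    ∑ p₂, dd b p p₁ p₂ • b p₂ = cl_HID H (b.coord p₁) (comul (b p)) := by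
  classical
  rw [← coord_HID b, Finset.sum_comm]
  refine Finset.sum_congr rfl fun p₂ _ => ?_
  rw [Finset.sum_eq_single p₁]
  · simp [cl_tmul_HID, dd]
  · intro q _ hq
    simp [cl_tmul_HID, hq]
  · simp

theorem ddr_HID {J : Type} [Fintype J] (b : Basis J k H) (p p₂ : J) :
    ∑ p₁, dd b p p₁ p₂ • b p₁ = cr_HID H (b.coord p₂) (comul (b p)) := by
  classical
  rw [← coord_HID b]
  refine Finset.sum_congr rfl fun p₁ _ => ?_
  rw [Finset.sum_eq_single p₂]
  · simp [cr_tmul_HID, dd]
  · intro q _ hq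
    simp [cr_tmul_HID, hq]
  · simp

theorem ee_HID {J : Type} (b : Basis J k H) (Λ : H) (p q : J) :
    ee b Λ p q = (b.coord p ∘ₗ antipode k) (cr_HID H (b.coord q) (comul Λ)) := by
  unfold ee
  generalize comul (R := k) Λ = t
  induction t using TensorProduct.induction_on with
  | zero => simp
  | tmul x y => simp [cr_tmul_HID]
  | add x y hx hy => simp only [map_add, Finsupp.add_apply, hx, hy]

theorem sum4_HID {J : Type} [Fintype J] (b : Basis J k H) (e : J → J → k) (u v : J → J → k) :
    ∑ p', ∑ q', (∑ p, ∑ q, e p q * u p p' * v q q') • (b p' * b q') =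
      ∑ p, ∑ q, e p q • ((∑ p', u p p' • b p') * ∑ q', v q q' • b q') := by
  simp only [Finset.sum_smul, Finset.sum_mul_sum, Finset.smul_sum, smul_mul_smul_comm, smul_smul,
    mul_assoc]
  calc ∑ p', ∑ q', ∑ p, ∑ q, (e p q * (u p p' * v q q')) • (b p' * b q')
      = ∑ x : J × J, ∑ y : J × J, (e y.1 y.2 * (u y.1 x.1 * v y.2 x.2)) • (b x.1 * b x.2) := by
        simp only [Fintype.sum_prod_type]
    _ = _ := by
        rw [Finset.sum_comm]
        simp only [Fintype.sum_prod_type]

end

theorem HID_pf (hA : ANTI_st) : HID_st := by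
  intro k H J _ _ _ _ b Λ hS h1 hc
  have hb : ∀ L R : H →ₗ[k] H, ∑ p, ∑ q, ee b Λ p q • (L (b p) * R (b q)) =
      LinearMap.mul' k H (TensorProduct.map (L ∘ₗ antipode k) R (comul Λ)) := by
    intro L R
    have h2 := coord_HID b ((antipode k).rTensor H (comul Λ))
      (LinearMap.mul' k H ∘ₗ TensorProduct.map L R)
    rw [LinearMap.comp_apply (x := LinearMap.rTensor H _ _), LinearMap.map_rTensor] at h2
    simpa [ee] using h2
  refine ⟨?_, fun p₁ q₁ => ?_, fun p₂ q₂ => ?_⟩
  · have h2 := coord_HID b ((antipode k).rTensor H (comul Λ)) (LinearMap.mul' k H)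
    rw [mul_antipode_rTensor_comul_apply, h1, map_one] at h2
    simpa [ee] using h2
  · unfold tt
    rw [sum4_HID b (ee b Λ) (fun p p' => dd b p p₁ p') (fun q q' => dd b q q₁ q')]
    simp only [ddl_HID]
    have e1 : (cl_HID H (b.coord p₁) ∘ₗ comul) ∘ₗ antipode k =
        antipode k ∘ₗ (cr_HID H (b.coord p₁ ∘ₗ antipode k) ∘ₗ comul) := by
      ext x
      simp only [LinearMap.comp_apply]
      rw [hA k H x]
      generalize comul (R := k) x = t
      induction t using TensorProduct.induction_on with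
      | zero => simp
      | tmul x y => simp [cl_tmul_HID, cr_tmul_HID]
      | add x y hx hy => simp only [map_add, hx, hy]
    have e2 : ∀ (L R : H →ₗ[k] H) (t : H ⊗[k] H),
        LinearMap.mul' k H (TensorProduct.map (antipode k ∘ₗ L) R (TensorProduct.comm k H H t)) =
          antipode k (LinearMap.mul' k H ((antipode k).rTensor H (TensorProduct.map R L t))) := by
      intro L R t
      induction t using TensorProduct.induction_on with
      | zero => simp
      | tmul x y => simp [antipode_mul_antidistrib, hS]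
      | add x y hx hy => simp only [map_add, hx, hy]
    have e3 : ∀ (φ ψ : H →ₗ[k] k) (t : H ⊗[k] H),
        φ (cr_HID H ψ (TensorProduct.comm k H H t)) = ψ (cr_HID H φ t) := by
      intro φ ψ t
      induction t using TensorProduct.induction_on with
      | zero => simp
      | tmul x y => simp [cr_tmul_HID, mul_comm]
      | add x y hx hy => simp only [map_add, hx, hy]
    refine (hb (cl_HID H (b.coord p₁) ∘ₗ comul) (cl_HID H (b.coord q₁) ∘ₗ comul)).trans ?_
    rw [e1, ← hc, e2, map_HID, mul_antipode_rTensor_comul_apply, counit_cl_HID, ee_HID, ← e3, hc,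
      Algebra.algebraMap_eq_smul_one, map_smul, antipode_one]
  · unfold tt
    rw [sum4_HID b (ee b Λ) (fun p p' => dd b p p' p₂) (fun q q' => dd b q q' q₂)]
    simp only [ddr_HID]
    have e1 : (cr_HID H (b.coord p₂) ∘ₗ comul) ∘ₗ antipode k =
        antipode k ∘ₗ (cl_HID H (b.coord p₂ ∘ₗ antipode k) ∘ₗ comul) := by
      ext x
      simp only [LinearMap.comp_apply]
      rw [hA k H x]
      generalize comul (R := k) x = t
      induction t using TensorProduct.induction_on with
      | zero => simp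
      | tmul x y => simp [cl_tmul_HID, cr_tmul_HID]
      | add x y hx hy => simp only [map_add, hx, hy]
    refine (hb (cr_HID H (b.coord p₂) ∘ₗ comul) (cr_HID H (b.coord q₂) ∘ₗ comul)).trans ?_
    rw [e1, ← LinearMap.rTensor_map, map_HID, mul_antipode_rTensor_comul_apply, counit_cl_HID,
      ee_HID, Algebra.algebraMap_eq_smul_one]

end Pool.Agent.MP_ae7646_al.F

end

end

section

/-! The product basis of a bicrossed product. -/

set_option autoImplicit false

open TensorProduct Coalgebra HopfAlgebra Module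
open scoped Kronecker

noncomputable section

namespace Pool.Agent.MP_ae7646_al.F

theorem BAS_pf : BAS_st := by
  intro k A H I J _ _ _ _ _ _ _ _ _ bA bH
  refine ⟨fun n => Matrix.of fun p l => bA.repr (bA n * bA l.1) p.1 * bH.repr (bH l.2) p.2,
    Matrix.of fun q p => dd bA p.1 q.1.1 q.2.1 * dd bH p.2 q.1.2 q.2.2, ?_⟩
  intro E _ _ i j h
  set b := (bA.tensorProduct bH).map (LinearEquiv.ofBijective (mm i j) h) with hb
  have h1 : ∀ v, b v = i (bA v.1) * j (bH v.2) := fun v => by
    rw [hb, Basis.map_apply, Basis.tensorProduct_apply']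
    rfl
  have h2 : ∀ a x p, b.repr (i a * j x) p = bA.repr a p.1 * bH.repr x p.2 := by
    intro a x p
    have e : (LinearEquiv.ofBijective (mm i j) h).symm (i a * j x) = a ⊗ₜ x :=
      (LinearEquiv.symm_apply_eq _).2 rfl
    rw [hb, Basis.map_repr, LinearEquiv.trans_apply, e]
    obtain ⟨m, n⟩ := p
    rw [Basis.tensorProduct_repr_tmul_apply, smul_eq_mul, mul_comm]
  have h3 : ∀ (s : A ⊗[k] A) (t : H ⊗[k] H) (q : (I × J) × (I × J)),
      (b.tensorProduct b).repr (TensorProduct.map i.toLinearMap i.toLinearMap s *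
        TensorProduct.map j.toLinearMap j.toLinearMap t) q =
      (bA.tensorProduct bA).repr s (q.1.1, q.2.1) * (bH.tensorProduct bH).repr t (q.1.2, q.2.2) := by
    rintro s t ⟨p, q⟩
    induction s using TensorProduct.induction_on with
    | zero => simp
    | add s s' hs hs' => simp only [map_add, add_mul, Finsupp.add_apply, hs, hs']
    | tmul a a' =>
      induction t using TensorProduct.induction_on with
      | zero => simp
      | add t t' ht ht' => simp only [map_add, mul_add, Finsupp.add_apply, ht, ht']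
      | tmul x x' =>
        rw [TensorProduct.map_tmul, TensorProduct.map_tmul, Algebra.TensorProduct.tmul_mul_tmul,
          Basis.tensorProduct_repr_tmul_apply, Basis.tensorProduct_repr_tmul_apply,
          Basis.tensorProduct_repr_tmul_apply]
        have e1 := h2 a x p
        have e2 := h2 a' x' q
        simp only [smul_eq_mul]
        refine (congrArg₂ (· * ·) e2 e1).trans ?_
        ring
  refine ⟨b, h1, fun n => ?_, fun q p => ?_⟩
  · ext p l
    rw [Algebra.leftMulMatrix_eq_repr_mul, h1, ← mul_assoc, ← map_mul, h2]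
    rfl
  · rw [h1, Bialgebra.comul_mul, Matrix.of_apply, dd, dd, ← h3,
      ← CoalgHomClass.map_comp_comul_apply i, ← CoalgHomClass.map_comp_comul_apply j]
    rfl

end Pool.Agent.MP_ae7646_al.F

end

end

section

set_option autoImplicit false

open TensorProduct Coalgebra HopfAlgebra Module
open scoped Kronecker

noncomputable section

namespace Pool.Agent.MP_ae7646_al.F

theorem tens_AXE {k H J : Type} [Field k] [AddCommGroup H] [Module k H] [Fintype J]
    (b : Basis J k H) (t : H ⊗[k] H) :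
    t = ∑ p, ∑ q, (b.tensorProduct b).repr t (p, q) • (b p ⊗ₜ[k] b q) := by
  conv_lhs => rw [← (b.tensorProduct b).sum_repr t]
  rw [Fintype.sum_prod_type]
  simp only [Basis.tensorProduct_apply]

theorem mulv_AXE {k E V : Type} [Field k] [Ring E] [Algebra k E] [Fintype V] [DecidableEq V]
    (b : Basis V k E) (y w : E) (p : V) :
    b.repr (y * w) p = ∑ l, Algebra.leftMulMatrix b y p l * b.repr w l := by
  have := congrFun (Algebra.leftMulMatrix_mulVec_repr b y w) p
  rw [← this]
  rfl

theorem kron_AXE {k E V : Type} [Field k] [Ring E] [Algebra k E] [Fintype V] [DecidableEq V]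
    (b : Basis V k E) (y y' : E) (t : E ⊗[k] E) (q : V × V) :
    (b.tensorProduct b).repr ((y ⊗ₜ[k] y') * t) q =
      ∑ l, (Algebra.leftMulMatrix b y ⊗ₖ Algebra.leftMulMatrix b y') q l *
        (b.tensorProduct b).repr t l := by
  induction t using TensorProduct.induction_on with
  | zero => simp
  | add s t hs ht =>
    simp only [mul_add, map_add, Finsupp.add_apply, hs, ht, Finset.sum_add_distrib]
  | tmul w w' =>
    obtain ⟨q₁, q₂⟩ := q
    rw [Algebra.TensorProduct.tmul_mul_tmul, Basis.tensorProduct_repr_tmul_apply, mulv_AXE,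
      mulv_AXE, Fintype.sum_prod_type, smul_eq_mul, mul_comm, Finset.sum_mul_sum]
    refine Finset.sum_congr rfl fun l _ => Finset.sum_congr rfl fun l' _ => ?_
    rw [Basis.tensorProduct_repr_tmul_apply, Matrix.kroneckerMap_apply, smul_eq_mul]
    ring

theorem AXE_pf : AXE_st := by
  intro k A H E I J _ _ _ _ _ _ _ _ _ _ _ bA bH i j b Λ D he hd hb hT hC h3 h4 h5 h6
  let L := Algebra.leftMulMatrix b
  have hX : ∀ n, X (xx j bH b) n = L (j (bH n)) := fun n => rfl
  have hm : ∀ {P Q : Type} (M : Matrix P Q k), M.map (algebraMap k k) = M := fun M => rfl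
  have hl : ∀ v, lam D (xx j bH b) v = L (b v) := fun v => by
    rw [lam, hm, hT, hX, hb, map_mul]
  refine ⟨⟨fun n v => ?_, fun n => ?_, ?_, fun p q => ?_, fun p q => ?_, fun v n => ?_⟩, hl⟩
  · simp only [hl, hX]
    rw [← map_mul]
    conv_lhs => rw [← b.sum_repr (j (bH n) * b v)]
    simp only [map_sum, map_smul, L, Algebra.leftMulMatrix_eq_repr_mul]
  · ext q v
    have e1 : comul (R := k) (j (bH n)) =
        ∑ p, ∑ p', D.d n p p' • (j (bH p) ⊗ₜ[k] j (bH p')) := by
      rw [← CoalgHomClass.map_comp_comul_apply j (bH n), tens_AXE bH (comul (bH n)), hd]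
      simp only [map_sum, map_smul, TensorProduct.map_tmul, dd]
      rfl
    have e2 : (D.C * L (j (bH n))) q v =
        (b.tensorProduct b).repr (comul (R := k) (j (bH n) * b v)) q := by
      conv_rhs => rw [← b.sum_repr (j (bH n) * b v)]
      simp only [map_sum, map_smul, Matrix.mul_apply, hC, L, Algebra.leftMulMatrix_eq_repr_mul,
        Finsupp.finsetSum_apply, Finsupp.smul_apply, smul_eq_mul, mul_comm]
    rw [hm, hX, e2, Bialgebra.comul_mul, e1]
    simp only [Matrix.sum_mul, Matrix.smul_mul]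
    simp only [Finset.sum_mul, smul_mul_assoc, map_sum, map_smul, Finsupp.finsetSum_apply,
      Finsupp.smul_apply, kron_AXE, Matrix.sum_apply,
      Matrix.smul_apply, Matrix.mul_apply, hC, hX]
    rfl
  · have := congrArg (fun h => L (j h)) h3
    simpa only [map_sum, map_smul, map_mul, map_one, hX] using this
  · have := congrArg (fun h => L (j h)) (h4 p q)
    simpa only [map_sum, map_smul, map_mul, map_one, hX] using this
  · have := congrArg (fun h => L (j h)) (h5 p q)
    simpa only [map_sum, map_smul, map_mul, map_one, hX] using this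
  · let α : E →ₗ[k] E := ∑ m, (b.coord (m, n)).smulRight (i (bA m))
    have a0 : ∀ y, α y = ∑ m, b.repr y (m, n) • i (bA m) := fun y => by
      simp only [α, LinearMap.sum_apply, LinearMap.smulRight_apply, Basis.coord_apply]
    have a1 : ∀ w, α (b w) = if w.2 = n then i (bA w.1) else 0 := by
      rintro ⟨m, n'⟩
      rw [a0]
      by_cases h : n' = n
      · subst h
        simp [Finsupp.single_apply]
      · simp [h]
    have a2 : ∀ a n', α (i a * j (bH n')) = if n' = n then i a else 0 := by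
      intro a n'
      have hb' : ∀ m, i (bA m) * j (bH n') = b (m, n') := fun m => (hb (m, n')).symm
      rw [← bA.sum_repr a]
      simp only [map_sum, map_smul, Finset.sum_mul, smul_mul_assoc, hb', a1]
      split_ifs <;> simp
    have a3 : ∀ a y, α (i a * y) = i a * α y := by
      intro a y
      rw [← b.sum_repr y]
      simp only [map_sum, map_smul, Finset.mul_sum, mul_smul_comm]
      refine Finset.sum_congr rfl fun w _ => ?_
      rw [hb, ← mul_assoc, ← map_mul, a2, a2]
      split_ifs <;> simp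
    have a4 : ∀ q, α (j (bH q)) = if q = n then 1 else 0 := fun q => by
      simpa using a2 1 q
    have a5 : ∀ u : E, ∑ s ∈ (Coalgebra.Repr.arbitrary k Λ).index,
        j (antipode k ((Coalgebra.Repr.arbitrary k Λ).left s)) *
          α (j ((Coalgebra.Repr.arbitrary k Λ).right s) * u) =
        ∑ p, ∑ q, D.e p q • (j (bH p) * α (j (bH q) * u)) := by
      intro u
      let Φ : H ⊗[k] H →ₗ[k] E := TensorProduct.lift (((LinearMap.mul k E).comp j.toLinearMap).compl₂
        (α ∘ₗ (LinearMap.mulRight k u) ∘ₗ j.toLinearMap))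
      have hΦ : ∀ x y, Φ (x ⊗ₜ[k] y) = j x * α (j y * u) := fun x y => rfl
      have e1 := congrArg Φ (tens_AXE bH ((antipode k).rTensor H (comul (R := k) Λ)))
      simp only [map_sum, map_smul, hΦ] at e1
      rw [he]
      refine Eq.trans ?_ e1
      rw [← (Coalgebra.Repr.arbitrary k Λ).eq]
      simp only [map_sum, LinearMap.rTensor_tmul, hΦ]
    have e := h6 α a3 (b v) _ (Coalgebra.Repr.arbitrary k Λ)
    have a6 := a5 1
    simp only [mul_one] at a6
    rw [a5, a6] at e
    have e' := congrArg L e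
    simp only [a4, mul_ite, mul_one, mul_zero, smul_ite, smul_zero, Finset.sum_ite_eq',
      Finset.mem_univ, if_true, Finset.mul_sum, mul_smul_comm, map_sum, map_smul, map_mul] at e'
    simp only [hl, hX, hm, hT]
    rw [← e']
    refine Finset.sum_congr rfl fun p _ => Finset.sum_congr rfl fun q _ => ?_
    rw [a0]
    simp only [map_sum, map_smul, Finset.mul_sum, Finset.smul_sum, mul_smul_comm, smul_smul,
      smul_eq_mul, L, Algebra.leftMulMatrix_eq_repr_mul]

end Pool.Agent.MP_ae7646_al.F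

end

end

section

set_option autoImplicit false

open TensorProduct Coalgebra HopfAlgebra Module
open scoped Kronecker

noncomputable section

namespace Pool.Agent.MP_ae7646_al.F

theorem BRB_pf : BRB_st := by
  intro k E E' I J _ _ _ _ _ _ _ _ _ D b b' x y hx hy hC hC' ⟨g, g', h1, h2, h3, h4⟩
  let φ : E ≃ₗ[k] E' := LinearEquiv.ofLinearMap (Matrix.toLin b b' g) (Matrix.toLin b' b g')
    (by rw [← Matrix.toLin_mul, h1, Matrix.toLin_one])
    (by rw [← Matrix.toLin_mul, h2, Matrix.toLin_one])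
  have hg : LinearMap.toMatrix b b' φ.toLinearMap = g := LinearMap.toMatrix_toLin b b' g
  have hb : ∀ v, φ (b v) = ∑ z, g z v • b' z := fun v => Matrix.toLin_self b b' g v
  have lm : ∀ u : E, Algebra.leftMulMatrix b u = LinearMap.toMatrix b b (LinearMap.mulLeft k u) :=
    fun u => rfl
  have lm' : ∀ u : E', Algebra.leftMulMatrix b' u =
      LinearMap.toMatrix b' b' (LinearMap.mulLeft k u) := fun u => rfl
  have mulb : ∀ v u, φ (b v * u) = φ (b v) * φ u := by
    intro v u
    have e := h3 v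
    have e2 : ∑ z, g z v • lam D y z = Algebra.leftMulMatrix b' (φ (b v)) := by
      rw [hb, map_sum]
      exact Finset.sum_congr rfl fun z _ => by rw [hy, map_smul]
    rw [e2, hx, lm, lm', ← hg, ← LinearMap.toMatrix_comp, ← LinearMap.toMatrix_comp] at e
    exact LinearMap.congr_fun ((LinearMap.toMatrix b b').injective e) u
  have mul : ∀ w u, φ (w * u) = φ w * φ u := by
    intro w u
    have : φ.toLinearMap ∘ₗ LinearMap.mulRight k u =
        LinearMap.mulRight k (φ u) ∘ₗ φ.toLinearMap := b.ext fun v => mulb v u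
    exact LinearMap.congr_fun this w
  have one : φ 1 = 1 := by
    obtain ⟨u, hu⟩ := φ.surjective 1
    rw [← mul_one (φ 1), ← hu, ← mul, one_mul]
  have c1 : D.C = LinearMap.toMatrix b (b.tensorProduct b) comul := by
    ext q p
    rw [hC, LinearMap.toMatrix_apply]
  have c2 : D.C = LinearMap.toMatrix b' (b'.tensorProduct b') comul := by
    ext q p
    rw [hC', LinearMap.toMatrix_apply]
  have com : comul ∘ₗ φ.toLinearMap =
      TensorProduct.map φ.toLinearMap φ.toLinearMap ∘ₗ comul := by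
    have e0 : D.C.map (algebraMap k k) = D.C := by ext; simp
    rw [e0] at h4
    apply (LinearMap.toMatrix b (b'.tensorProduct b')).injective
    rw [LinearMap.toMatrix_comp b b', LinearMap.toMatrix_comp b (b.tensorProduct b),
      TensorProduct.toMatrix_map, hg, ← c1, ← c2, h4]
  have cou : ∀ u : E, counit (R := k) (φ u) = counit u := by
    intro u
    let r := Coalgebra.Repr.arbitrary k u
    have e1 : comul (R := k) (φ u) = ∑ s ∈ r.index, φ (r.left s) ⊗ₜ[k] φ (r.right s) := by
      have := LinearMap.congr_fun com u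
      simp only [LinearMap.comp_apply, LinearEquiv.coe_coe] at this
      rw [this, ← r.eq, map_sum]
      rfl
    have e2 : ∑ s ∈ r.index, counit (R := k) (φ (r.left s)) • φ (r.right s) = φ u :=
      Coalgebra.sum_counit_smul (⟨r.index, fun s => φ (r.left s), fun s => φ (r.right s),
        e1.symm⟩ : Coalgebra.Repr k (φ u) _)
    have e3 : ∑ s ∈ r.index, counit (R := k) (φ (r.left s)) • r.right s = u := by
      apply φ.injective
      rw [map_sum, ← e2]
      exact Finset.sum_congr rfl fun s _ => map_smul φ _ _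
    have e4 : ∑ s ∈ r.index, counit (R := k) (r.right s) • r.left s = u := by
      have := congrArg (TensorProduct.rid k E) (Coalgebra.sum_tmul_counit_eq r)
      simpa only [map_sum, TensorProduct.rid_tmul, one_smul] using this
    conv_lhs => rw [← e4]
    conv_rhs => rw [← e3]
    simp only [map_sum, map_smul, smul_eq_mul, mul_comm]
  exact ⟨BialgEquiv.ofAlgEquiv (AlgEquiv.ofLinearEquiv φ one mul) (AlgHom.ext cou)
    (AlgHom.ext fun u => (LinearMap.congr_fun com u).symm)⟩

end Pool.Agent.MP_ae7646_al.F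

end

end

section

set_option autoImplicit false

open TensorProduct Coalgebra HopfAlgebra Module

noncomputable section

namespace Pool.Agent.MP_ae7646_al.F

theorem right_case (k : Type) [Field k] [IsAlgClosed k] [CharZero k] (A H : Type) [Ring A]
    [HopfAlgebra k A] [Ring H] [HopfAlgebra k H] [FiniteDimensional k A] [FiniteDimensional k H]
    (hS : ∀ h : H, antipode k (antipode k h) = h) (E : ℕ → Type) [∀ m, Ring (E m)]
    [∀ m, HopfAlgebra k (E m)]
    (hE : ∀ m, ∃ (i : A →ₐc[k] E m) (j : H →ₐc[k] E m), Function.Bijective (mm i j)) :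
    ∃ m m' : ℕ, m ≠ m' ∧ Nonempty (E m ≃ₐc[k] E m') := by
  obtain ⟨Λ, h1, h2, h3⟩ := LAM_pf NATS_pf k H hS
  obtain ⟨T, C, hb⟩ := BAS_pf k A H _ _ (Module.finBasis k A) (Module.finBasis k H)
  obtain ⟨D, hD⟩ : ∃ D : Dat k (Fin (finrank k A)) (Fin (finrank k H)),
      D = ⟨ee (Module.finBasis k H) Λ, dd (Module.finBasis k H), T, C⟩ := ⟨_, rfl⟩
  obtain ⟨g3, g4, g5⟩ := HID_pf ANTI_pf k H _ (Module.finBasis k H) Λ hS h1 h2
  have key : ∀ m, ∃ (b : Basis (Fin (finrank k A) × Fin (finrank k H)) k (E m)) (x : _),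
      Ax D k x ∧ (∀ v, lam D x v = Algebra.leftMulMatrix b (b v)) ∧
        ∀ q p, D.C q p = (b.tensorProduct b).repr (comul (b p)) q := fun m => by
    obtain ⟨i, j, hij⟩ := hE m
    obtain ⟨b, b1, b2, b3⟩ := hb (E m) i j hij
    obtain ⟨π, p1, p2⟩ := PI_pf NATS_pf k A H (E m) i j hij hS
    subst hD
    obtain ⟨a1, a2⟩ := AXE_pf k A H (E m) _ _ (Module.finBasis k A) (Module.finBasis k H) i j b Λ
      ⟨ee (Module.finBasis k H) Λ, dd (Module.finBasis k H), T, C⟩ rfl rfl b1 b2 b3 g3 g4 g5
      fun α hα => SEP_pf k A H (E m) i j π Λ α hij.2 p2 (h3 (E m) j π p1) hα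
    exact ⟨b, _, a1, a2, b3⟩
  choose b x hx hl hc using key
  obtain ⟨e1, M, L, _, _, F, e2, e3⟩ := EQV_pf k _ _ D
  obtain ⟨n1, n2⟩ := NAT_pf k _ _ D
  obtain ⟨m, m', hne, hi⟩ := FIN_pf DER_pf LD_pf (PT_pf CHEV_pf) GERM_pf k _ M L F (Iso D) (Ax D)
    e2 e3 e1 n1 n2 (RIG_pf k _ _ D) x hx
  exact ⟨m, m', hne, BRB_pf k _ _ _ _ D (b m) (b m') _ _ (hl m) (hl m') (hc m) (hc m') hi⟩

theorem main (k : Type) [Field k] [IsAlgClosed k] [CharZero k] (A H : Type) [Ring A]
    [HopfAlgebra k A] [Ring H] [HopfAlgebra k H] [FiniteDimensional k A] [FiniteDimensional k H]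
    (hS : (∀ a : A, antipode k (antipode k a) = a) ∨ ∀ h : H, antipode k (antipode k h) = h)
    (E : ℕ → Type) [∀ m, Ring (E m)] [∀ m, HopfAlgebra k (E m)]
    (hE : ∀ m, ∃ (i : A →ₐc[k] E m) (j : H →ₐc[k] E m), Function.Bijective (mm i j)) :
    ∃ m m' : ℕ, m ≠ m' ∧ Nonempty (E m ≃ₐc[k] E m') := by
  rcases hS with hS | hS
  · refine right_case k H A hS E fun m => ?_
    obtain ⟨i, j, h⟩ := hE m
    exact ⟨j, i, SWAP_pf (ANT_pf ANTI_pf) k A H (E m) i j h⟩
  · exact right_case k A H hS E hE

end Pool.Agent.MP_ae7646_al.F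

end

end
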