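import Pool.Agent.MP_ae7646_al.Hopf

/-! Isomorphisms between the four-component Hopf algebras preserve the square of the scalar. -/

set_option autoImplicit false

open TensorProduct

namespace Pool.Agent.MP_ae7646_al

noncomputable section

variable {k G : Type} [Field k] [CommGroup G]

lemma eq_zero_of_tmul_self {M : Type} [AddCommGroup M] [Module k M] {r : M}
    (h : r ⊗ₜ[k] r = 0) : r = 0 := by
  by_contra hr
  obtain ⟨f, hf⟩ : ∃ f : Module.Dual k M, f r ≠ 0 := by
    by_contra hc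
    push Not at hc
    exact hr ((Module.forall_dual_apply_eq_zero_iff k r).1 hc)
  have := congrArg (fun t => TensorProduct.lid k k (TensorProduct.map f f t)) h
  simp at this
  exact hf this

namespace Q4

variable {D : Dat k G}

/-- coordinate functions -/
def p0 (D : Dat k G) : Q4 D.par →ₗ[k] MonoidAlgebra k G :=
  ⟨⟨fun u => u.c0, fun _ _ => rfl⟩, fun _ _ => rfl⟩
/-- coordinate functions -/
def p1 (D : Dat k G) : Q4 D.par →ₗ[k] MonoidAlgebra k G :=
  ⟨⟨fun u => u.c1, fun _ _ => rfl⟩, fun _ _ => rfl⟩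
/-- coordinate functions -/
def p2 (D : Dat k G) : Q4 D.par →ₗ[k] MonoidAlgebra k G :=
  ⟨⟨fun u => u.c2, fun _ _ => rfl⟩, fun _ _ => rfl⟩
/-- coordinate functions -/
def p3 (D : Dat k G) : Q4 D.par →ₗ[k] MonoidAlgebra k G :=
  ⟨⟨fun u => u.c3, fun _ _ => rfl⟩, fun _ _ => rfl⟩

@[simp] lemma p0_apply (u : Q4 D.par) : p0 D u = u.c0 := rfl
@[simp] lemma p1_apply (u : Q4 D.par) : p1 D u = u.c1 := rfl
@[simp] lemma p2_apply (u : Q4 D.par) : p2 D u = u.c2 := rfl
@[simp] lemma p3_apply (u : Q4 D.par) : p3 D u = u.c3 := rfl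

/-- left linearity over the group algebra -/
def LeftLin (p : Q4 D.par →ₗ[k] MonoidAlgebra k G) : Prop :=
  ∀ r u, p (ι D.par r * u) = r * p u

lemma ll0 : LeftLin (p0 D) := fun r u => by simp
lemma ll1 : LeftLin (p1 D) := fun r u => by simp
lemma ll2 : LeftLin (p2 D) := fun r u => by simp
lemma ll3 : LeftLin (p3 D) := fun r u => by simp

lemma comul_ι (r : MonoidAlgebra k G) :
    comul D (ι D.par r) =
      Algebra.TensorProduct.map (ι D.par) (ι D.par) (Coalgebra.comul (R := k) r) := by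
  induction r using MonoidAlgebra.induction_on with
  | of u =>
    rw [← T_apply, comul_T, (MonoidAlgebra.isGroupLikeElem_of u).comul_eq_tmul_self]
    rfl
  | add a b ha hb => simp only [map_add, ha, hb]
  | smul c a ha => simp only [map_smul, ha]

lemma map_mul_left {p q : Q4 D.par →ₗ[k] MonoidAlgebra k G} (hp : LeftLin p) (hq : LeftLin q)
    (t : MonoidAlgebra k G ⊗[k] MonoidAlgebra k G) (s : Q4 D.par ⊗[k] Q4 D.par) :
    TensorProduct.map p q (Algebra.TensorProduct.map (ι D.par) (ι D.par) t * s) =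
      t * TensorProduct.map p q s := by
  induction t using TensorProduct.induction_on with
  | zero => simp
  | add a b ha hb => simp only [map_add, add_mul, ha, hb]
  | tmul r1 r2 =>
    induction s using TensorProduct.induction_on with
    | zero => simp
    | add a b ha hb => simp only [map_add, mul_add, ha, hb]
    | tmul a b =>
      simp only [Algebra.TensorProduct.map_tmul, Algebra.TensorProduct.tmul_mul_tmul,
        TensorProduct.map_tmul, hp r1 a, hq r2 b]

lemma comul_XY : comul D (X D.par * Y D.par) =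
    (X D.par * Y D.par) ⊗ₜ 1 + (X D.par * T D D.h) ⊗ₜ Y D.par + (T D D.g * Y D.par) ⊗ₜ X D.par
      + (T D D.g * T D D.h) ⊗ₜ (X D.par * Y D.par) := by
  rw [map_mul, comul_X, comul_Y]
  simp only [add_mul, mul_add, Algebra.TensorProduct.tmul_mul_tmul, one_mul, mul_one]
  abel

lemma comp_comul {p q : Q4 D.par →ₗ[k] MonoidAlgebra k G} (hp : LeftLin p) (hq : LeftLin q)
    (u : Q4 D.par) :
    TensorProduct.map p q (comul D u) =
      Coalgebra.comul (R := k) u.c0 * (p 1 ⊗ₜ q 1) +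
      Coalgebra.comul (R := k) u.c1 * (p (X D.par) ⊗ₜ q 1 + p (T D D.g) ⊗ₜ q (X D.par)) +
      Coalgebra.comul (R := k) u.c2 * (p (Y D.par) ⊗ₜ q 1 + p (T D D.h) ⊗ₜ q (Y D.par)) +
      Coalgebra.comul (R := k) u.c3 * (p (X D.par * Y D.par) ⊗ₜ q 1 +
        p (X D.par * T D D.h) ⊗ₜ q (Y D.par) + p (T D D.g * Y D.par) ⊗ₜ q (X D.par)
        + p (T D D.g * T D D.h) ⊗ₜ q (X D.par * Y D.par)) := by
  conv_lhs => rw [decomp u, ← mul_one (ι D.par u.c0)]
  simp only [map_add]
  rw [map_mul (comul D) (ι D.par u.c0), map_mul (comul D) (ι D.par u.c1),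
    map_mul (comul D) (ι D.par u.c2), map_mul (comul D) (ι D.par u.c3), comul_XY, comul_X, comul_Y,
    map_one, comul_ι, comul_ι, comul_ι, comul_ι, map_mul_left hp hq, map_mul_left hp hq,
    map_mul_left hp hq, map_mul_left hp hq]
  simp only [map_add, TensorProduct.map_tmul, Algebra.TensorProduct.one_def]

lemma grouplike_coef {v : Q4 D.par} (hv : comul D v = v ⊗ₜ v) : v = ι D.par v.c0 := by
  have h1 := comp_comul ll1 ll1 v
  have h2 := comp_comul ll2 ll2 v
  have h3 := comp_comul ll3 ll3 v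
  rw [hv] at h1 h2 h3
  simp [T_apply] at h1 h2 h3
  have e1 := eq_zero_of_tmul_self h1
  have e2 := eq_zero_of_tmul_self h2
  have e3 := eq_zero_of_tmul_self h3
  ext1 <;> simp [e1, e2, e3]

lemma scalar_of_comul {r : MonoidAlgebra k G} (h : Coalgebra.comul (R := k) r = r ⊗ₜ 1) :
    r = (Coalgebra.counit (R := k) r) • 1 := by
  have := Coalgebra.rTensor_counit_comul (R := k) r
  rw [h] at this
  have h2 := congrArg (TensorProduct.lid k (MonoidAlgebra k G)) this
  simp at h2
  exact h2.symm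

lemma eq_zero_of_comul {r : MonoidAlgebra k G} (h : Coalgebra.comul (R := k) r = 0) : r = 0 := by
  have := Coalgebra.rTensor_counit_comul (R := k) r
  rw [h] at this
  have h2 := congrArg (TensorProduct.lid k (MonoidAlgebra k G)) this
  simp at h2
  exact h2.symm

lemma e_inj : Function.Injective (e k : G → MonoidAlgebra k G) := MonoidAlgebra.of_injective

lemma T_inj : Function.Injective (T D) := fun _ _ h => e_inj (k := k) (congrArg Q4.c0 h)

lemma tmul_one_inj {a b : MonoidAlgebra k G}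
    (h : a ⊗ₜ[k] (1 : MonoidAlgebra k G) = b ⊗ₜ[k] (1 : MonoidAlgebra k G)) : a = b := by
  have := congrArg (fun t => TensorProduct.rid k (MonoidAlgebra k G)
    (LinearMap.lTensor (MonoidAlgebra k G) (Coalgebra.counit (R := k)) t)) h
  simpa using this

lemma skew (h2 : (2 : k) ≠ 0) (hgh : D.g ≠ D.h) {u v : Q4 D.par} (hv : comul D v = v ⊗ₜ v)
    (hunit : IsUnit v) (hu : comul D u = u ⊗ₜ 1 + v ⊗ₜ u) (hanti : u * v = -(v * u))
    (hu0 : u ≠ 0) :
    (v = T D D.g ∧ ∃ α : k, u = α • X D.par) ∨ (v = T D D.h ∧ ∃ β : k, u = β • Y D.par) := by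
  have hv' := grouplike_coef hv
  set γ := v.c0 with hγ
  have hγu : IsUnit γ := by
    obtain ⟨w, hw⟩ := hunit.exists_right_inv
    have := congrArg Q4.c0 hw
    rw [hv'] at this
    simp at this
    exact IsUnit.of_mul_eq_one _ this
  have h12 := comp_comul ll1 ll2 u
  have h10 := comp_comul ll1 ll0 u
  have h20 := comp_comul ll2 ll0 u
  have h01 := comp_comul ll0 ll1 u
  have h02 := comp_comul ll0 ll2 u
  rw [hu, hv'] at h12 h10 h20 h01 h02
  simp [T_apply, D.par_σ_e, D.χh, ← Algebra.TensorProduct.one_def, -MonoidAlgebra.of_apply]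
    at h12 h10 h20 h01 h02
  have c3 : u.c3 = 0 := by
    apply eq_zero_of_comul
    have : ((-e k D.h) ⊗ₜ[k] (1 : MonoidAlgebra k G)) * ((-e k D.h⁻¹) ⊗ₜ[k] 1) = 1 := by
      rw [Algebra.TensorProduct.tmul_mul_tmul, neg_mul_neg, ← map_mul, mul_inv_cancel, map_one,
        one_mul, Algebra.TensorProduct.one_def]
    rw [← mul_one (Coalgebra.comul (R := k) u.c3), ← this, ← mul_assoc, ← h12, zero_mul]
  obtain ⟨α, hα⟩ : ∃ α : k, u.c1 = α • 1 := ⟨_, scalar_of_comul h10.symm⟩
  obtain ⟨β, hβ⟩ : ∃ β : k, u.c2 = β • 1 := ⟨_, scalar_of_comul h20.symm⟩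
  have c0 : u.c0 = 0 := by
    have := congrArg Q4.c0 hanti
    rw [hv'] at this
    simp at this
    have h3 : (2 : k) • (γ * u.c0) = 0 := by
      rw [two_smul]
      nth_rewrite 1 [mul_comm]
      rw [this, neg_add_cancel]
    rw [smul_eq_zero] at h3
    exact (hγu.mul_right_eq_zero).1 (h3.resolve_left h2)
  have hg : α • γ = α • e k D.g := by
    apply tmul_one_inj
    rw [hα] at h01
    simpa [smul_tmul, -MonoidAlgebra.of_apply] using h01
  have hh : β • γ = β • e k D.h := by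
    apply tmul_one_inj
    rw [hβ] at h02
    simpa [smul_tmul, -MonoidAlgebra.of_apply] using h02
  by_cases ha : α = 0
  · have hb : β ≠ 0 := by
      rintro rfl
      apply hu0
      ext1 <;> simp [c0, c3, hα, hβ, ha]
    right
    refine ⟨by rw [hv', smul_right_injective _ hb hh, T_apply], β, ?_⟩
    ext1 <;> simp [c0, c3, hα, hβ, ha]
  · have hg' := smul_right_injective _ ha hg
    have hb : β = 0 := by
      by_contra hb
      have hh' := smul_right_injective _ hb hh
      exact hgh (e_inj (k := k) (hg'.symm.trans hh'))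
    left
    refine ⟨by rw [hv', hg', T_apply], α, ?_⟩
    ext1 <;> simp [c0, c3, hα, hβ, hb]

lemma one_sub_ne {u v : G} (h : u * v ≠ 1) : (1 : Q4 D.par) - T D u * T D v ≠ 0 := by
  rw [← map_mul, ← map_one (T D), sub_ne_zero]
  exact fun h' => h (T_inj h').symm

lemma sq_one {α : k} {x w : Q4 D.par} (hw : w ≠ 0) (hx : x * x = w)
    (h : (α • x) * (α • x) = w) : α * α = 1 := by
  rw [Algebra.smul_mul_assoc, Algebra.mul_smul_comm, smul_smul, hx] at h
  have : (α * α - 1) • w = 0 := by rw [sub_smul, h, one_smul, sub_self]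
  rw [smul_eq_zero] at this
  exact sub_eq_zero.1 (this.resolve_right hw)

theorem sq_eq_of_equiv (h2 : (2 : k) ≠ 0) {D D' : Dat k G} (hgh : D.g ≠ D.h) (hgh' : D'.g ≠ D'.h)
    (hg2' : D'.g * D'.g ≠ 1) (hh2' : D'.h * D'.h ≠ 1) (hm' : D'.g * D'.h ≠ 1)
    (φ : Q4 D.par ≃ₐc[k] Q4 D'.par) : D.l * D.l = D'.l * D'.l := by
  have hφ : ∀ b, comul D' (φ b) = TensorProduct.map (φ : Q4 D.par →ₗ[k] Q4 D'.par)
      (φ : Q4 D.par →ₗ[k] Q4 D'.par) (comul D b) := fun b =>
    (CoalgHomClass.map_comp_comul_apply φ b).symm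
  have hT : ∀ u, comul D' (φ (T D u)) = φ (T D u) ⊗ₜ φ (T D u) := fun u => by
    rw [hφ, comul_T]; rfl
  have hTu : ∀ u, IsUnit (φ (T D u)) := fun u =>
    ((Group.isUnit u).map (T D)).map φ
  have hX : comul D' (φ (X D.par)) = φ (X D.par) ⊗ₜ 1 + φ (T D D.g) ⊗ₜ φ (X D.par) := by
    rw [hφ, comul_X, map_add, TensorProduct.map_tmul, TensorProduct.map_tmul]
    simp
  have hY : comul D' (φ (Y D.par)) = φ (Y D.par) ⊗ₜ 1 + φ (T D D.h) ⊗ₜ φ (Y D.par) := by
    rw [hφ, comul_Y, map_add, TensorProduct.map_tmul, TensorProduct.map_tmul]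
    simp
  have hXa : φ (X D.par) * φ (T D D.g) = -(φ (T D D.g) * φ (X D.par)) := by
    rw [← map_mul, X_mul_T, D.χg, neg_smul, one_smul, map_neg, map_mul]
  have hYa : φ (Y D.par) * φ (T D D.h) = -(φ (T D D.h) * φ (Y D.par)) := by
    rw [← map_mul, Y_mul_T, D.χh, neg_smul, one_smul, map_neg, map_mul]
  have hX0 : φ (X D.par) ≠ 0 := by
    rw [Ne, map_eq_zero_iff φ φ.injective]
    intro h
    have := congrArg Q4.c1 h
    simp at this
  have hY0 : φ (Y D.par) ≠ 0 := by
    rw [Ne, map_eq_zero_iff φ φ.injective]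
    intro h
    have := congrArg Q4.c2 h
    simp at this
  have hXX : φ (X D.par) * φ (X D.par) = 1 - φ (T D D.g) * φ (T D D.g) := by
    rw [← map_mul, XX, map_sub, map_one, map_mul]
  have hYY : φ (Y D.par) * φ (Y D.par) = 1 - φ (T D D.h) * φ (T D D.h) := by
    rw [← map_mul, YY, map_sub, map_one, map_mul]
  have hYX : φ (Y D.par) * φ (X D.par) =
      D.l • (1 - φ (T D D.g) * φ (T D D.h)) - φ (X D.par) * φ (Y D.par) := by
    rw [← map_mul, YX, map_sub, map_smul, map_sub, map_one, map_mul, map_mul]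
  have hne : φ (T D D.g) ≠ φ (T D D.h) := fun h => hgh (T_inj (φ.injective h))
  have key : ∀ α β : k, α * α = 1 → β * β = 1 →
      (α * β) • (D'.l • (1 - T D' D'.g * T D' D'.h)) = D.l • (1 - T D' D'.g * T D' D'.h) →
      D.l * D.l = D'.l * D'.l := by
    intro α β ha hb h
    rw [smul_smul, ← sub_eq_zero, ← sub_smul, smul_eq_zero] at h
    have h' := sub_eq_zero.1 (h.resolve_right (one_sub_ne hm'))
    rw [← h']
    calc α * β * D'.l * (α * β * D'.l) = (α * α) * (β * β) * (D'.l * D'.l) := by ring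
      _ = D'.l * D'.l := by rw [ha, hb, one_mul, one_mul]
  rcases skew h2 hgh' (hT D.g) (hTu D.g) hX hXa hX0 with ⟨e1, α, f1⟩ | ⟨e1, α, f1⟩ <;>
    rcases skew h2 hgh' (hT D.h) (hTu D.h) hY hYa hY0 with ⟨e2, β, f2⟩ | ⟨e2, β, f2⟩
  · exact absurd (e1.trans e2.symm) hne
  · rw [e1, f1] at hXX
    rw [e2, f2] at hYY
    rw [e1, e2, f1, f2] at hYX
    refine key α β (sq_one (one_sub_ne hg2') XX hXX) (sq_one (one_sub_ne hh2') YY hYY) ?_
    rw [eq_sub_iff_add_eq] at hYX
    rw [← hYX, ← sub_add_cancel (D'.l • (1 - T D' D'.g * T D' D'.h)) (X D'.par * Y D'.par), ← YX]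
    simp only [Algebra.smul_mul_assoc, Algebra.mul_smul_comm, smul_smul, smul_add, mul_comm]
  · rw [e1, f1] at hXX
    rw [e2, f2] at hYY
    rw [e1, e2, f1, f2, T_comm D'.h D'.g] at hYX
    refine key α β (sq_one (one_sub_ne hh2') YY hXX) (sq_one (one_sub_ne hg2') XX hYY) ?_
    rw [eq_sub_iff_add_eq] at hYX
    rw [← hYX, ← sub_add_cancel (D'.l • (1 - T D' D'.g * T D' D'.h)) (X D'.par * Y D'.par), ← YX]
    simp only [Algebra.smul_mul_assoc, Algebra.mul_smul_comm, smul_smul, smul_add, mul_comm,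
      add_comm]
  · exact absurd (e1.trans e2.symm) hne

end Q4

end

end Pool.Agent.MP_ae7646_al
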